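import Pool.Agent.W626.HQuot

/-!
# Limits of unitary approximations

`Nl F Y c` is the subgroup of the sequences of unitary matrices which tend to `1` in Frobenius norm
relative to the scale `c`.  A group whose elements are separated by homomorphisms to quotients
`(∏ U(Y i)) / Nl F Y c` is hyperlinear, and conversely.
-/

set_option autoImplicit false

namespace Pool.Agent.N44.HL

open Finset Matrix Filter Topology Pool.Agent.H21R2 Pool.Agent.H80R2.HG Pool.Agent.W626
open scoped Matrix.Norms.Frobenius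

universe u v

section null

variable {J : Type u} (F : Filter J) (Y : J → Type) [∀ i, Fintype (Y i)] [∀ i, DecidableEq (Y i)]
  (c : J → ℝ)

theorem norm_sub_one_inv {X : Type} [Fintype X] [DecidableEq X] (U : unitaryGroup X ℂ) :
    ‖(U⁻¹ : unitaryGroup X ℂ).1 - 1‖ = ‖U.1 - 1‖ := by
  rw [← norm_unitary_mul U ((U⁻¹ : unitaryGroup X ℂ).1 - 1), mul_sub, mul_one,
    ← UnitaryGroup.mul_val, mul_inv_cancel]
  change ‖1 - U.1‖ = _
  exact norm_sub_rev _ _

theorem norm_mul_sub_one_le {X : Type} [Fintype X] [DecidableEq X] (U V : unitaryGroup X ℂ) :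
    ‖(U * V).1 - 1‖ ≤ ‖U.1 - 1‖ + ‖V.1 - 1‖ := by
  have e : (U * V).1 - 1 = (U.1 - 1) * V.1 + (V.1 - 1) := by
    change U.1 * V.1 - 1 = _
    noncomm_ring
  rw [e]
  refine (norm_add_le _ _).trans ?_
  rw [norm_mul_unitary]

theorem norm_conj_sub_one {X : Type} [Fintype X] [DecidableEq X] (U V : unitaryGroup X ℂ) :
    ‖(V * U * V⁻¹).1 - 1‖ = ‖U.1 - 1‖ := by
  have e : (V * U * V⁻¹).1 - 1 = V.1 * (U.1 - 1) * (V⁻¹ : unitaryGroup X ℂ).1 := by
    have h : V.1 * (V⁻¹ : unitaryGroup X ℂ).1 = 1 := by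
      rw [← UnitaryGroup.mul_val, mul_inv_cancel]; rfl
    change V.1 * U.1 * (V⁻¹ : unitaryGroup X ℂ).1 - 1 = _
    rw [mul_sub, sub_mul, mul_one, h]
  rw [e, norm_mul_unitary, norm_unitary_mul]

/-- the null sequences of unitaries -/
def Nl : Subgroup (∀ i, unitaryGroup (Y i) ℂ) where
  carrier := {U | Tendsto (fun i => ‖(U i).1 - 1‖ / |c i|) F (𝓝 0)}
  one_mem' := by
    change Tendsto (fun i => ‖(1 : Matrix (Y i) (Y i) ℂ) - 1‖ / |c i|) F (𝓝 0)
    simpa using tendsto_const_nhds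
  mul_mem' := by
    intro U V hU hV
    have h := hU.add hV
    rw [add_zero] at h
    refine squeeze_zero (fun i => by positivity) (fun i => ?_) h
    change ‖(U i * V i).1 - 1‖ / |c i| ≤ ‖(U i).1 - 1‖ / |c i| + ‖(V i).1 - 1‖ / |c i|
    rw [← add_div]
    gcongr
    exact norm_mul_sub_one_le _ _
  inv_mem' := by
    intro U hU
    change Tendsto (fun i => ‖((U i)⁻¹ : unitaryGroup (Y i) ℂ).1 - 1‖ / |c i|) F (𝓝 0)
    simp_rw [norm_sub_one_inv]
    exact hU

theorem mem_Nl {U : ∀ i, unitaryGroup (Y i) ℂ} :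
    U ∈ Nl F Y c ↔ Tendsto (fun i => ‖(U i).1 - 1‖ / |c i|) F (𝓝 0) := Iff.rfl

instance : (Nl F Y c).Normal := by
  constructor
  intro U hU V
  rw [mem_Nl] at hU ⊢
  have : ∀ i, ‖((V * U * V⁻¹) i).1 - 1‖ = ‖(U i).1 - 1‖ := fun i => norm_conj_sub_one (U i) (V i)
  simp_rw [this]
  exact hU

theorem eq_iff {U V : ∀ i, unitaryGroup (Y i) ℂ} :
    (U : (∀ i, unitaryGroup (Y i) ℂ) ⧸ Nl F Y c) = V ↔
      Tendsto (fun i => ‖(U i).1 - (V i).1‖ / |c i|) F (𝓝 0) := by
  rw [QuotientGroup.eq, mem_Nl]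
  have : ∀ i, ‖((U⁻¹ * V) i).1 - 1‖ = ‖(U i).1 - (V i).1‖ := by
    intro i
    rw [← norm_unitary_mul (U i), mul_sub, mul_one, ← UnitaryGroup.mul_val]
    change ‖(U i * ((U i)⁻¹ * V i)).1 - (U i).1‖ = _
    rw [mul_inv_cancel_left]
    exact norm_sub_rev _ _
  simp_rw [this]

end null

/-- `g` is separated from `1` by a limit of unitary groups -/
def Sep (P : Type v) [Group P] (g : P) : Prop :=
  ∃ (J : Type v) (F : Filter J) (_ : F.NeBot) (Y : J → Type) (_ : ∀ i, Fintype (Y i))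
    (_ : ∀ i, DecidableEq (Y i)) (c : J → ℝ)
    (ψ : P →* (∀ i, unitaryGroup (Y i) ℂ) ⧸ Nl F Y c), ψ g ≠ 1

theorem hyperlinear_of_sep {P : Type v} [Group P] (H : ∀ g : P, g ≠ 1 → Sep P g) :
    IsHyperlinear P := by
  classical
  apply hyperlinear_of_criterion
  apply crit_reindex
  intro A h1A g hgA hg ε hε
  obtain ⟨J, F, hF, Y, _, _, c, ψ, hψ⟩ := H g hg
  -- representatives
  let w : P → ∀ i, unitaryGroup (Y i) ℂ := fun p => if p = 1 then 1 else (ψ p).out
  have hw1 : w 1 = 1 := if_pos rfl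
  have hw : ∀ p, ((w p : ∀ i, unitaryGroup (Y i) ℂ) :
      (∀ i, unitaryGroup (Y i) ℂ) ⧸ Nl F Y c) = ψ p := by
    intro p
    by_cases hp : p = 1
    · subst hp
      rw [hw1, map_one]; rfl
    · change (((if p = 1 then 1 else (ψ p).out : ∀ i, unitaryGroup (Y i) ℂ)) :
        (∀ i, unitaryGroup (Y i) ℂ) ⧸ Nl F Y c) = _
      rw [if_neg hp]
      exact QuotientGroup.out_eq' _
  have hmul : ∀ a b : P, Tendsto (fun i => ‖((w (a * b)) i).1 - ((w a * w b) i).1‖ / |c i|) F (𝓝 0) := by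
    intro a b
    rw [← eq_iff F Y c, hw, QuotientGroup.mk_mul, hw, hw, map_mul]
  have hne : ¬ Tendsto (fun i => ‖((w g) i).1 - 1‖ / |c i|) F (𝓝 0) := by
    intro h
    apply hψ
    rw [← hw]
    have : ((w g : ∀ i, unitaryGroup (Y i) ℂ) : (∀ i, unitaryGroup (Y i) ℂ) ⧸ Nl F Y c) =
        ((1 : ∀ i, unitaryGroup (Y i) ℂ) : (∀ i, unitaryGroup (Y i) ℂ) ⧸ Nl F Y c) :=
      (eq_iff F Y c).2 h
    rw [this]; rfl
  obtain ⟨δ, hδ, hfreq⟩ : ∃ δ : ℝ, 0 < δ ∧ ∃ᶠ i in F, δ ≤ ‖((w g) i).1 - 1‖ / |c i| := by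
    by_contra hcon
    push Not at hcon
    apply hne
    rw [Metric.tendsto_nhds]
    intro δ hδ
    filter_upwards [hcon δ hδ] with i hi
    rw [dist_zero_right, Real.norm_eq_abs, abs_of_nonneg (by positivity)]
    exact hi
  have hev : ∀ᶠ i in F, ∀ a ∈ A, ∀ b ∈ A,
      ‖((w (a * b)) i).1 - ((w a * w b) i).1‖ / |c i| < ε * δ := by
    rw [Filter.eventually_all_finset]
    intro a _
    rw [Filter.eventually_all_finset]
    intro b _
    exact (hmul a b).eventually (gt_mem_nhds (by positivity))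
  obtain ⟨i, hi1, hi2⟩ := (hfreq.and_eventually hev).exists
  have hc : 0 < |c i| := by
    rcases (abs_nonneg (c i)).lt_or_eq with h | h
    · exact h
    · rw [← h, div_zero] at hi1
      linarith
  refine ⟨Y i, inferInstance, inferInstance, fun p => w p i, 1, isHermitian_one, ?_, ?_, ?_, ?_⟩
  · change w 1 i = 1
    rw [hw1]; rfl
  · rw [Matrix.mul_one]
    have := (le_div_iff₀ hc).1 hi1
    have h2 : 0 < δ * |c i| := by positivity
    linarith
  · intro a _
    rw [Matrix.mul_one, Matrix.one_mul, sub_self, norm_zero]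
    positivity
  · intro a ha b hb _
    rw [Matrix.mul_one, Matrix.mul_one]
    have h1 := (div_lt_iff₀ hc).1 (hi2 a ha b hb)
    have h2 := (le_div_iff₀ hc).1 hi1
    change ‖((w (a * b)) i).1 - (w a i).1 * (w b i).1‖ ≤ _
    have h3 : ‖((w (a * b)) i).1 - (w a i).1 * (w b i).1‖ < ε * δ * |c i| := h1
    have h4 : ε * (δ * |c i|) ≤ ε * ‖(w g i).1 - 1‖ := mul_le_mul_of_nonneg_left h2 hε.le
    linarith

/-- A system of asymptotically multiplicative maps with asymptotically vanishing traces. -/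
structure Sys (Λ : Type u) [Group Λ] where
  J : Type u
  F : Filter J
  [ne : F.NeBot]
  X : J → Type
  [fX : ∀ i, Fintype (X i)]
  [dX : ∀ i, DecidableEq (X i)]
  c : J → ℝ
  cpos : ∀ i, 0 < c i
  cc : ∀ i, c i ^ 2 = Fintype.card (X i)
  φ : ∀ i, Λ → unitaryGroup (X i) ℂ
  one : ∀ i, φ i 1 = 1
  mul : ∀ a b, Tendsto (fun i => ‖(φ i (a * b)).1 - (φ i a).1 * (φ i b).1‖ / c i) F (𝓝 0)
  tr : ∀ a, a ≠ 1 → Tendsto (fun i => ‖trace (φ i a).1‖ / c i ^ 2) F (𝓝 0)

attribute [instance] Sys.ne Sys.fX Sys.dX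

theorem exists_sys {Λ : Type u} [Group Λ] (h : IsHyperlinear Λ) : Nonempty (Sys Λ) := by
  classical
  choose X fX dX nX φ p1 p2 p3 using
    fun i : Finset Λ × ℕ => exists_small_trace h i.1 (1 / ((i.2 : ℝ) + 1)) (by positivity)
  have hcard : ∀ i, (0 : ℝ) < Fintype.card (X i) := fun i => by
    have := nX i
    exact_mod_cast Fintype.card_pos
  have hlim : Tendsto (fun i : Finset Λ × ℕ => 1 / ((i.2 : ℝ) + 1)) atTop (𝓝 0) := by
    have h1 : Tendsto (fun i : Finset Λ × ℕ => i.2) atTop atTop := by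
      rw [← prod_atTop_atTop_eq]
      exact tendsto_snd
    exact tendsto_one_div_add_atTop_nhds_zero_nat.comp h1
  have hlim2 : Tendsto (fun i : Finset Λ × ℕ => Real.sqrt (1 / ((i.2 : ℝ) + 1))) atTop (𝓝 0) := by
    have := hlim.sqrt
    rwa [Real.sqrt_zero] at this
  refine ⟨{
    J := Finset Λ × ℕ
    F := atTop
    X := X
    c := fun i => Real.sqrt (Fintype.card (X i))
    cpos := fun i => Real.sqrt_pos.2 (hcard i)
    cc := fun i => Real.sq_sqrt (hcard i).le
    φ := φ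
    one := p1
    mul := fun a b => ?_
    tr := fun a ha => ?_ }⟩
  · refine squeeze_zero' (Eventually.of_forall fun i => by positivity) ?_ hlim2
    filter_upwards [eventually_ge_atTop (({a, b}, 0) : Finset Λ × ℕ)] with i hi
    have ha : a ∈ i.1 := hi.1 (by simp)
    have hb : b ∈ i.1 := hi.1 (by simp)
    have h2 := p2 i a ha b hb
    rw [div_le_iff₀ (Real.sqrt_pos.2 (hcard i)), norm_le_iff _ _ (by positivity), mul_pow,
      Real.sq_sqrt (by positivity), Real.sq_sqrt (hcard i).le]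
    exact h2
  · refine squeeze_zero' (Eventually.of_forall fun i => by positivity) ?_ hlim
    filter_upwards [eventually_ge_atTop (({a}, 0) : Finset Λ × ℕ)] with i hi
    have h3 := p3 i a (hi.1 (by simp)) ha
    rw [Real.sq_sqrt (hcard i).le, div_le_iff₀ (hcard i)]
    exact h3

end Pool.Agent.N44.HL
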