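import Pool.Agent.N44.HL.A

/-!
# Coefficients of limits of words in block diagonal and scalar unitary matrices
-/

set_option autoImplicit false

namespace Pool.Agent.N44.HL

open Finset Matrix Filter Topology Pool.Agent.H21R2 Pool.Agent.H80R2.HG Pool.Agent.W626
open scoped Matrix.Norms.Frobenius Kronecker

universe u v w

section blocks

variable {X I : Type} [Fintype X] [DecidableEq X] [Fintype I] [DecidableEq I]

/-- the block `(k, l)` -/
def blk (Z : Matrix (X × I) (X × I) ℂ) (k l : I) : Matrix X X ℂ :=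
  Z.submatrix (fun x => (x, k)) (fun x => (x, l))

theorem blk_mul (Z W : Matrix (X × I) (X × I) ℂ) (k l : I) :
    blk (Z * W) k l = ∑ m, blk Z k m * blk W m l := by
  ext x y
  simp only [blk, submatrix_apply, mul_apply, Matrix.sum_apply]
  rw [Fintype.sum_prod_type, sum_comm]

theorem norm_blk_le (Z : Matrix (X × I) (X × I) ℂ) (k l : I) : ‖blk Z k l‖ ≤ ‖Z‖ := by
  rw [norm_eq, norm_eq]
  apply Real.sqrt_le_sqrt
  rw [fro2, fro2, Fintype.sum_prod_type]
  refine sum_le_sum fun x _ => ?_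
  refine le_trans ?_ (single_le_sum (f := fun m => ∑ j : X × I, ‖Z (x, m) j‖ ^ 2)
    (fun m _ => sum_nonneg fun _ _ => sq_nonneg _) (mem_univ k))
  rw [Fintype.sum_prod_type]
  refine sum_le_sum fun y _ => ?_
  exact single_le_sum (f := fun m => ‖Z (x, k) (y, m)‖ ^ 2) (fun m _ => sq_nonneg _) (mem_univ l)

theorem blk_blockDiagonal (B : I → Matrix X X ℂ) (k l : I) :
    blk (blockDiagonal B) k l = if k = l then B k else 0 := by
  ext x y
  simp only [blk, submatrix_apply, blockDiagonal_apply]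
  split_ifs <;> simp

theorem blk_scal (A : Matrix I I ℂ) (k l : I) :
    blk ((1 : Matrix X X ℂ) ⊗ₖ A) k l = A k l • (1 : Matrix X X ℂ) := by
  ext x y
  simp only [blk, submatrix_apply, kroneckerMap_apply, Matrix.smul_apply, smul_eq_mul]
  ring

theorem fro2_blockDiagonal (B : I → Matrix X X ℂ) :
    fro2 (blockDiagonal B) = ∑ k, fro2 (B k) := by
  simp only [fro2, Fintype.sum_prod_type, blockDiagonal_apply]
  rw [sum_comm]
  refine sum_congr rfl fun k _ => sum_congr rfl fun x _ => ?_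
  rw [sum_congr rfl fun y _ => sum_eq_single k ?_ ?_]
  · simp
  · intro m _ hm
    simp [Ne.symm hm]
  · simp

theorem norm_blockDiagonal_le (B : I → Matrix X X ℂ) : ‖blockDiagonal B‖ ≤ ∑ k, ‖B k‖ := by
  have h0 : (0 : ℝ) ≤ ∑ k, ‖B k‖ := sum_nonneg fun _ _ => norm_nonneg _
  rw [norm_le_iff _ _ h0, fro2_blockDiagonal]
  simp_rw [← norm_sq_eq]
  exact sum_sq_le_sq_sum_of_nonneg fun i _ => norm_nonneg _

/-- block diagonal unitary -/
def dU (U : I → unitaryGroup X ℂ) : unitaryGroup (X × I) ℂ :=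
  ⟨blockDiagonal fun k => (U k).1, by
    rw [mem_unitaryGroup_iff', star_eq_conjTranspose, blockDiagonal_conjTranspose,
      ← blockDiagonal_mul]
    have : (fun k => (U k).1ᴴ * (U k).1) = 1 := by
      funext k
      exact UnitaryGroup.star_mul_self (U k)
    rw [this, blockDiagonal_one]⟩

theorem dU_mul (U V : I → unitaryGroup X ℂ) : dU (U * V) = dU U * dU V := by
  apply Subtype.ext
  change blockDiagonal (fun k => (U k).1 * (V k).1) = _
  rw [blockDiagonal_mul]
  rfl

theorem dU_one : dU (1 : I → unitaryGroup X ℂ) = 1 := by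
  apply Subtype.ext
  change blockDiagonal (1 : I → Matrix X X ℂ) = 1
  exact blockDiagonal_one

/-- scalar unitary -/
def tU : unitaryGroup I ℂ →* unitaryGroup (X × I) ℂ where
  toFun f := ⟨(1 : Matrix X X ℂ) ⊗ₖ f.1, by
    rw [mem_unitaryGroup_iff', star_eq_conjTranspose, conjTranspose_kronecker, conjTranspose_one,
      ← mul_kronecker_mul, Matrix.one_mul]
    have : f.1ᴴ * f.1 = 1 := UnitaryGroup.star_mul_self f
    rw [this, one_kronecker_one]⟩
  map_one' := by
    apply Subtype.ext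
    change (1 : Matrix X X ℂ) ⊗ₖ (1 : Matrix I I ℂ) = 1
    exact one_kronecker_one
  map_mul' f g := by
    apply Subtype.ext
    change (1 : Matrix X X ℂ) ⊗ₖ (f.1 * g.1) = ((1 : Matrix X X ℂ) ⊗ₖ f.1) * ((1 : Matrix X X ℂ) ⊗ₖ g.1)
    rw [← mul_kronecker_mul, Matrix.one_mul]

theorem tU_comm (f : unitaryGroup I ℂ) (U : I → unitaryGroup X ℂ)
    (h : ∀ k l, f.1 k l ≠ 0 → U k = U l) : tU f * dU U = dU U * tU f := by
  apply Subtype.ext
  change ((1 : Matrix X X ℂ) ⊗ₖ f.1) * blockDiagonal (fun k => (U k).1) =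
    blockDiagonal (fun k => (U k).1) * ((1 : Matrix X X ℂ) ⊗ₖ f.1)
  ext ⟨x, k⟩ ⟨y, l⟩
  rw [mul_apply, mul_apply, Fintype.sum_prod_type, Fintype.sum_prod_type]
  have e1 : ∀ z, ∑ m, ((1 : Matrix X X ℂ) ⊗ₖ f.1) (x, k) (z, m) *
      blockDiagonal (fun k => (U k).1) (z, m) (y, l) =
        if x = z then f.1 k l * (U l).1 z y else 0 := by
    intro z
    rw [sum_eq_single l]
    · simp only [kroneckerMap_apply, blockDiagonal_apply, if_true, one_apply]
      split_ifs <;> simp
    · intro m _ hm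
      simp [blockDiagonal_apply, hm]
    · simp
  have e2 : ∀ z, ∑ m, blockDiagonal (fun k => (U k).1) (x, k) (z, m) *
      ((1 : Matrix X X ℂ) ⊗ₖ f.1) (z, m) (y, l) =
        if z = y then (U k).1 x z * f.1 k l else 0 := by
    intro z
    rw [sum_eq_single k]
    · simp only [kroneckerMap_apply, blockDiagonal_apply, if_true, one_apply]
      split_ifs <;> simp
    · intro m _ hm
      simp [blockDiagonal_apply, Ne.symm hm]
    · simp
  simp_rw [e1, e2]
  rw [sum_ite_eq, sum_ite_eq']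
  simp only [mem_univ, if_true]
  by_cases hf : f.1 k l = 0
  · rw [hf, zero_mul, mul_zero]
  · rw [h k l hf, mul_comm]

theorem norm_unitary (U : unitaryGroup X ℂ) : ‖U.1‖ = Real.sqrt (Fintype.card X) :=
  norm_iso _ (UnitaryGroup.star_mul_self U)

end blocks

section sys

variable {Λ : Type u} [Group Λ] (S : Sys Λ) (I : Type) [Fintype I] [DecidableEq I]

/-- the limit of the unitary groups -/
abbrev Q : Type u :=
  (∀ i, unitaryGroup (S.X i × I) ℂ) ⧸ Nl S.F (fun i => S.X i × I) S.c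

variable {I}

theorem Qeq {U V : ∀ i, unitaryGroup (S.X i × I) ℂ} :
    (U : Q S I) = V ↔ Tendsto (fun i => ‖(U i).1 - (V i).1‖ / S.c i) S.F (𝓝 0) := by
  rw [eq_iff S.F (fun i => S.X i × I) S.c]
  have : ∀ i, |S.c i| = S.c i := fun i => abs_of_pos (S.cpos i)
  simp_rw [this]

/-- the sequence of block diagonal matrices -/
def dS (l : I → Λ) : ∀ i, unitaryGroup (S.X i × I) ℂ := fun i => dU fun k => S.φ i (l k)

theorem dS_mul (l m : I → Λ) : ((dS S (l * m) : ∀ i, unitaryGroup (S.X i × I) ℂ) : Q S I) =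
    (dS S l : Q S I) * (dS S m : Q S I) := by
  rw [← QuotientGroup.mk_mul, Qeq]
  have h : Tendsto (fun i => ∑ k, ‖(S.φ i (l k * m k)).1 - (S.φ i (l k)).1 * (S.φ i (m k)).1‖ /
      S.c i) S.F (𝓝 0) := by
    have := tendsto_finsetSum (univ : Finset I) fun k _ => S.mul (l k) (m k)
    simpa using this
  refine squeeze_zero (fun i => div_nonneg (norm_nonneg _) (S.cpos i).le) (fun i => ?_) h
  rw [← sum_div]
  apply div_le_div_of_nonneg_right _ (S.cpos i).le
  have e : (dS S (l * m) i).1 - ((dS S l * dS S m) i).1 =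
      blockDiagonal fun k => (S.φ i (l k * m k)).1 - (S.φ i (l k)).1 * (S.φ i (m k)).1 := by
    change blockDiagonal (fun k => (S.φ i (l k * m k)).1) -
      blockDiagonal (fun k => (S.φ i (l k)).1) * blockDiagonal (fun k => (S.φ i (m k)).1) = _
    rw [← blockDiagonal_mul, ← blockDiagonal_sub]
    rfl
  rw [e]
  exact norm_blockDiagonal_le _

/-- block diagonal representation -/
def fD {P : Type v} [Group P] (γ : I → P →* Λ) : P →* Q S I :=
  MonoidHom.mk' (fun p => (dS S (fun k => γ k p) : Q S I)) (fun p q => by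
    have : (fun k => γ k (p * q)) = (fun k => γ k p) * (fun k => γ k q) := by
      funext k
      simp
    rw [this, dS_mul])

/-- scalar representation -/
def fT : unitaryGroup I ℂ →* Q S I :=
  (QuotientGroup.mk' _).comp (MonoidHom.pi fun _ => tU)

theorem fT_comm {P : Type v} [Group P] (γ : I → P →* Λ) (f : unitaryGroup I ℂ) (p : P)
    (h : ∀ k l, f.1 k l ≠ 0 → γ k p = γ l p) : fT S f * fD S γ p = fD S γ p * fT S f := by
  change ((fun i => tU f : ∀ i, unitaryGroup (S.X i × I) ℂ) : Q S I) *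
      ((dS S (fun k => γ k p) : ∀ i, unitaryGroup (S.X i × I) ℂ) : Q S I) =
    ((dS S (fun k => γ k p) : ∀ i, unitaryGroup (S.X i × I) ℂ) : Q S I) *
      ((fun i => tU f : ∀ i, unitaryGroup (S.X i × I) ℂ) : Q S I)
  rw [← QuotientGroup.mk_mul, ← QuotientGroup.mk_mul]
  congr 1
  funext i
  exact tU_comm f (fun k => S.φ i (γ k p)) fun k l hkl => by rw [h k l hkl]

/-- asymptotic coefficients -/
def HasCoef (z : ∀ i, Matrix (S.X i × I) (S.X i × I) ℂ) (C : Λ → Matrix I I ℂ) : Prop :=
  (∃ K : ℝ, ∀ i, ‖z i‖ ≤ K * S.c i) ∧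
    ∀ h k l, Tendsto (fun i => trace ((S.φ i h).1ᴴ * blk (z i) k l) / ((S.c i ^ 2 : ℝ) : ℂ)) S.F
      (𝓝 (C h k l))

theorem HasCoef.mulT {z : ∀ i, Matrix (S.X i × I) (S.X i × I) ℂ} {C : Λ → Matrix I I ℂ}
    (H : HasCoef S z C) (f : unitaryGroup I ℂ) :
    HasCoef S (fun i => (tU f : unitaryGroup (S.X i × I) ℂ).1 * z i) (fun h => f.1 * C h) := by
  obtain ⟨⟨K, hK⟩, H2⟩ := H
  refine ⟨⟨K, fun i => ?_⟩, fun h k l => ?_⟩
  · rw [norm_unitary_mul]; exact hK i
  · have e : ∀ i, trace ((S.φ i h).1ᴴ * blk ((tU f : unitaryGroup (S.X i × I) ℂ).1 * z i) k l) /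
        ((S.c i ^ 2 : ℝ) : ℂ) =
        ∑ m, f.1 k m * (trace ((S.φ i h).1ᴴ * blk (z i) m l) / ((S.c i ^ 2 : ℝ) : ℂ)) := by
      intro i
      have e1 : ∀ m, blk (tU f : unitaryGroup (S.X i × I) ℂ).1 k m = f.1 k m • 1 :=
        fun m => blk_scal f.1 k m
      rw [blk_mul]
      simp_rw [e1]
      rw [Matrix.mul_sum, trace_sum, sum_div]
      refine sum_congr rfl fun m _ => ?_
      rw [smul_mul_assoc, Matrix.one_mul, mul_smul_comm, trace_smul, smul_eq_mul]
      ring
    simp_rw [e]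
    rw [mul_apply]
    exact tendsto_finsetSum _ fun m _ => (H2 h m l).const_mul _

theorem HasCoef.mulD {z : ∀ i, Matrix (S.X i × I) (S.X i × I) ℂ} {C : Λ → Matrix I I ℂ}
    (H : HasCoef S z C) (g : I → Λ) :
    HasCoef S (fun i => (dS S g i).1 * z i) (fun h k l => C ((g k)⁻¹ * h) k l) := by
  obtain ⟨⟨K, hK⟩, H2⟩ := H
  refine ⟨⟨K, fun i => ?_⟩, fun h k l => ?_⟩
  · rw [norm_unitary_mul]; exact hK i
  · have hb : ∀ i, blk ((dS S g i).1 * z i) k l = (S.φ i (g k)).1 * blk (z i) k l := by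
      intro i
      rw [blk_mul]
      have : ∀ m, blk (dS S g i).1 k m = if k = m then (S.φ i (g k)).1 else 0 :=
        fun m => blk_blockDiagonal (fun k => (S.φ i (g k)).1) k m
      simp_rw [this]
      simp
    have key := H2 ((g k)⁻¹ * h) k l
    have hd : Tendsto (fun i => trace ((S.φ i h).1ᴴ * blk ((dS S g i).1 * z i) k l) /
        ((S.c i ^ 2 : ℝ) : ℂ) - trace ((S.φ i ((g k)⁻¹ * h)).1ᴴ * blk (z i) k l) /
          ((S.c i ^ 2 : ℝ) : ℂ)) S.F (𝓝 0) := by
      have h1 := (S.mul (g k) ((g k)⁻¹ * h)).mul_const K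
      rw [zero_mul] at h1
      refine squeeze_zero_norm (fun i => ?_) h1
      have hc := S.cpos i
      rw [hb, ← sub_div, ← trace_sub, ← Matrix.mul_assoc, ← Matrix.sub_mul, norm_div]
      have n1 : ‖((S.c i ^ 2 : ℝ) : ℂ)‖ = S.c i ^ 2 := by
        rw [Complex.norm_real, Real.norm_eq_abs, abs_of_pos (by positivity)]
      rw [n1]
      have n2 : ‖(S.φ i h).1ᴴ * (S.φ i (g k)).1 - (S.φ i ((g k)⁻¹ * h)).1ᴴ‖ =
          ‖(S.φ i (g k * ((g k)⁻¹ * h))).1 - (S.φ i (g k)).1 * (S.φ i ((g k)⁻¹ * h)).1‖ := by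
        rw [mul_inv_cancel_left, ← norm_conj, conjTranspose_sub, conjTranspose_mul,
          conjTranspose_conjTranspose, conjTranspose_conjTranspose]
        rw [← norm_unitary_mul (S.φ i (g k)), Matrix.mul_sub, ← Matrix.mul_assoc]
        have : (S.φ i (g k)).1 * (S.φ i (g k)).1ᴴ = 1 := mem_unitaryGroup_iff.1 (S.φ i (g k)).2
        rw [this, Matrix.one_mul]
      have n3 := norm_trace_mul_le ((S.φ i h).1ᴴ * (S.φ i (g k)).1 - (S.φ i ((g k)⁻¹ * h)).1ᴴ)
        (blk (z i) k l)
      rw [n2] at n3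
      have n4 := (norm_blk_le (z i) k l).trans (hK i)
      set e := ‖(S.φ i (g k * ((g k)⁻¹ * h))).1 - (S.φ i (g k)).1 * (S.φ i ((g k)⁻¹ * h)).1‖
      have he : 0 ≤ e := norm_nonneg _
      rw [div_le_iff₀ (by positivity)]
      calc _ ≤ e * ‖blk (z i) k l‖ := n3
        _ ≤ e * (K * S.c i) := mul_le_mul_of_nonneg_left n4 he
        _ = e / S.c i * K * S.c i ^ 2 := by field_simp
    have := hd.add key
    simpa using this

open Classical in
theorem hasCoef_one : HasCoef S (fun i => (1 : Matrix (S.X i × I) (S.X i × I) ℂ))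
    (fun h => if h = 1 then 1 else 0) := by
  refine ⟨⟨Real.sqrt (Fintype.card I), fun i => ?_⟩, fun h k l => ?_⟩
  · have := norm_unitary (1 : unitaryGroup (S.X i × I) ℂ)
    change ‖(1 : Matrix (S.X i × I) (S.X i × I) ℂ)‖ = _ at this
    rw [this, Fintype.card_prod, Nat.cast_mul, ← S.cc, Real.sqrt_mul (by have := S.cpos i; positivity),
      Real.sqrt_sq (S.cpos i).le, mul_comm]
  · have e1 : ∀ i, blk (1 : Matrix (S.X i × I) (S.X i × I) ℂ) k l =
        if k = l then 1 else 0 := by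
      intro i
      rw [← blockDiagonal_one, blk_blockDiagonal]
      rfl
    simp_rw [e1]
    by_cases hkl : k = l
    · subst hkl
      simp only [if_true, Matrix.mul_one]
      by_cases hh : h = 1
      · subst hh
        simp only [if_true, one_apply_eq]
        have e2 : ∀ i, trace (S.φ i 1).1ᴴ / ((S.c i ^ 2 : ℝ) : ℂ) = 1 := by
          intro i
          rw [S.one]
          change trace (1 : Matrix (S.X i) (S.X i) ℂ)ᴴ / _ = 1
          rw [conjTranspose_one, trace_one, S.cc]
          have := S.cpos i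
          have h2 : (0 : ℝ) < Fintype.card (S.X i) := by rw [← S.cc]; positivity
          rw [Complex.ofReal_natCast]
          exact div_self (by exact_mod_cast h2.ne')
        simp_rw [e2]
        exact tendsto_const_nhds
      · simp only [if_neg hh, Matrix.zero_apply]
        apply squeeze_zero_norm (fun i => ?_) (S.tr h hh)
        rw [trace_conjTranspose, norm_div, norm_star, Complex.norm_real, Real.norm_eq_abs,
          abs_of_pos (by have := S.cpos i; positivity)]
    · simp only [if_neg hkl, Matrix.mul_zero, trace_zero, zero_div]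
      by_cases hh : h = 1
      · simp only [if_pos hh, one_apply_ne hkl]
        exact tendsto_const_nhds
      · simp only [if_neg hh, Matrix.zero_apply]
        exact tendsto_const_nhds

theorem HasCoef.unique {z z' : ∀ i, Matrix (S.X i × I) (S.X i × I) ℂ} {C C' : Λ → Matrix I I ℂ}
    (H : HasCoef S z C) (H' : HasCoef S z' C')
    (h : Tendsto (fun i => ‖z i - z' i‖ / S.c i) S.F (𝓝 0)) : C = C' := by
  funext g
  ext k l
  refine tendsto_nhds_unique (H.2 g k l) ?_
  have hd : Tendsto (fun i => trace ((S.φ i g).1ᴴ * blk (z i) k l) / ((S.c i ^ 2 : ℝ) : ℂ) -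
      trace ((S.φ i g).1ᴴ * blk (z' i) k l) / ((S.c i ^ 2 : ℝ) : ℂ)) S.F (𝓝 0) := by
    refine squeeze_zero_norm (fun i => ?_) h
    have hc := S.cpos i
    have e : blk (z i) k l - blk (z' i) k l = blk (z i - z' i) k l := rfl
    rw [← sub_div, ← trace_sub, ← Matrix.mul_sub, e, norm_div, Complex.norm_real, Real.norm_eq_abs,
      abs_of_pos (by positivity)]
    have n3 := norm_trace_mul_le (S.φ i g).1ᴴ (blk (z i - z' i) k l)
    have n4 : ‖(S.φ i g).1ᴴ‖ = S.c i := by
      rw [norm_conj, norm_unitary, ← S.cc, Real.sqrt_sq hc.le]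
    rw [n4] at n3
    rw [div_le_iff₀ (by positivity)]
    calc _ ≤ S.c i * ‖blk (z i - z' i) k l‖ := n3
      _ ≤ S.c i * ‖z i - z' i‖ := mul_le_mul_of_nonneg_left (norm_blk_le _ _ _) hc.le
      _ = ‖z i - z' i‖ / S.c i * S.c i ^ 2 := by field_simp
  have := (H'.2 g k l).add hd
  simpa using this

end sys

section words

variable {Λ : Type u} [Group Λ] (S : Sys Λ) {I : Type} [Fintype I] [DecidableEq I]
  {P : Type v} [Group P] (γ : I → P →* Λ) {Θ : Type w}

/-- words in the limit group -/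
def Zq (f : Θ → unitaryGroup I ℂ) : Θ → List (P × Θ) → Q S I
  | μ, [] => fT S (f μ)
  | μ, (x, ν) :: L => fT S (f μ) * (fD S γ x * Zq f ν L)

/-- words: sequences -/
def Zs (f : Θ → unitaryGroup I ℂ) : Θ → List (P × Θ) → ∀ i, unitaryGroup (S.X i × I) ℂ
  | μ, [] => fun _ => tU (f μ)
  | μ, (x, ν) :: L => fun i => tU (f μ) * (dS S (fun k => γ k x) i * Zs f ν L i)

open Classical in
/-- coefficients of words -/
noncomputable def Cf (f : Θ → Matrix I I ℂ) : Θ → List (P × Θ) → Λ → Matrix I I ℂ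
  | μ, [] => fun h => if h = 1 then f μ else 0
  | μ, (x, ν) :: L => fun h => f μ * Matrix.of fun k l => Cf f ν L ((γ k x)⁻¹ * h) k l

theorem Zq_eq (f : Θ → unitaryGroup I ℂ) (μ : Θ) (L : List (P × Θ)) :
    Zq S γ f μ L = (Zs S γ f μ L : Q S I) := by
  induction L generalizing μ with
  | nil => rfl
  | cons a L ih =>
    obtain ⟨x, ν⟩ := a
    rw [Zq, ih]
    rfl

open Classical in
theorem Zs_coef (f : Θ → unitaryGroup I ℂ) (μ : Θ) (L : List (P × Θ)) :
    HasCoef S (fun i => (Zs S γ f μ L i).1) (Cf γ (fun t => (f t).1) μ L) := by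
  induction L generalizing μ with
  | nil =>
    have h1 := (hasCoef_one S (I := I)).mulT S (f μ)
    have e : Cf γ (fun t => (f t).1) μ [] = fun h => (f μ).1 * (if h = 1 then 1 else 0) := by
      funext h
      rw [Cf]
      by_cases hh : h = 1
      · simp only [if_pos hh, Matrix.mul_one]
      · simp only [if_neg hh, Matrix.mul_zero]
    rw [e]
    have e2 : (fun i => (Zs S γ f μ [] i).1) = fun i =>
        (tU (f μ) : unitaryGroup (S.X i × I) ℂ).1 * 1 := by
      funext i
      rw [Matrix.mul_one]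
      rfl
    rw [e2]
    exact h1
  | cons a L ih =>
    obtain ⟨x, ν⟩ := a
    exact ((ih ν).mulD S (fun k => γ k x)).mulT S (f μ)

open Classical in
/-- a word which is equal to a block diagonal element in the limit has vanishing off-diagonal
coefficients -/
theorem Cf_eq_zero (f : Θ → unitaryGroup I ℂ) (μ : Θ) (L : List (P × Θ)) (y : P)
    (h : Zq S γ f μ L = fD S γ y) (g : Λ) (k l : I) (hkl : k ≠ l) :
    Cf γ (fun t => (f t).1) μ L g k l = 0 := by
  rw [Zq_eq] at h
  have h2 : (Zs S γ f μ L : Q S I) = ((dS S fun k => γ k y : ∀ i, unitaryGroup (S.X i × I) ℂ) :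
    Q S I) := h
  rw [Qeq] at h2
  have h3 := (hasCoef_one S (I := I)).mulD S (fun k => γ k y)
  have h4 := (Zs_coef S γ f μ L).unique S h3 (by simpa using h2)
  rw [h4]
  simp only
  split_ifs with hh
  · exact one_apply_ne hkl
  · rfl

end words

/-! ### elementary consequences -/

theorem sep_of_hyperlinear {K : Type u} [Group K] (hK : IsHyperlinear K) (g : K) (hg : g ≠ 1) :
    Sep K g := by
  classical
  obtain ⟨S⟩ := exists_sys hK
  refine ⟨S.J, S.F, S.ne, fun i => S.X i × Unit, inferInstance, inferInstance, S.c,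
    fD S (fun _ : Unit => MonoidHom.id K), fun h => hg ?_⟩
  have h1 : (dS S (fun _ : Unit => g) : Q S Unit) =
      ((fun i => (1 : unitaryGroup (S.X i × Unit) ℂ) : ∀ i, unitaryGroup (S.X i × Unit) ℂ) :
        Q S Unit) := h
  rw [Qeq] at h1
  have h2 := (hasCoef_one S (I := Unit)).mulD S (fun _ => g)
  have h3 := hasCoef_one S (I := Unit)
  have h4 := h2.unique S h3 (by simpa using h1)
  have h5 := congrFun (congrFun (congrFun h4 1) ()) ()
  by_contra hne
  simp [hne] at h5

theorem Sep.comap {P K : Type u} [Group P] [Group K] (f : P →* K) {g : P} (h : Sep K (f g)) :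
    Sep P g := by
  obtain ⟨J, F, hF, Y, fY, dY, c, ψ, hψ⟩ := h
  exact ⟨J, F, hF, Y, fY, dY, c, ψ.comp f, hψ⟩

/-- a group whose elements are separated by homomorphisms to hyperlinear groups is hyperlinear -/
theorem hyperlinear_of_res {P : Type u} [Group P]
    (H : ∀ g : P, g ≠ 1 → ∃ (K : Type u) (_ : Group K), IsHyperlinear K ∧ ∃ f : P →* K, f g ≠ 1) :
    IsHyperlinear P := by
  apply hyperlinear_of_sep
  intro g hg
  obtain ⟨K, _, hK, f, hf⟩ := H g hg
  exact (sep_of_hyperlinear hK (f g) hf).comap f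

theorem hyperlinear_of_injective {P K : Type u} [Group P] [Group K] (hK : IsHyperlinear K)
    (f : P →* K) (hf : Function.Injective f) : IsHyperlinear P :=
  hyperlinear_of_res fun g hg => ⟨K, inferInstance, hK, f, fun h => hg (hf (by rw [h, map_one]))⟩

theorem hyperlinear_pi {ι : Type u} {K : ι → Type u} [∀ i, Group (K i)]
    (hK : ∀ i, IsHyperlinear (K i)) : IsHyperlinear (∀ i, K i) := by
  apply hyperlinear_of_res
  intro g hg
  obtain ⟨i, hi⟩ := Function.ne_iff.1 hg
  exact ⟨K i, inferInstance, hK i, Pi.evalMonoidHom K i, hi⟩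

theorem hyperlinear_prod {K L : Type u} [Group K] [Group L]
    (hK : IsHyperlinear K) (hL : IsHyperlinear L) : IsHyperlinear (K × L) := by
  apply hyperlinear_of_res
  intro g hg
  by_cases h : g.1 = 1
  · exact ⟨L, inferInstance, hL, MonoidHom.snd K L, fun h2 => hg (Prod.ext h h2)⟩
  · exact ⟨K, inferInstance, hK, MonoidHom.fst K L, h⟩

end Pool.Agent.N44.HL
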