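import Pool.Agent.N44.HL.B

/-!
# The rotations and the non-vanishing coefficient
-/

set_option autoImplicit false

namespace Pool.Agent.N44.HL

open Finset Matrix Filter Topology

universe u v w

/-- indices: levels `0, …, R`, twice -/
abbrev Ix (R : ℕ) : Type := Fin (R + 1) × Bool

section typed

variable {O : Type w} (τ : ℕ → O) (R : ℕ)

/-- a level at which two consecutive edges have the same type -/
def pl (l : ℕ) : Prop := 1 ≤ l ∧ τ (l - 1) = τ l

open Classical in
/-- outgoing weight -/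
noncomputable def vv (l : ℕ) (e : Bool) : ℝ := if pl τ l then 1 else if e then 0 else Real.sqrt 2

open Classical in
/-- incoming weight -/
noncomputable def ww (l : ℕ) (e : Bool) : ℝ :=
  if pl τ l then (if e then 1 else -1) else if e then 0 else Real.sqrt 2

theorem vv_sq (l : ℕ) : ∑ e : Bool, vv τ l e * vv τ l e = 2 := by
  rw [Fintype.sum_bool]
  by_cases h : pl τ l
  · simp only [vv, if_pos h]
    norm_num
  · simp [vv, h]

theorem ww_sq (l : ℕ) : ∑ e : Bool, ww τ l e * ww τ l e = 2 := by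
  rw [Fintype.sum_bool]
  by_cases h : pl τ l
  · simp only [ww, if_pos h]
    norm_num
  · simp [ww, h]

theorem wv (l : ℕ) (h : pl τ l) : ∑ e : Bool, ww τ l e * vv τ l e = 0 := by
  rw [Fintype.sum_bool]
  simp [ww, vv, h]

open Classical in
/-- the raising matrix -/
noncomputable def Mr (o : O) : Matrix (Ix R) (Ix R) ℂ := fun k l =>
  if l.1.val = k.1.val + 1 ∧ τ k.1 = o then ((vv τ k.1 k.2 * ww τ l.1 l.2 : ℝ) : ℂ) else 0

theorem Mr_sq (o : O) : Mr τ R o * Mr τ R o = 0 := by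
  ext k l
  rw [mul_apply, Fintype.sum_prod_type]
  apply sum_eq_zero
  intro j _
  by_cases h1 : j.val = k.1.val + 1 ∧ τ k.1 = o
  · by_cases h2 : l.1.val = j.val + 1 ∧ τ j = o
    · have hpl : pl τ j := ⟨by omega, by
        have : j.val - 1 = k.1.val := by omega
        rw [this, h1.2, h2.2]⟩
      have e : ∀ e : Bool, Mr τ R o k (j, e) * Mr τ R o (j, e) l =
          (((vv τ k.1 k.2 * ww τ l.1 l.2) * (ww τ j e * vv τ j e) : ℝ) : ℂ) := by
        intro e
        simp only [Mr, if_pos h1, if_pos h2]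
        push_cast
        ring
      simp_rw [e]
      rw [← Complex.ofReal_sum, ← mul_sum, wv τ j hpl, mul_zero]
      rfl
    · apply sum_eq_zero
      intro e _
      simp only [Mr, if_neg h2, mul_zero]
  · apply sum_eq_zero
    intro e _
    simp only [Mr, if_neg h1, zero_mul]

open Classical in
theorem Mr_tri (o : O) : Mr τ R o * (Mr τ R o)ᵀ * Mr τ R o = (4 : ℂ) • Mr τ R o := by
  have h1 : ∀ k l : Ix R, (Mr τ R o * (Mr τ R o)ᵀ) k l =
      if l.1 = k.1 ∧ k.1.val + 1 ≤ R ∧ τ k.1 = o then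
        ((2 * (vv τ k.1 k.2 * vv τ l.1 l.2) : ℝ) : ℂ) else 0 := by
    intro k l
    rw [mul_apply, Fintype.sum_prod_type]
    by_cases hc : l.1 = k.1 ∧ k.1.val + 1 ≤ R ∧ τ k.1 = o
    · obtain ⟨hl, hk, ho⟩ := hc
      rw [if_pos ⟨hl, hk, ho⟩, sum_eq_single (⟨k.1.val + 1, by omega⟩ : Fin (R + 1))]
      · have e : ∀ e : Bool, Mr τ R o k (⟨k.1.val + 1, by omega⟩, e) *
            (Mr τ R o)ᵀ (⟨k.1.val + 1, by omega⟩, e) l =
            (((vv τ k.1 k.2 * vv τ l.1 l.2) * (ww τ (k.1.val + 1) e * ww τ (k.1.val + 1) e) : ℝ) : ℂ) := by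
          intro e
          have c1 : k.1.val + 1 = l.1.val + 1 ∧ τ l.1 = o := ⟨by rw [hl], by rw [hl]; exact ho⟩
          have c2 : k.1.val + 1 = k.1.val + 1 ∧ τ k.1 = o := ⟨rfl, ho⟩
          rw [transpose_apply, Mr, Mr, if_pos c2, if_pos c1]
          push_cast
          ring
        simp_rw [e]
        rw [← Complex.ofReal_sum, ← mul_sum, ww_sq]
        push_cast
        ring
      · intro j _ hj
        have h3 : ¬ (j.val = k.1.val + 1 ∧ τ k.1 = o) := fun h => hj (Fin.ext h.1)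
        apply sum_eq_zero
        intro e _
        simp only [Mr, if_neg h3, zero_mul]
      · simp
    · rw [if_neg hc]
      apply sum_eq_zero
      intro j _
      apply sum_eq_zero
      intro e _
      simp only [Mr, transpose_apply]
      by_cases c1 : j.val = k.1.val + 1 ∧ τ k.1 = o
      · by_cases c2 : j.val = l.1.val + 1 ∧ τ l.1 = o
        · exfalso
          apply hc
          refine ⟨Fin.ext (by omega), ?_, c1.2⟩
          have := j.2
          omega
        · rw [if_neg c2, mul_zero]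
      · rw [if_neg c1, zero_mul]
  ext k l
  rw [mul_apply]
  simp_rw [h1]
  rw [Fintype.sum_prod_type, sum_eq_single k.1]
  · simp only [Matrix.smul_apply, smul_eq_mul, Mr, true_and]
    by_cases hl : l.1.val = k.1.val + 1 ∧ τ k.1 = o
    · have h3 : k.1.val + 1 ≤ R := by have := l.1.2; omega
      simp only [if_pos hl, if_pos (And.intro h3 hl.2)]
      have e : ∀ e : Bool, ((2 * (vv τ k.1 k.2 * vv τ k.1 e) : ℝ) : ℂ) *
          ((vv τ k.1 e * ww τ l.1 l.2 : ℝ) : ℂ) =
          (((2 * vv τ k.1 k.2 * ww τ l.1 l.2) * (vv τ k.1 e * vv τ k.1 e) : ℝ) : ℂ) := by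
        intro e
        push_cast
        ring
      simp_rw [e]
      rw [← Complex.ofReal_sum, ← mul_sum, vv_sq]
      push_cast
      ring
    · simp only [if_neg hl, mul_zero, sum_const_zero]
  · intro j _ hj
    apply sum_eq_zero
    intro e _
    rw [if_neg (fun h : _ ∧ _ => hj h.1), zero_mul]
  · simp

/-- the generator of the rotations -/
noncomputable def Yr (o : O) : Matrix (Ix R) (Ix R) ℂ := Mr τ R o - (Mr τ R o)ᵀ

theorem MrT_tri (o : O) :
    (Mr τ R o)ᵀ * Mr τ R o * (Mr τ R o)ᵀ = (4 : ℂ) • (Mr τ R o)ᵀ := by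
  have := congrArg transpose (Mr_tri τ R o)
  rw [transpose_mul, transpose_mul, transpose_transpose, transpose_smul, ← Matrix.mul_assoc] at this
  exact this

theorem MrT_sq (o : O) : (Mr τ R o)ᵀ * (Mr τ R o)ᵀ = 0 := by
  have := congrArg transpose (Mr_sq τ R o)
  rwa [transpose_mul, transpose_zero] at this

theorem Yr_sq (o : O) :
    Yr τ R o * Yr τ R o = -(Mr τ R o * (Mr τ R o)ᵀ + (Mr τ R o)ᵀ * Mr τ R o) := by
  rw [Yr, Matrix.sub_mul, Matrix.mul_sub, Matrix.mul_sub, Mr_sq, MrT_sq]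
  abel

theorem Yr_cube (o : O) : Yr τ R o * Yr τ R o * Yr τ R o = (-4 : ℂ) • Yr τ R o := by
  rw [Yr_sq, Yr, Matrix.neg_mul, Matrix.add_mul, Matrix.mul_sub, Matrix.mul_sub, Mr_tri]
  have h1 : Mr τ R o * (Mr τ R o)ᵀ * (Mr τ R o)ᵀ = 0 := by
    rw [Matrix.mul_assoc, MrT_sq, Matrix.mul_zero]
  have h2 : (Mr τ R o)ᵀ * Mr τ R o * Mr τ R o = 0 := by
    rw [Matrix.mul_assoc, Mr_sq, Matrix.mul_zero]
  rw [h1, h2, MrT_tri, smul_sub, neg_smul, neg_smul]
  abel

theorem Mr_conj (o : O) (k l : Ix R) : star (Mr τ R o k l) = Mr τ R o k l := by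
  simp only [Mr]
  split_ifs
  · exact Complex.conj_ofReal _
  · exact star_zero _

theorem Yr_star (o : O) : star (Yr τ R o) = -Yr τ R o := by
  ext k l
  rw [star_apply, Yr, Matrix.sub_apply, transpose_apply, star_sub, Mr_conj, Mr_conj,
    Matrix.neg_apply, Matrix.sub_apply, transpose_apply, neg_sub]

/-- the rotation -/
noncomputable def rot (o : O) (t : ℝ) : Matrix (Ix R) (Ix R) ℂ :=
  1 + ((Real.sin (2 * t) / 2 : ℝ) : ℂ) • Yr τ R o +
    (((1 - Real.cos (2 * t)) / 4 : ℝ) : ℂ) • (Yr τ R o * Yr τ R o)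

theorem rot_mul (o : O) (s t : ℝ) : rot τ R o s * rot τ R o t = rot τ R o (s + t) := by
  have key : ∀ a b a' b' : ℂ, (1 + a • Yr τ R o + b • (Yr τ R o * Yr τ R o)) *
      (1 + a' • Yr τ R o + b' • (Yr τ R o * Yr τ R o)) =
      1 + (a + a' - 4 * (a * b' + a' * b)) • Yr τ R o +
        (b + b' + a * a' - 4 * b * b') • (Yr τ R o * Yr τ R o) := by
    intro a b a' b'
    have h3 := Yr_cube τ R o
    have h3' : Yr τ R o * (Yr τ R o * Yr τ R o) = (-4 : ℂ) • Yr τ R o := by
      rw [← Matrix.mul_assoc, h3]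
    have h4 : Yr τ R o * Yr τ R o * (Yr τ R o * Yr τ R o) =
        (-4 : ℂ) • (Yr τ R o * Yr τ R o) := by
      rw [← Matrix.mul_assoc, h3, smul_mul_assoc]
    simp only [Matrix.add_mul, Matrix.mul_add, Matrix.one_mul, Matrix.mul_one, smul_mul_assoc,
      mul_smul_comm, h3, h3', h4, smul_smul]
    module
  rw [rot, rot, key, rot]
  have hs : Real.sin (2 * (s + t)) = Real.sin (2 * s) * Real.cos (2 * t) +
      Real.cos (2 * s) * Real.sin (2 * t) := by rw [mul_add, Real.sin_add]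
  have hc : Real.cos (2 * (s + t)) = Real.cos (2 * s) * Real.cos (2 * t) -
      Real.sin (2 * s) * Real.sin (2 * t) := by rw [mul_add, Real.cos_add]
  rw [hs, hc]
  congr 2
  · congr 2
    push_cast
    ring
  · push_cast
    ring

theorem rot_zero (o : O) : rot τ R o 0 = 1 := by
  simp [rot]

theorem rot_star (o : O) (t : ℝ) : star (rot τ R o t) = rot τ R o (-t) := by
  rw [rot, rot, star_add, star_add, star_one, star_smul, star_smul, star_mul, Yr_star]
  simp only [Complex.star_def, Complex.conj_ofReal, mul_neg, neg_mul, neg_neg, Real.sin_neg,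
    Real.cos_neg, smul_neg]
  rw [neg_div, Complex.ofReal_neg, neg_smul]

/-- the rotation as a unitary -/
noncomputable def rotU (o : O) (t : ℝ) : unitaryGroup (Ix R) ℂ :=
  ⟨rot τ R o t, by
    rw [mem_unitaryGroup_iff', rot_star, rot_mul, neg_add_cancel, rot_zero]⟩

theorem rotU_add (o : O) (s t : ℝ) : rotU τ R o (s + t) = rotU τ R o s * rotU τ R o t :=
  Subtype.ext (rot_mul τ R o s t).symm

theorem rotU_zero (o : O) : rotU τ R o 0 = 1 := Subtype.ext (rot_zero τ R o)

theorem rotU_neg (o : O) (t : ℝ) : rotU τ R o (-t) = (rotU τ R o t)⁻¹ := by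
  rw [eq_inv_iff_mul_eq_one, ← rotU_add, neg_add_cancel, rotU_zero]

/-- indices on which the rotations of type `o` act -/
def act (o : O) (k : Ix R) : Prop := k.2 = true → pl τ k.1 ∧ τ k.1 = o

theorem Mr_act (o : O) (k l : Ix R) (h : Mr τ R o k l ≠ 0) : act τ R o k ∧ act τ R o l := by
  simp only [Mr] at h
  by_cases hc : l.1.val = k.1.val + 1 ∧ τ k.1 = o
  · rw [if_pos hc] at h
    have h1 : vv τ k.1 k.2 ≠ 0 := fun h' => h (by rw [h']; simp)
    have h2 : ww τ l.1 l.2 ≠ 0 := fun h' => h (by rw [h']; simp)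
    refine ⟨fun hk => ⟨?_, hc.2⟩, fun hl => ?_⟩
    · by_contra hpl
      apply h1
      simp [vv, hpl, hk]
    · have hpl : pl τ l.1 := by
        by_contra hpl
        apply h2
        simp [ww, hpl, hl]
      refine ⟨hpl, ?_⟩
      rw [← hpl.2]
      have : l.1.val - 1 = k.1.val := by omega
      rw [this]
      exact hc.2
  · rw [if_neg hc] at h
    exact absurd rfl h

theorem Yr_act (o : O) (k l : Ix R) (h : Yr τ R o k l ≠ 0) : act τ R o k ∧ act τ R o l := by
  rw [Yr, Matrix.sub_apply, transpose_apply] at h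
  by_cases h1 : Mr τ R o k l = 0
  · rw [h1, zero_sub] at h
    exact (Mr_act τ R o l k (neg_ne_zero.1 h)).symm
  · exact Mr_act τ R o k l h1

theorem rot_act (o : O) (t : ℝ) (k l : Ix R) (h : rot τ R o t k l ≠ 0) :
    k = l ∨ (act τ R o k ∧ act τ R o l) := by
  by_cases hkl : k = l
  · exact Or.inl hkl
  right
  by_cases h1 : Yr τ R o k l = 0
  · by_cases h2 : (Yr τ R o * Yr τ R o) k l = 0
    · exfalso
      apply h
      rw [rot, Matrix.add_apply, Matrix.add_apply, Matrix.smul_apply, Matrix.smul_apply, h1, h2,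
        one_apply_ne hkl]
      simp
    · rw [mul_apply] at h2
      obtain ⟨m, -, hm⟩ := exists_ne_zero_of_sum_ne_zero h2
      exact ⟨(Yr_act τ R o k m (left_ne_zero_of_mul hm)).1,
        (Yr_act τ R o m l (right_ne_zero_of_mul hm)).2⟩
  · exact Yr_act τ R o k l h1

end typed

/-! ### scaling -/

/-- conjugation by a diagonal matrix -/
noncomputable def sc {I : Type} (d : I → ℂ) (A : Matrix I I ℂ) : Matrix I I ℂ :=
  Matrix.of fun k l => d k * A k l * (d l)⁻¹

section sc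

variable {I : Type} [Fintype I] [DecidableEq I] {Λ : Type u} [Group Λ] {P : Type v} [Group P]
  (γ : I → P →* Λ) {Θ : Type w}

theorem sc_mul (d : I → ℂ) (hd : ∀ k, d k ≠ 0) (A B : Matrix I I ℂ) :
    sc d (A * B) = sc d A * sc d B := by
  ext k l
  simp only [sc, of_apply, mul_apply, mul_sum, sum_mul]
  refine sum_congr rfl fun m _ => ?_
  have := hd m
  field_simp

theorem sc_zero (d : I → ℂ) : sc d (0 : Matrix I I ℂ) = 0 := by
  ext k l
  simp [sc]

theorem Cf_sc (d : I → ℂ) (hd : ∀ k, d k ≠ 0) (f : Θ → Matrix I I ℂ) (μ : Θ)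
    (L : List (P × Θ)) (h : Λ) :
    Cf γ (fun t => sc d (f t)) μ L h = sc d (Cf γ f μ L h) := by
  induction L generalizing μ h with
  | nil =>
    rw [Cf, Cf]
    by_cases hh : h = 1
    · simp only [if_pos hh]
    · simp only [if_neg hh, sc_zero]
  | cons a L ih =>
    obtain ⟨x, ν⟩ := a
    rw [Cf, Cf]
    change sc d (f μ) * _ = sc d (f μ * _)
    rw [sc_mul d hd]
    congr 1
    ext k l
    rw [of_apply, ih]
    rfl

theorem Cf_tendsto (f : ℝ → Θ → Matrix I I ℂ) (f0 : Θ → Matrix I I ℂ) (F : Filter ℝ)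
    (hf : ∀ μ k l, Tendsto (fun s => f s μ k l) F (𝓝 (f0 μ k l))) (μ : Θ)
    (L : List (P × Θ)) (h : Λ) (k l : I) :
    Tendsto (fun s => Cf γ (f s) μ L h k l) F (𝓝 (Cf γ f0 μ L h k l)) := by
  induction L generalizing μ h k l with
  | nil =>
    simp only [Cf]
    by_cases hh : h = 1
    · simp only [if_pos hh]
      exact hf μ k l
    · simp only [if_neg hh]
      exact tendsto_const_nhds
  | cons a L ih =>
    obtain ⟨x, ν⟩ := a
    simp only [Cf, mul_apply, of_apply]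
    exact tendsto_finsetSum _ fun m _ => (hf μ k m).mul (ih ν _ m l)

end sc

theorem sc_add {I : Type} (d : I → ℂ) (A B : Matrix I I ℂ) : sc d (A + B) = sc d A + sc d B := by
  ext k l
  simp only [sc, of_apply, Matrix.add_apply]
  ring

theorem sc_smul {I : Type} (d : I → ℂ) (c : ℂ) (A : Matrix I I ℂ) : sc d (c • A) = c • sc d A := by
  ext k l
  simp only [sc, of_apply, Matrix.smul_apply, smul_eq_mul]
  ring

theorem sc_one {I : Type} [DecidableEq I] (d : I → ℂ) (hd : ∀ k, d k ≠ 0) :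
    sc d (1 : Matrix I I ℂ) = 1 := by
  ext k l
  simp only [sc, of_apply, one_apply]
  split_ifs with h
  · subst h
    have := hd k
    field_simp
  · simp

section typed2

variable {O : Type w} (τ : ℕ → O) (R : ℕ)

/-- the limit of the scaled rotations -/
noncomputable def f0 (θ : O × ℝ) : Matrix (Ix R) (Ix R) ℂ := 1 + (θ.2 : ℂ) • Mr τ R θ.1

theorem sc_Mr (o : O) (s : ℝ) (hs : s ≠ 0) :
    sc (fun k : Ix R => (s : ℂ) ^ k.1.val) (Mr τ R o) = (s : ℂ)⁻¹ • Mr τ R o := by
  ext k l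
  have hs' : (s : ℂ) ≠ 0 := by exact_mod_cast hs
  simp only [sc, of_apply, Mr, Matrix.smul_apply, smul_eq_mul]
  split_ifs with h
  · rw [h.1, pow_succ]
    field_simp
  · simp

theorem sc_MrT (o : O) (s : ℝ) (hs : s ≠ 0) :
    sc (fun k : Ix R => (s : ℂ) ^ k.1.val) (Mr τ R o)ᵀ = (s : ℂ) • (Mr τ R o)ᵀ := by
  ext k l
  have hs' : (s : ℂ) ≠ 0 := by exact_mod_cast hs
  simp only [sc, of_apply, Mr, Matrix.smul_apply, smul_eq_mul, transpose_apply]
  split_ifs with h
  · rw [h.1, pow_succ]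
    field_simp
  · simp

theorem sc_Yr (o : O) (s : ℝ) (hs : s ≠ 0) :
    sc (fun k : Ix R => (s : ℂ) ^ k.1.val) (Yr τ R o) =
      (s : ℂ)⁻¹ • Mr τ R o - (s : ℂ) • (Mr τ R o)ᵀ := by
  rw [Yr, sub_eq_add_neg, ← neg_one_smul ℂ (Mr τ R o)ᵀ, sc_add, sc_smul, sc_Mr τ R o s hs,
    sc_MrT τ R o s hs]
  rw [neg_one_smul, ← sub_eq_add_neg]

theorem sc_rot (o : O) (s μ : ℝ) (hs : s ≠ 0) :
    sc (fun k : Ix R => (s : ℂ) ^ k.1.val) (rot τ R o (s * μ)) =
      1 + ((Real.sin (2 * (s * μ)) / (2 * s) : ℝ) : ℂ) • Mr τ R o -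
        ((Real.sin (2 * (s * μ)) / 2 * s : ℝ) : ℂ) • (Mr τ R o)ᵀ +
        (((1 - Real.cos (2 * (s * μ))) / 4 : ℝ) : ℂ) • (Yr τ R o * Yr τ R o) := by
  have hs' : (s : ℂ) ≠ 0 := by exact_mod_cast hs
  have hd : ∀ k : Ix R, (s : ℂ) ^ k.1.val ≠ 0 := fun k => pow_ne_zero _ hs'
  rw [rot, sc_add, sc_add, sc_smul, sc_smul, sc_one _ hd, sc_mul _ hd, sc_Yr τ R o s hs]
  have h2 : ((s : ℂ)⁻¹ • Mr τ R o - (s : ℂ) • (Mr τ R o)ᵀ) *
      ((s : ℂ)⁻¹ • Mr τ R o - (s : ℂ) • (Mr τ R o)ᵀ) = Yr τ R o * Yr τ R o := by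
    rw [Yr_sq, Matrix.sub_mul, Matrix.mul_sub, Matrix.mul_sub]
    simp only [smul_mul_assoc, mul_smul_comm, smul_smul, Mr_sq, MrT_sq, smul_zero]
    rw [inv_mul_cancel₀ hs', mul_inv_cancel₀ hs', one_smul, one_smul]
    abel
  rw [h2, smul_sub, smul_smul, smul_smul]
  push_cast
  rw [div_mul_eq_div_div_swap]
  have : Complex.sin (2 * (s * μ)) / 2 * (s : ℂ)⁻¹ = Complex.sin (2 * (s * μ)) / s / 2 := by
    field_simp
  rw [this]
  abel

theorem sc_rot_tendsto (θ : O × ℝ) (k l : Ix R) :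
    Tendsto (fun s : ℝ => sc (fun k : Ix R => (s : ℂ) ^ k.1.val) (rot τ R θ.1 (s * θ.2)) k l)
      (𝓝[≠] 0) (𝓝 (f0 τ R θ k l)) := by
  obtain ⟨o, μ⟩ := θ
  have h1 : Tendsto (fun s : ℝ => Real.sin (2 * (s * μ)) / (2 * s)) (𝓝[≠] 0) (𝓝 μ) := by
    have hd : HasDerivAt (fun s : ℝ => Real.sin (2 * (s * μ))) (2 * μ) 0 := by
      have := (((hasDerivAt_id (0 : ℝ)).mul_const μ).const_mul 2).sin
      simpa using this
    have h2 := hd.tendsto_slope
    have h3 := h2.div_const 2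
    rw [mul_div_cancel_left₀ μ (two_ne_zero)] at h3
    refine h3.congr' ?_
    filter_upwards with s
    rw [slope_def_field]
    simp only [zero_mul, mul_zero, Real.sin_zero, sub_zero]
    rw [div_div, mul_comm s 2]
  have h2 : Tendsto (fun s : ℝ => Real.sin (2 * (s * μ)) / 2 * s) (𝓝[≠] 0) (𝓝 0) := by
    have : Continuous fun s : ℝ => Real.sin (2 * (s * μ)) / 2 * s := by fun_prop
    have h := this.tendsto 0
    simp only [mul_zero] at h
    exact h.mono_left nhdsWithin_le_nhds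
  have h3 : Tendsto (fun s : ℝ => (1 - Real.cos (2 * (s * μ))) / 4) (𝓝[≠] 0) (𝓝 0) := by
    have : Continuous fun s : ℝ => (1 - Real.cos (2 * (s * μ))) / 4 := by fun_prop
    have h := this.tendsto 0
    simp only [zero_mul, mul_zero, Real.cos_zero, sub_self, zero_div] at h
    exact h.mono_left nhdsWithin_le_nhds
  have c1 := (Complex.continuous_ofReal.tendsto _).comp h1
  have c2 := (Complex.continuous_ofReal.tendsto _).comp h2
  have c3 := (Complex.continuous_ofReal.tendsto _).comp h3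
  have hlim : Tendsto (fun s : ℝ => (1 : Matrix (Ix R) (Ix R) ℂ) k l +
      ((Real.sin (2 * (s * μ)) / (2 * s) : ℝ) : ℂ) * Mr τ R o k l -
        ((Real.sin (2 * (s * μ)) / 2 * s : ℝ) : ℂ) * (Mr τ R o)ᵀ k l +
        (((1 - Real.cos (2 * (s * μ))) / 4 : ℝ) : ℂ) * (Yr τ R o * Yr τ R o) k l) (𝓝[≠] 0)
      (𝓝 ((1 : Matrix (Ix R) (Ix R) ℂ) k l + (μ : ℂ) * Mr τ R o k l -
        ((0 : ℝ) : ℂ) * (Mr τ R o)ᵀ k l + ((0 : ℝ) : ℂ) * (Yr τ R o * Yr τ R o) k l)) :=
    (((tendsto_const_nhds.add (c1.mul_const _)).sub (c2.mul_const _)).add (c3.mul_const _))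
  have e : (1 : Matrix (Ix R) (Ix R) ℂ) k l + (μ : ℂ) * Mr τ R o k l -
      ((0 : ℝ) : ℂ) * (Mr τ R o)ᵀ k l + ((0 : ℝ) : ℂ) * (Yr τ R o * Yr τ R o) k l =
        f0 τ R (o, μ) k l := by
    simp [f0]
  rw [e] at hlim
  refine hlim.congr' ?_
  filter_upwards [self_mem_nhdsWithin] with s hs
  rw [sc_rot τ R o s μ hs]
  simp

end typed2

/-- product of the letters -/
def pr {P : Type v} [Group P] {Θ : Type w} : List (P × Θ) → P
  | [] => 1
  | (x, _) :: L => x * pr L

/-! ### the non-vanishing coefficient -/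

section core

variable {O : Type w} (τ : ℕ → O) (R : ℕ)
variable {P : Type v} [Group P] {K : ℕ → Type u} [∀ j, Group (K j)] (a b : ∀ j, P →* K j)

open Classical in
/-- twisted homomorphisms -/
noncomputable def tw (k : Ix R) : P →* (∀ j : Fin (R + 1), K j) :=
  MonoidHom.pi fun j => if k.2 = true ∧ k.1 = j then b j else a j

theorem tw_false (k : Ix R) (hk : k.2 = false) (p : P) :
    tw R a b k p = fun j : Fin (R + 1) => a j p := by
  funext l
  simp [tw, hk]

theorem tw_ne (k : Ix R) (l : Fin (R + 1)) (hl : k.1 ≠ l) (p : P) :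
    tw R a b k p l = a l p := by
  simp [tw, hl]

theorem tw_true (k : Ix R) (hk : k.2 = true) (p : P) : tw R a b k p k.1 = b k.1 p := by
  simp [tw, hk]

theorem tw_act (o : O) (k : Ix R) (hk : act τ R o k) (p : P)
    (hp : ∀ j : ℕ, pl τ j → τ j = o → a j p = b j p) :
    tw R a b k p = fun j : Fin (R + 1) => a j p := by
  by_cases h : k.2 = true
  · funext l
    by_cases hl : k.1 = l
    · rw [← hl, tw_true R a b k h]
      exact (hp _ (hk h).1 (hk h).2).symm
    · exact tw_ne R a b k l hl p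
  · exact tw_false R a b k (by simpa using h) p

/-- all the exponents are nonzero and all the letters are separated by `a, b` -/
def OK : ℕ → O × ℝ → List (P × (O × ℝ)) → Prop
  | j, θ, [] => θ.1 = τ j ∧ θ.2 ≠ 0
  | j, θ, (x, ν) :: L => θ.1 = τ j ∧ θ.2 ≠ 0 ∧ (pl τ (j + 1) → a (j + 1) x ≠ b (j + 1) x) ∧
      OK (j + 1) ν L

theorem OK.ty {j : ℕ} {θ : O × ℝ} {L : List (P × (O × ℝ))} (h : OK τ a b j θ L) : θ.1 = τ j := by
  cases L with
  | nil => exact h.1
  | cons c L => exact h.1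

theorem OK.nz {j : ℕ} {θ : O × ℝ} {L : List (P × (O × ℝ))} (h : OK τ a b j θ L) : θ.2 ≠ 0 := by
  cases L with
  | nil => exact h.2
  | cons c L => exact h.2.1

theorem f0_ne (θ : O × ℝ) (k l : Ix R) (h : f0 τ R θ k l ≠ 0) :
    l.1.val = k.1.val ∨ l.1.val = k.1.val + 1 := by
  by_contra hcon
  push Not at hcon
  apply h
  have h1 : k ≠ l := fun h => hcon.1 (by rw [h])
  simp [f0, Mr, h1, hcon.2]

theorem level (θ : O × ℝ) (L : List (P × (O × ℝ))) (h : ∀ j : Fin (R + 1), K j) (k l : Ix R)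
    (H : Cf (tw R a b) (f0 τ R) θ L h k l ≠ 0) : l.1.val ≤ k.1.val + L.length + 1 := by
  induction L generalizing θ h k with
  | nil =>
    rw [Cf] at H
    have h1 : f0 τ R θ k l ≠ 0 := by
      by_cases hh : h = 1
      · simpa only [if_pos hh] using H
      · simp [hh] at H
    rcases f0_ne τ R θ k l h1 with h2 | h2 <;> simp [h2]
  | cons c L ih =>
    obtain ⟨x, ν⟩ := c
    rw [Cf] at H
    simp only [mul_apply, of_apply] at H
    obtain ⟨m, -, hm⟩ := exists_ne_zero_of_sum_ne_zero H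
    have h1 := f0_ne τ R θ k m (left_ne_zero_of_mul hm)
    have h2 := ih ν _ m (right_ne_zero_of_mul hm)
    rw [List.length_cons]
    omega

theorem supp (θ : O × ℝ) (L : List (P × (O × ℝ))) (h : ∀ j : Fin (R + 1), K j) (k l : Ix R)
    (hl : l.1.val = R) (H : Cf (tw R a b) (f0 τ R) θ L h k l ≠ 0) (j : Fin (R + 1))
    (hj : j.val + L.length < R) : h j = a j (pr L) := by
  induction L generalizing θ h k with
  | nil =>
    rw [Cf] at H
    by_cases hh : h = 1
    · rw [hh, pr, map_one]; rfl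
    · simp [hh] at H
  | cons c L ih =>
    obtain ⟨x, ν⟩ := c
    rw [Cf] at H
    simp only [mul_apply, of_apply] at H
    obtain ⟨m, -, hm⟩ := exists_ne_zero_of_sum_ne_zero H
    have hm2 := right_ne_zero_of_mul hm
    rw [List.length_cons] at hj
    have h2 := ih ν _ m hm2 (by omega)
    have h3 := level τ R a b ν L _ m l hm2
    have h4 : m.1 ≠ j := fun h => by rw [h] at h3; omega
    rw [Pi.mul_apply, Pi.inv_apply, tw_ne R a b m j h4, inv_mul_eq_iff_eq_mul] at h2
    rw [h2, pr, map_mul]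

theorem Mr_true (o : O) (k m : Ix R) (hm : m.2 = true) (hk : m.1.val = k.1.val + 1)
    (h : Mr τ R o k m ≠ 0) : pl τ (k.1.val + 1) := by
  by_contra hpl
  apply h
  rw [← hk] at hpl
  simp only [Mr, ww, if_neg hpl, hm, if_true, mul_zero, Complex.ofReal_zero, ite_self]

theorem Mr_false (o : O) (k m : Ix R) (hm : m.2 = false) (hk : m.1.val = k.1.val + 1)
    (hk2 : k.2 = false) (ho : τ k.1 = o) : Mr τ R o k m ≠ 0 := by
  simp only [Mr]
  rw [if_pos ⟨hk, ho⟩]
  have h1 : vv τ k.1 k.2 ≠ 0 := by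
    rw [hk2, vv]
    split_ifs <;> simp_all
  have h2 : ww τ m.1 m.2 ≠ 0 := by
    rw [hm, ww]
    split_ifs <;> simp_all
  exact_mod_cast mul_ne_zero h1 h2

theorem value (θ : O × ℝ) (L : List (P × (O × ℝ))) (k l : Ix R) (hl : l.1.val = R)
    (hl2 : l.2 = false) (hk2 : k.2 = false) (hk : k.1.val + L.length + 1 = R)
    (hOK : OK τ a b k.1 θ L) :
    Cf (tw R a b) (f0 τ R) θ L (fun j => a j (pr L)) k l ≠ 0 := by
  induction L generalizing θ k with
  | nil =>
    have h1 : (fun j : Fin (R + 1) => a j (pr ([] : List (P × (O × ℝ))))) = 1 := by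
      funext j
      rw [pr, map_one]; rfl
    rw [Cf, h1]
    simp only [if_true]
    have hkl : k ≠ l := fun h => by rw [h] at hk; simp at hk; omega
    have h2 : l.1.val = k.1.val + 1 := by simp at hk; omega
    have h3 : f0 τ R θ k l = (θ.2 : ℂ) * Mr τ R θ.1 k l := by
      simp [f0, hkl]
    rw [h3]
    exact mul_ne_zero (by exact_mod_cast hOK.2) (Mr_false τ R θ.1 k l hl2 h2 hk2 hOK.1.symm)
  | cons c L ih =>
    obtain ⟨x, ν⟩ := c
    obtain ⟨hty, hμ, hx, hOK'⟩ := hOK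
    rw [List.length_cons] at hk
    have hj : k.1.val + 1 < R + 1 := by omega
    rw [Cf]
    simp only [mul_apply, of_apply]
    rw [sum_eq_single ((⟨k.1.val + 1, hj⟩, false) : Ix R)]
    · apply mul_ne_zero
      · have h1 : k ≠ ((⟨k.1.val + 1, hj⟩, false) : Ix R) := fun h => by
          have := congrArg (fun z : Ix R => z.1.val) h
          simp at this
        have h3 : f0 τ R θ k ((⟨k.1.val + 1, hj⟩, false) : Ix R) =
            (θ.2 : ℂ) * Mr τ R θ.1 k ((⟨k.1.val + 1, hj⟩, false) : Ix R) := by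
          simp [f0, h1]
        rw [h3]
        exact mul_ne_zero (by exact_mod_cast hμ) (Mr_false τ R θ.1 k _ rfl rfl hk2 hty.symm)
      · have h4 := ih ν ((⟨k.1.val + 1, hj⟩, false) : Ix R) rfl (by simp only; omega) hOK'
        have h5 : ((tw R a b ((⟨k.1.val + 1, hj⟩, false) : Ix R)) x)⁻¹ *
            (fun j : Fin (R + 1) => a j (pr ((x, ν) :: L))) = fun j : Fin (R + 1) => a j (pr L) := by
          rw [tw_false R a b _ rfl]
          funext j
          rw [Pi.mul_apply, Pi.inv_apply, pr, map_mul, inv_mul_cancel_left]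
        rw [h5]
        exact h4
    · intro m _ hm
      by_contra hne
      have hm1 := left_ne_zero_of_mul hne
      have hm2 := right_ne_zero_of_mul hne
      have h3 := level τ R a b ν L _ m l hm2
      rcases f0_ne τ R θ k m hm1 with h1 | h1
      · omega
      · have hmt : m.2 = true := by
          by_contra h
          have h' : m.2 = false := by simpa using h
          apply hm
          exact Prod.ext (Fin.ext h1) h'
        have hkm : k ≠ m := fun h => by rw [h] at h1; omega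
        have h6 : f0 τ R θ k m = (θ.2 : ℂ) * Mr τ R θ.1 k m := by
          simp [f0, hkm]
        rw [h6] at hm1
        have hpl := Mr_true τ R θ.1 k m hmt h1 (right_ne_zero_of_mul hm1)
        have h4 := supp τ R a b ν L _ m l hl hm2 m.1 (by omega)
        rw [Pi.mul_apply, Pi.inv_apply, tw_true R a b m hmt, inv_mul_eq_iff_eq_mul, pr, map_mul] at h4
        have h5 := hx hpl
        rw [← h1] at h5
        exact h5 (mul_right_cancel h4)
    · simp

/-- the scaled rotations -/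
noncomputable def fs (s : ℝ) (θ : O × ℝ) : Matrix (Ix R) (Ix R) ℂ :=
  sc (fun k : Ix R => (s : ℂ) ^ k.1.val) (rot τ R θ.1 (s * θ.2))

theorem fs_tendsto (θ : O × ℝ) (k l : Ix R) :
    Tendsto (fun s : ℝ => fs τ R s θ k l) (𝓝[≠] 0) (𝓝 (f0 τ R θ k l)) :=
  sc_rot_tendsto τ R θ k l

theorem limit_zero (θ : O × ℝ) (L : List (P × (O × ℝ))) (h : ∀ j : Fin (R + 1), K j) (k l : Ix R)
    (H : ∀ s : ℝ, s ≠ 0 → Cf (tw R a b) (fun t => rot τ R t.1 (s * t.2)) θ L h k l = 0) :
    Cf (tw R a b) (f0 τ R) θ L h k l = 0 := by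
  have h2 : Tendsto (fun s => Cf (tw R a b) (fs τ R s) θ L h k l) (𝓝[≠] 0)
      (𝓝 (Cf (tw R a b) (f0 τ R) θ L h k l)) :=
    Cf_tendsto (tw R a b) (fs τ R) (f0 τ R) (𝓝[≠] 0) (fs_tendsto τ R) θ L h k l
  refine tendsto_nhds_unique h2 ?_
  refine tendsto_const_nhds.congr' ?_
  filter_upwards [self_mem_nhdsWithin] with s hs
  have hs' : (s : ℂ) ≠ 0 := by exact_mod_cast hs
  have h3 := Cf_sc (tw R a b) (fun k : Ix R => (s : ℂ) ^ k.1.val) (fun k => pow_ne_zero _ hs')
    (fun t : O × ℝ => rot τ R t.1 (s * t.2)) θ L h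
  change 0 = Cf (tw R a b) (fun t : O × ℝ => sc (fun k : Ix R => (s : ℂ) ^ k.1.val)
    (rot τ R t.1 (s * t.2))) θ L h k l
  rw [h3]
  simp [sc, H s hs]

theorem value0 (θ : O × ℝ) (L : List (P × (O × ℝ)))
    (hOK : OK τ a b 0 θ L) (k l : Ix R) (hk : k.1.val = 0) (hl : l.1.val = R)
    (hk2 : k.2 = false) (hl2 : l.2 = false)  (hR : R = L.length + 1) :
    Cf (tw R a b) (f0 τ R) θ L (fun j => a j (pr L)) k l ≠ 0 := by
  apply value τ R a b θ L k l hl hl2 hk2 (by omega)
  rw [hk]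
  exact hOK

/-- for small rotations some off-diagonal coefficient is not zero -/
theorem exists_rot (θ : O × ℝ) (L : List (P × (O × ℝ))) (hR : R = L.length + 1)
    (hOK : OK τ a b 0 θ L) :
    ∃ s : ℝ, s ≠ 0 ∧ ∃ (h : ∀ j : Fin (R + 1), K j) (k l : Ix R), k ≠ l ∧
      Cf (tw R a b) (fun t => (rotU τ R t.1 (s * t.2)).1) θ L h k l ≠ 0 := by
  obtain ⟨k, hk, hk2⟩ : ∃ k : Ix R, k.1.val = 0 ∧ k.2 = false := ⟨(⟨0, by omega⟩, false), rfl, rfl⟩
  obtain ⟨l, hl, hl2⟩ : ∃ l : Ix R, l.1.val = R ∧ l.2 = false := ⟨(⟨R, by omega⟩, false), rfl, rfl⟩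
  have hkl : k ≠ l := fun h => by
    rw [h, hl] at hk
    omega
  by_contra hcon
  push Not at hcon
  exact value0 τ R a b θ L hOK k l hk hl hk2 hl2 hR
    (limit_zero τ R a b θ L _ k l fun s hs => hcon s hs _ k l hkl)

end core

end Pool.Agent.N44.HL
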