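import Pool.Agent.N44.HL.C
import Mathlib.GroupTheory.PushoutI
import Mathlib.GroupTheory.HNNExtension

/-!
# Amalgams and HNN extensions
-/

set_option autoImplicit false

namespace Pool.Agent.N44.HL

open Finset Matrix Filter Topology Pool.Agent.H21R2
open scoped Matrix.Norms.Frobenius

universe u v w x

/-- a finite-dimensional unitary representation separates -/
theorem sep_of_rep {P : Type v} [Group P] {Y : Type} [Fintype Y] [DecidableEq Y]
    (ρ : P →* unitaryGroup Y ℂ) (g : P) (hg : ρ g ≠ 1) : Sep P g := by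
  refine ⟨PUnit, ⊤, inferInstance, fun _ => Y, fun _ => inferInstance, fun _ => inferInstance,
    fun _ => 1, (QuotientGroup.mk' _).comp (MonoidHom.pi fun _ => ρ), fun h => hg ?_⟩
  have h1 : (((fun _ => ρ g : ∀ _ : PUnit, unitaryGroup Y ℂ)) :
      (∀ _ : PUnit.{v+1}, unitaryGroup Y ℂ) ⧸ Nl ⊤ (fun _ : PUnit.{v+1} => Y) (fun _ => 1)) =
      ((fun _ => 1 : ∀ _ : PUnit.{v+1}, unitaryGroup Y ℂ) :
        (∀ _ : PUnit.{v+1}, unitaryGroup Y ℂ) ⧸ Nl ⊤ (fun _ : PUnit.{v+1} => Y) (fun _ => 1)) := h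
  rw [eq_iff] at h1
  have h2 := tendsto_nhds_unique h1 tendsto_const_nhds
  simp only [abs_one, div_one] at h2
  exact Subtype.ext (sub_eq_zero.1 (norm_eq_zero.1 h2.symm))

theorem hyperlinear_int : IsHyperlinear (ULift.{u} (Multiplicative ℤ)) := by
  apply hyperlinear_of_sep
  intro g hg
  let z : unitaryGroup Unit ℂ := ⟨Matrix.of fun _ _ => Complex.exp Complex.I, by
    rw [mem_unitaryGroup_iff']
    ext i j
    simp only [mul_apply, univ_unique, sum_singleton, star_apply, of_apply, one_apply]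
    have := Complex.norm_exp_ofReal_mul_I 1
    rw [Complex.ofReal_one, one_mul] at this
    rw [if_pos trivial, Complex.star_def, ← Complex.normSq_eq_conj_mul_self,
      Complex.normSq_eq_norm_sq, this]
    norm_num⟩
  have hz : ∀ n : ℤ, (z ^ n).1 () () = Complex.exp (n * Complex.I) := by
    intro n
    induction n using Int.induction_on with
    | zero => simp
    | succ n ih =>
      rw [_root_.zpow_add_one]
      change ((z ^ (n : ℤ)).1 * z.1) () () = _
      rw [mul_apply]
      simp only [univ_unique, sum_singleton]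
      change (z ^ (n : ℤ)).1 () () * z.1 () () = _
      rw [ih]
      change _ * Complex.exp Complex.I = _
      rw [← Complex.exp_add]
      congr 1
      push_cast
      ring
    | pred n ih =>
      have h1 : (z ^ (-(n : ℤ))).1 () () = (z ^ (-(n : ℤ) - 1)).1 () () * Complex.exp Complex.I := by
        have : z ^ (-(n : ℤ)) = z ^ (-(n : ℤ) - 1) * z := by
          rw [← _root_.zpow_add_one]; congr 1; ring
        rw [this]
        change ((z ^ (-(n : ℤ) - 1)).1 * z.1) () () = _
        rw [mul_apply]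
        simp only [univ_unique, sum_singleton]
        rfl
      rw [ih] at h1
      have h2 : Complex.exp (((-(n : ℤ) : ℤ) : ℂ) * Complex.I) =
          Complex.exp (((-(n : ℤ) - 1 : ℤ) : ℂ) * Complex.I) * Complex.exp Complex.I := by
        rw [← Complex.exp_add]
        congr 1
        push_cast
        ring
      rw [h2] at h1
      exact (mul_right_cancel₀ (Complex.exp_ne_zero _) h1).symm
  refine sep_of_rep ((zpowersHom _ z).comp MulEquiv.ulift.toMonoidHom) g fun h => hg ?_
  have h1 : z ^ (Multiplicative.toAdd g.down) = 1 := h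
  have h2 := congrArg (fun A : unitaryGroup Unit ℂ => A.1 () ()) h1
  simp only [hz] at h2
  change Complex.exp (((Multiplicative.toAdd g.down : ℤ) : ℂ) * Complex.I) = 1 at h2
  rw [Complex.exp_eq_one_iff] at h2
  obtain ⟨m, hm⟩ := h2
  have h3 : ((Multiplicative.toAdd g.down : ℤ) : ℂ) = m * (2 * Real.pi) := by
    have : ((Multiplicative.toAdd g.down : ℤ) : ℂ) * Complex.I = (m * (2 * Real.pi)) * Complex.I := by
      rw [hm]; ring
    exact mul_right_cancel₀ Complex.I_ne_zero this
  have h4 : ((Multiplicative.toAdd g.down : ℤ) : ℝ) = m * (2 * Real.pi) := by exact_mod_cast h3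
  have h5 : m = 0 := by
    by_contra hm0
    have hirr : Irrational (m * (2 * Real.pi)) := by
      have := irrational_pi.intCast_mul (m := 2 * m) (by omega)
      push_cast at this
      rwa [mul_comm 2 (m : ℝ), mul_assoc] at this
    exact hirr ⟨(Multiplicative.toAdd g.down : ℤ), by push_cast; exact h4⟩
  rw [h5] at h4
  have h6 : Multiplicative.toAdd g.down = 0 := by
    have : ((Multiplicative.toAdd g.down : ℤ) : ℝ) = 0 := by rw [h4]; simp
    exact_mod_cast this
  apply ULift.ext
  exact Multiplicative.toAdd.injective h6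

theorem hyperlinear_pi0 {ι : Type} {K : ι → Type u} [∀ i, Group (K i)]
    (hK : ∀ i, IsHyperlinear (K i)) : IsHyperlinear (∀ i, K i) := by
  apply hyperlinear_of_res
  intro g hg
  obtain ⟨i, hi⟩ := Function.ne_iff.1 hg
  exact ⟨K i, inferInstance, hK i, Pi.evalMonoidHom K i, hi⟩

/-- the engine -/
theorem sep_of_words {P : Type u} [Group P] {O : Type w} (τ : ℕ → O) (R : ℕ) {K : ℕ → Type u}
    [∀ j, Group (K j)] (hK : ∀ j, IsHyperlinear (K j)) (α β : ∀ j, P →* K j) (θ : O × ℝ)
    (L : List (P × (O × ℝ))) (hR : R = L.length + 1) (hOK : OK τ α β 0 θ L) (g x y : P)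
    (H : ∀ (S : Sys (∀ j : Fin (R + 1), K j)) (s : ℝ), ∃ ψ : P →* Q S (Ix R),
      ψ g = fD S (tw R α β) x *
        Zq S (tw R α β) (fun t => rotU τ R t.1 (s * t.2)) θ L * fD S (tw R α β) y) :
    Sep P g := by
  obtain ⟨S⟩ := exists_sys (hyperlinear_pi0 (fun j : Fin (R + 1) => hK j))
  obtain ⟨s, -, h, k, l, hkl, hC⟩ := exists_rot τ R α β θ L hR hOK
  obtain ⟨ψ, hψ⟩ := H S s
  refine ⟨S.J, S.F, S.ne, fun i => S.X i × Ix R, inferInstance, inferInstance, S.c, ψ, fun h1 => ?_⟩
  apply hC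
  refine Cf_eq_zero S (tw R α β) (fun t => rotU τ R t.1 (s * t.2)) θ L (x⁻¹ * y⁻¹) ?_ h k l hkl
  rw [hψ] at h1
  rw [map_mul, map_inv, map_inv, eq_inv_mul_iff_mul_eq, eq_inv_iff_mul_eq_one]
  exact h1

section pushout

open Monoid

variable {ι : Type v} {G : ι → Type u} {H : Type w} [∀ i, Group (G i)] [Group H]
  {φ : ∀ i, H →* G i}

/-- the word in `R_i` and `g` -/
def cv (la : ι → ℝ) : ℝ → List (Σ i, G i) → (Unit × ℝ) × List (PushoutI φ × (Unit × ℝ))
  | p, [] => (((), -p), [])
  | p, ⟨i, g⟩ :: w => (((), la i - p), (PushoutI.of i g, (cv la (la i) w).1) :: (cv la (la i) w).2)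

theorem cv_prod {Λ : Type x} [Group Λ] (S : Sys Λ) (τ : ℕ → Unit) (R : ℕ)
    (γ : Ix R → PushoutI φ →* Λ) (la : ι → ℝ) (s : ℝ)
    (ψ : PushoutI φ →* Q S (Ix R))
    (hψ : ∀ i (g : G i), ψ (PushoutI.of i g) = fT S (rotU τ R () (s * la i)) *
      fD S γ (PushoutI.of i g) * fT S (rotU τ R () (s * (-la i))))
    (w : List (Σ i, G i)) (p : ℝ) :
    fT S (rotU τ R () (s * (-p))) * ψ ((w.map fun l => PushoutI.of l.1 l.2).prod) =
      Zq S γ (fun t => rotU τ R t.1 (s * t.2)) (cv (φ := φ) la p w).1 (cv (φ := φ) la p w).2 := by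
  induction w generalizing p with
  | nil =>
    rw [List.map_nil, List.prod_nil, map_one, mul_one]
    rfl
  | cons a w ih =>
    obtain ⟨i, g⟩ := a
    rw [List.map_cons, List.prod_cons, map_mul, hψ, cv, Zq, ← ih, ← mul_assoc, ← mul_assoc,
      ← mul_assoc, ← map_mul, ← rotU_add, ← mul_add, neg_add_eq_sub]
    simp only [mul_assoc]

theorem cv_OK {K : Type x} [Group K] (α β : PushoutI φ →* K) (la : ι → ℝ) (w : List (Σ i, G i))
    (hw : ∀ l ∈ w, α (PushoutI.of l.1 l.2) ≠ β (PushoutI.of l.1 l.2))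
    (hch : w.IsChain (fun l l' => la l.1 ≠ la l'.1)) (hnz : ∀ l ∈ w, la l.1 ≠ 0) (p : ℝ)
    (hp : ∀ l ∈ w.head?, la l.1 ≠ p) (hp' : w = [] → p ≠ 0) (j : ℕ) :
    OK (fun _ => ()) (fun _ => α) (fun _ => β) j (cv (φ := φ) la p w).1 (cv (φ := φ) la p w).2 := by
  induction w generalizing p j with
  | nil => exact ⟨rfl, neg_ne_zero.2 (hp' rfl)⟩
  | cons a w ih =>
    obtain ⟨i, g⟩ := a
    refine ⟨rfl, sub_ne_zero.2 (hp ⟨i, g⟩ (by simp)), fun _ => hw ⟨i, g⟩ (by simp), ?_⟩
    rw [List.isChain_cons] at hch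
    refine ih (fun l hl => hw l (List.mem_cons_of_mem _ hl)) hch.2
      (fun l hl => hnz l (List.mem_cons_of_mem _ hl)) (la i) ?_ ?_ (j + 1)
    · intro l hl
      exact (hch.1 l hl).symm
    · intro _
      exact hnz ⟨i, g⟩ (by simp)

theorem exists_word (hφ : ∀ i, Function.Injective (φ i)) (g : PushoutI φ) :
    ∃ (h : H) (w : List (Σ i, G i)), w.IsChain (fun l l' => l.1 ≠ l'.1) ∧
      (∀ l ∈ w, l.2 ∉ (φ l.1).range) ∧
      g = PushoutI.base φ h * (w.map fun l => PushoutI.of l.1 l.2).prod := by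
  classical
  obtain ⟨d⟩ := PushoutI.NormalWord.transversal_nonempty φ hφ
  have hg : (PushoutI.NormalWord.equiv (d := d) g).prod = g :=
    (PushoutI.NormalWord.equiv (d := d)).symm_apply_apply g
  set w := PushoutI.NormalWord.equiv (d := d) g
  refine ⟨w.head, w.toList, w.chain_ne, ?_, ?_⟩
  · intro l hl
    have h1 := w.ne_one l hl
    have h2 := w.normalized l.1 l.2 hl
    rwa [← SetLike.mem_coe, ← Subgroup.IsComplement.coe_equiv_snd_eq_one_iff_mem (d.compl l.1) (d.one_mem _),
      (Subgroup.IsComplement.equiv_snd_eq_self_iff_mem (d.compl l.1) (one_mem _)).2 h2]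
  · rw [← hg, PushoutI.NormalWord.prod]
    congr 1
    rw [CoprodI.Word.prod, map_list_prod, List.map_map]
    congr 1

/-- **Amalgams.** -/
theorem hyperlinear_pushout {K : Type (max u v w)} [Group K] (hK : IsHyperlinear K)
    (α β : PushoutI φ →* K) (hab : ∀ h, α (PushoutI.base φ h) = β (PushoutI.base φ h))
    (hinj : Function.Injective fun h => α (PushoutI.base φ h))
    (hcl : ∀ i (g : G i), α (PushoutI.of i g) = β (PushoutI.of i g) → g ∈ (φ i).range) :
    IsHyperlinear (PushoutI φ) := by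
  classical
  apply hyperlinear_of_sep
  intro g hg
  by_cases hag : α g ≠ 1
  · exact (sep_of_hyperlinear hK (α g) hag).comap α
  push Not at hag
  have hφ : ∀ i, Function.Injective (φ i) := by
    intro i h h' hh
    apply hinj
    simp only
    rw [← PushoutI.of_apply_eq_base φ i, ← PushoutI.of_apply_eq_base φ i, hh]
  obtain ⟨h, w, hch, hred, hgw⟩ := exists_word hφ g
  have hw0 : w ≠ [] := by
    intro hw
    rw [hw, List.map_nil, List.prod_nil, mul_one] at hgw
    apply hg
    rw [hgw] at hag ⊢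
    have : h = 1 := hinj (by simp only; rw [hag, map_one, map_one])
    rw [this, map_one]
  let ids : List ι := w.map fun l => l.1
  let la : ι → ℝ := fun i => (ids.idxOf i : ℝ) + 1
  have hla0 : ∀ i, la i ≠ 0 := fun i => by positivity
  have hlai : ∀ l ∈ w, ∀ l' ∈ w, la l.1 = la l'.1 → l.1 = l'.1 := by
    intro l hl l' hl' he
    have h1 : ids.idxOf l.1 = ids.idxOf l'.1 := by
      have : (ids.idxOf l.1 : ℝ) = ids.idxOf l'.1 := by simpa [la] using he
      exact_mod_cast this
    exact (List.idxOf_inj (List.mem_map_of_mem hl)).1 h1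
  have hch' : w.IsChain (fun l l' => la l.1 ≠ la l'.1) := by
    rw [List.isChain_iff_getElem] at hch ⊢
    intro i hi he
    exact hch i hi (hlai _ (List.getElem_mem _) _ (List.getElem_mem _) he)
  have hOK := cv_OK α β la w (fun l hl he => hred l hl (hcl l.1 l.2 he)) hch'
    (fun l _ => hla0 _) 0 (fun l _ => hla0 _) (fun h => absurd h hw0) 0
  obtain ⟨R, hR⟩ : ∃ R, R = (cv (φ := φ) la 0 w).2.length + 1 := ⟨_, rfl⟩
  refine sep_of_words (fun _ : ℕ => ()) R (K := fun _ => K) (fun _ => hK) (fun _ => α) (fun _ => β)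
    (cv (φ := φ) la 0 w).1 (cv (φ := φ) la 0 w).2 hR hOK g (PushoutI.base φ h) 1 ?_
  intro S s
  set γ := tw R (fun _ : ℕ => α) (fun _ => β)
  have hγ : ∀ (h : H) (k l : Ix R), γ k (PushoutI.base φ h) = γ l (PushoutI.base φ h) := by
    have : ∀ (h : H) (k : Ix R), γ k (PushoutI.base φ h) = fun _ => α (PushoutI.base φ h) := by
      intro h k
      funext j
      by_cases hkj : k.2 = true ∧ k.1 = j
      · simp only [γ, tw, MonoidHom.pi_apply, if_pos hkj]
        exact (hab h).symm
      · simp only [γ, tw, MonoidHom.pi_apply, if_neg hkj]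
    intro h k l
    rw [this, this]
  let c : ι → Q S (Ix R) := fun i => fT S (rotU (fun _ => ()) R () (s * la i))
  let f : ∀ i, G i →* Q S (Ix R) := fun i =>
    (MulAut.conj (c i)).toMonoidHom.comp ((fD S γ).comp (PushoutI.of i))
  have hf : ∀ i, (f i).comp (φ i) = (fD S γ).comp (PushoutI.base φ) := by
    intro i
    ext h
    simp only [f, MonoidHom.comp_apply, MulEquiv.coe_toMonoidHom, MulAut.conj_apply,
      PushoutI.of_apply_eq_base]
    rw [mul_inv_eq_iff_eq_mul]
    exact fT_comm S γ _ _ fun k l _ => hγ h k l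
  refine ⟨PushoutI.lift f ((fD S γ).comp (PushoutI.base φ)) hf, ?_⟩
  have key := cv_prod S (fun _ => ()) R γ la s (PushoutI.lift f ((fD S γ).comp (PushoutI.base φ)) hf)
    (by
      intro i g
      rw [PushoutI.lift_of]
      simp only [f, MonoidHom.comp_apply, MulEquiv.coe_toMonoidHom, MulAut.conj_apply, c]
      rw [← map_inv, ← rotU_neg, mul_neg]) w 0
  rw [neg_zero, mul_zero, rotU_zero, map_one, one_mul] at key
  conv_lhs => rw [hgw]
  rw [map_mul, key, PushoutI.lift_base, map_one, mul_one]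
  rfl

end pushout

end Pool.Agent.N44.HL
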