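import Pool.Agent.N44.HL.D

/-!
# HNN extensions
-/

set_option autoImplicit false

namespace Pool.Agent.N44.HL

open Filter Topology Pool.Agent.H21R2

universe u v w x

section hnn

open HNNExtension

variable {G : Type u} [Group G] {A B : Subgroup G} {φ : A ≃* B}

/-- the part of `t ^ u` after the rotation -/
def pre (u : ℤˣ) : HNNExtension G A B φ := if u = 1 then t else 1

/-- the part of `t ^ u` before the rotation -/
def post (u : ℤˣ) : HNNExtension G A B φ := if u = 1 then 1 else t⁻¹

/-- the letters of the word -/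
def hc : ℤˣ → G → List (ℤˣ × G) → List (HNNExtension G A B φ × (Unit × ℝ))
  | _, _, [] => []
  | u, g, (u', g') :: L => (pre u * of g * post u', ((), ((u' : ℤ) : ℝ))) :: hc u' g' L

/-- the last letter -/
def hl : ℤˣ → G → List (ℤˣ × G) → HNNExtension G A B φ
  | u, g, [] => pre u * of g
  | _, _, (u', g') :: L => hl u' g' L

theorem hc_prod {Λ : Type x} [Group Λ] (S : Sys Λ) (τ : ℕ → Unit) (R : ℕ)
    (γ : Ix R → HNNExtension G A B φ →* Λ) (s : ℝ)
    (ψ : HNNExtension G A B φ →* Q S (Ix R)) (hψ : ∀ g, ψ (of g) = fD S γ (of g))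
    (hψt : ∀ u : ℤˣ, ψ (t ^ (u : ℤ)) = fD S γ (post u) * fT S (rotU τ R () (s * ((u : ℤ) : ℝ))) *
      fD S γ (pre u)) (u : ℤˣ) (g : G) (L : List (ℤˣ × G)) :
    ψ (t ^ (u : ℤ) * of g * (L.map fun x => t ^ (x.1 : ℤ) * of x.2).prod) =
      fD S γ (post u) * Zq S γ (fun t => rotU τ R t.1 (s * t.2)) ((), ((u : ℤ) : ℝ)) (hc u g L) *
        fD S γ (hl u g L) := by
  induction L generalizing u g with
  | nil =>
    rw [List.map_nil, List.prod_nil, mul_one, map_mul, hψ, hψt, hc, hl, Zq, map_mul]
    simp only [mul_assoc]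
  | cons a L ih =>
    obtain ⟨u', g'⟩ := a
    rw [List.map_cons, List.prod_cons, map_mul, ih, map_mul, hψ, hψt, hc, hl, Zq, map_mul, map_mul]
    simp only [mul_assoc]

theorem hc_OK {K : Type x} [Group K] (α β : HNNExtension G A B φ →* K)
    (h1 : ∀ g, α (t * of g) ≠ β (t * of g)) (h2 : ∀ g, α (of g * t⁻¹) ≠ β (of g * t⁻¹))
    (h3 : ∀ g, α (of g) = β (of g) → g ∈ B)
    (h4 : ∀ g, α (t * of g * t⁻¹) = β (t * of g * t⁻¹) → g ∈ A)
    (u : ℤˣ) (g : G) (L : List (ℤˣ × G))
    (hL : ((u, g) :: L).IsChain fun a b => a.2 ∈ toSubgroup A B a.1 → a.1 = b.1) (j : ℕ) :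
    OK (fun _ => ()) (fun _ => α) (fun _ => β) j ((), ((u : ℤ) : ℝ)) (hc u g L) := by
  induction L generalizing u g j with
  | nil => exact ⟨rfl, by rcases Int.units_eq_one_or u with rfl | rfl <;> simp⟩
  | cons a L ih =>
    obtain ⟨u', g'⟩ := a
    rw [List.isChain_cons] at hL
    have hc1 := hL.1 (u', g') (by simp)
    refine ⟨rfl, by rcases Int.units_eq_one_or u with rfl | rfl <;> simp, fun _ => ?_,
      ih u' g' hL.2 (j + 1)⟩
    simp only at hc1
    rcases Int.units_eq_one_or u with rfl | rfl <;> rcases Int.units_eq_one_or u' with rfl | rfl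
    · simpa [pre, post] using h1 g
    · intro he
      have : g ∈ A := h4 g (by simpa [pre, post] using he)
      have h5 := hc1 this
      exact absurd h5 (by decide)
    · intro he
      have : g ∈ B := h3 g (by simpa [pre, post] using he)
      have h5 := hc1 this
      exact absurd h5 (by decide)
    · simpa [pre, post] using h2 g

theorem hnn_aux {K : Type u} [Group K] (hK : IsHyperlinear K) (α β : HNNExtension G A B φ →* K)
    (h1 : ∀ g, α (t * of g) ≠ β (t * of g)) (h2 : ∀ g, α (of g * t⁻¹) ≠ β (of g * t⁻¹))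
    (h3 : ∀ g, α (of g) = β (of g) → g ∈ B) (h3' : ∀ g ∈ B, α (of g) = β (of g))
    (h4 : ∀ g, α (t * of g * t⁻¹) = β (t * of g * t⁻¹) → g ∈ A)
    (hinj : ∀ g ∈ B, α (of g) = 1 → g = 1) : IsHyperlinear (HNNExtension G A B φ) := by
  classical
  apply hyperlinear_of_sep
  intro g hg
  obtain ⟨d⟩ := NormalWord.TransversalPair.nonempty G A B
  have hgw : (NormalWord.equiv φ d g).prod φ = g := (NormalWord.equiv φ d).symm_apply_apply g
  generalize (NormalWord.equiv φ d g).toReducedWord = w at hgw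
  obtain ⟨g0, L0, hch⟩ := w
  rw [NormalWord.ReducedWord.prod] at hgw
  change of g0 * (L0.map fun x => t ^ (x.1 : ℤ) * of x.2).prod = g at hgw
  cases L0 with
  | nil =>
    rw [List.map_nil, List.prod_nil, mul_one] at hgw
    by_cases ha : α g = 1
    · by_cases hb : β g = 1
      · exfalso
        have h5 : g0 ∈ B := h3 g0 (by rw [hgw, ha, hb])
        have h6 := hinj g0 h5 (by rw [hgw, ha])
        apply hg
        rw [← hgw, h6, map_one]
      · exact (sep_of_hyperlinear hK (β g) hb).comap β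
    · exact (sep_of_hyperlinear hK (α g) ha).comap α
  | cons a L =>
    obtain ⟨u, g1⟩ := a
    rw [List.map_cons, List.prod_cons] at hgw
    change of g0 * (t ^ (u : ℤ) * of g1 * (L.map fun x => t ^ (x.1 : ℤ) * of x.2).prod) = g at hgw
    have hOK := hc_OK α β h1 h2 h3 h4 u g1 L hch 0
    obtain ⟨R, hR⟩ : ∃ R, R = (hc (φ := φ) u g1 L).length + 1 := ⟨_, rfl⟩
    refine sep_of_words (fun _ : ℕ => ()) R (K := fun _ => K) (fun _ => hK) (fun _ => α)
      (fun _ => β) _ _ hR hOK g (of g0 * post u) (hl u g1 L) ?_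
    intro S s
    set γ := tw R (fun _ : ℕ => α) (fun _ => β)
    have hγ : ∀ h ∈ B, ∀ k l : Ix R, γ k (of h) = γ l (of h) := by
      have : ∀ h ∈ B, ∀ k : Ix R, γ k (of h) = fun _ => α (of h) := by
        intro h hh k
        funext j
        by_cases hkj : k.2 = true ∧ k.1 = j
        · simp only [γ, tw, MonoidHom.pi_apply, if_pos hkj]
          exact (h3' h hh).symm
        · simp only [γ, tw, MonoidHom.pi_apply, if_neg hkj]
      intro h hh k l
      rw [this h hh, this h hh]
    let r : Q S (Ix R) := fT S (rotU (fun _ => ()) R () s)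
    have hr : ∀ a : A, r * fD S γ t * (fD S γ).comp of (a : G) =
        (fD S γ).comp of (φ a : G) * (r * fD S γ t) := by
      intro a
      rw [MonoidHom.comp_apply, MonoidHom.comp_apply, mul_assoc, ← map_mul, t_mul_of, map_mul,
        ← mul_assoc, ← mul_assoc]
      congr 1
      exact fT_comm S γ _ _ fun k l _ => hγ _ (φ a).2 k l
    refine ⟨HNNExtension.lift ((fD S γ).comp of) (r * fD S γ t) hr, ?_⟩
    have key := hc_prod S (fun _ => ()) R γ s
      (HNNExtension.lift ((fD S γ).comp of) (r * fD S γ t) hr) (fun g => by simp)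
      (fun v => by
        rw [map_zpow, lift_t]
        rcases Int.units_eq_one_or v with rfl | rfl
        · simp [pre, post, r]
        · simp only [pre, post, r]
          rw [if_neg (by decide), if_neg (by decide)]
          simp only [Units.val_neg, Units.val_one, Int.reduceNeg, zpow_neg, zpow_one, mul_inv_rev,
            map_inv, map_one, mul_one, Int.cast_neg, Int.cast_one, mul_neg]
          rw [rotU_neg, map_inv]) u g1 L
    conv_lhs => rw [← hgw]
    rw [map_mul, key, lift_of, map_mul, MonoidHom.comp_apply]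
    simp only [mul_assoc]

/-- **HNN extensions.** -/
theorem hyperlinear_hnn {K : Type u} [Group K] (hK : IsHyperlinear K)
    (α β : HNNExtension G A B φ →* K) (hB : ∀ g : G, α (of g) = β (of g) ↔ g ∈ B)
    (hA : ∀ g : G, α (t * of g * t⁻¹) = β (t * of g * t⁻¹) → g ∈ A)
    (hinj : ∀ g ∈ B, α (of g) = 1 → g = 1) : IsHyperlinear (HNNExtension G A B φ) := by
  let ex : HNNExtension G A B φ →* ULift.{u} (Multiplicative ℤ) :=
    HNNExtension.lift 1 ⟨Multiplicative.ofAdd 1⟩ (fun a => by simp)
  have ex1 : ex t = ⟨Multiplicative.ofAdd 1⟩ := lift_t _ _ _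
  have ex2 : ∀ g, ex (of g) = 1 := fun g => lift_of _ _ _ g
  have ne1 : (⟨Multiplicative.ofAdd 1⟩ : ULift.{u} (Multiplicative ℤ)) ≠ 1 := by
    intro h
    have := congrArg (fun z => Multiplicative.toAdd z.down) h
    simp at this
  have ne2 : (⟨Multiplicative.ofAdd 1⟩ : ULift.{u} (Multiplicative ℤ))⁻¹ ≠ 1 := by
    intro h
    exact ne1 (inv_eq_one.1 h)
  refine hnn_aux (hyperlinear_prod hK hyperlinear_int) (α.prod 1) (β.prod ex) ?_ ?_ ?_ ?_ ?_ ?_
  · intro g h
    have h2 := congrArg Prod.snd h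
    simp only [MonoidHom.prod_apply, MonoidHom.one_apply, map_mul, ex1, ex2] at h2
    exact ne1 h2.symm
  · intro g h
    have h2 := congrArg Prod.snd h
    simp only [MonoidHom.prod_apply, MonoidHom.one_apply, map_mul, map_inv, ex1, ex2] at h2
    exact ne2 h2.symm
  · intro g h
    exact (hB g).1 (congrArg Prod.fst h)
  · intro g hg
    exact Prod.ext ((hB g).2 hg) (ex2 g).symm
  · intro g h
    exact hA g (congrArg Prod.fst h)
  · intro g hg h
    exact hinj g hg (congrArg Prod.fst h)

end hnn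

end Pool.Agent.N44.HL
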