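import Pool.Agent.H21R2.HDefs
import Mathlib.GroupTheory.PushoutI
import Mathlib.GroupTheory.HNNExtension
import Mathlib.Combinatorics.SimpleGraph.Acyclic

/-!
# Definitions: closed subgroups, doubles, free extensions
-/

set_option autoImplicit false

namespace Pool.Agent.N44.HL

open Pool.Agent.H21R2 Monoid

universe u

/-- The subgroup `H` of `G` is the equaliser of two homomorphisms from `G` to one hyperlinear
group. -/
def IsClosedSubgroup {G : Type u} [Group G] (H : Subgroup G) : Prop :=
  ∃ (K : Type u) (_ : Group K) (a b : G →* K), IsHyperlinear K ∧ ∀ g, a g = b g ↔ g ∈ H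

variable {G : Type u} [Group G] (H : Subgroup G)

/-- The family consisting of the two groups `G` and `H × L`. -/
def extFam (L : Type u) : Bool → Type u
  | true => G
  | false => H × L

instance (L : Type u) [Group L] : ∀ b, Group (extFam H L b)
  | true => inferInstanceAs (Group G)
  | false => inferInstanceAs (Group (H × L))

/-- The inclusion `H → G` and the map `H → H × L`, `h ↦ (h, 1)`. -/
def extMap (L : Type u) [Group L] : ∀ b, H →* extFam H L b
  | true => H.subtype
  | false => MonoidHom.inl H L

/-- The double `G *_H G`. -/
abbrev Double : Type u := PushoutI (fun _ : Fin 2 => H.subtype)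

/-- The HNN extension of `G` by a stable letter which commutes with `H`. -/
abbrev CentralHNN : Type u := HNNExtension G H H (MulEquiv.refl H)

/-- The amalgam of `G` and `H × L` over `H`. -/
abbrev FreeExt (L : Type u) [Group L] : Type u := PushoutI (extMap H L)

/-- Every group `P` which acts without inversions on a tree and has a homomorphism `f : P → G`
which is injective on every vertex stabiliser, such that for every edge `e` there is a set `S` of
cosets of `H` for which the stabiliser of `e` is, within the stabiliser of either end of `e`, the
set of all `p` such that `f p` fixes every element of `S`, is hyperlinear. -/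
def TreeProperty : Prop :=
  ∀ (P : Type u) [Group P] (V : Type u) [MulAction P V] (T : SimpleGraph V) (f : P →* G),
    T.IsTree →
    (∀ (p : P) (a b : V), T.Adj a b → T.Adj (p • a) (p • b)) →
    (∀ (p : P) (a b : V), T.Adj a b → ¬ (p • a = b ∧ p • b = a)) →
    (∀ (p : P) (a : V), p • a = a → f p = 1 → p = 1) →
    (∀ a b : V, T.Adj a b → ∃ S : Set (G ⧸ H), ∀ p : P,
      (p • a = a → (p • b = b ↔ ∀ s ∈ S, f p • s = s)) ∧
      (p • b = b → (p • a = a ↔ ∀ s ∈ S, f p • s = s))) →
    IsHyperlinear P

end Pool.Agent.N44.HL
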