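import Pool.Agent.N44.HL.D
import Mathlib.Combinatorics.SimpleGraph.Acyclic

/-!
# Groups acting on trees
-/

set_option autoImplicit false

namespace Pool.Agent.N44.HL

open Filter Topology Pool.Agent.H21R2

universe u v w x

section potential

variable {V : Type v} {T : SimpleGraph V} {A : Type w} [Group A] (f : V → V → A)

/-- the product along a walk -/
def wprod {u v : V} : T.Walk u v → A
  | .nil => 1
  | .cons (u := a) (v := b) _ w => f a b * wprod w

theorem wprod_concat {a b c : V} (w : T.Walk a b) (h : T.Adj b c) :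
    wprod f (w.concat h) = wprod f w * f b c := by
  induction w with
  | nil => simp [SimpleGraph.Walk.concat, SimpleGraph.Walk.append, wprod]
  | cons h' w ih =>
    rw [SimpleGraph.Walk.concat_cons, wprod, wprod, ih, mul_assoc]

theorem exists_potential (hT : T.IsTree) (hf : ∀ a b, T.Adj a b → f b a = (f a b)⁻¹) (v0 : V) :
    ∃ F : V → A, F v0 = 1 ∧ ∀ a b, T.Adj a b → F b = F a * f a b := by
  choose p hp hp' using fun v => hT.existsUnique_path v0 v
  refine ⟨fun v => wprod f (p v), ?_, fun a b hab => ?_⟩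
  · have : p v0 = .nil := (hp' v0 .nil SimpleGraph.Walk.IsPath.nil).symm
    simp only [this, wprod]
  · simp only
    by_cases hb : b ∈ (p a).support
    · have := hT.isAcyclic.path_concat (hp b) (hp a) hab.symm hb
      rw [this, wprod_concat, hf a b hab, inv_mul_cancel_right]
    · have ha := hT.isAcyclic.mem_support_of_ne_mem_support_of_adj_of_isPath (hp b) (hp a)
        hab.symm hb
      have := hT.isAcyclic.path_concat (hp a) (hp b) hab ha
      rw [this, wprod_concat]

theorem potential_walk {F : V → A} (hF : ∀ a b, T.Adj a b → F b = F a * f a b) {a b : V}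
    (w : T.Walk a b) : F b = F a * wprod f w := by
  induction w with
  | nil => rw [wprod, mul_one]
  | cons h w ih => rw [ih, hF _ _ h, wprod, mul_assoc]

theorem potential_unique {F F' : V → A} (hT : T.IsTree)
    (hF : ∀ a b, T.Adj a b → F b = F a * f a b) (hF' : ∀ a b, T.Adj a b → F' b = F' a * f a b)
    (v0 : V) (h0 : F v0 = F' v0) (v : V) : F v = F' v := by
  obtain ⟨w⟩ := hT.connected.preconnected v0 v
  rw [potential_walk f hF w, potential_walk f hF' w, h0]

variable {P : Type u} [Group P] [MulAction P V]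

/-- twisting a homomorphism by an equivariant labelling of the edges of a tree -/
theorem tree_hom (hT : T.IsTree) (hact : ∀ (p : P) a b, T.Adj a b → T.Adj (p • a) (p • b))
    (hf : ∀ a b, T.Adj a b → f b a = (f a b)⁻¹) (D : P →* A)
    (hD : ∀ (p : P) a b, T.Adj a b → f (p • a) (p • b) = D p * f a b * (D p)⁻¹) (v0 : V) :
    ∃ ψ : P →* A, ∀ (p : P) (w : T.Walk v0 (p • v0)), ψ p = wprod f w * D p := by
  obtain ⟨F, F0, hF⟩ := exists_potential f hT hf v0
  have key : ∀ (p : P) (v : V), F (p • v) = F (p • v0) * (D p * F v * (D p)⁻¹) := by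
    intro p v
    refine potential_unique (fun a b => f (p • a) (p • b)) (F := fun v => F (p • v))
      (F' := fun v => F (p • v0) * (D p * F v * (D p)⁻¹)) hT ?_ ?_ v0 ?_ v
    · intro a b hab
      exact hF _ _ (hact p a b hab)
    · intro a b hab
      rw [hF a b hab, hD p a b hab]
      group
    · rw [F0]
      group
  refine ⟨MonoidHom.mk' (fun p => F (p • v0) * D p) fun p q => ?_, fun p w => ?_⟩
  · rw [mul_smul, key p (q • v0), map_mul]
    group
  · change F (p • v0) * D p = _
    rw [potential_walk f hF w, F0, one_mul]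

end potential

section choice

variable {P : Type u} [Group P] {V : Type v} [MulAction P V]

/-- pairs of vertices up to the action and reversal -/
def prel : Setoid (V × V) where
  r d d' := ∃ p : P, p • d = d' ∨ p • d = d'.swap
  iseqv := by
    refine ⟨fun d => ⟨1, Or.inl (one_smul _ _)⟩, ?_, ?_⟩
    · rintro d d' ⟨p, h | h⟩
      · exact ⟨p⁻¹, Or.inl (by rw [← h, inv_smul_smul])⟩
      · refine ⟨p⁻¹, Or.inr ?_⟩
        have : d' = p • d.swap := by
          rw [← d'.swap_swap, ← h]; rfl
        rw [this, inv_smul_smul]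
    · rintro d d' d'' ⟨p, h | h⟩ ⟨q, h' | h'⟩
      · exact ⟨q * p, Or.inl (by rw [mul_smul, h, h'])⟩
      · exact ⟨q * p, Or.inr (by rw [mul_smul, h, h'])⟩
      · refine ⟨q * p, Or.inr ?_⟩
        rw [mul_smul, h, ← h']; rfl
      · refine ⟨q * p, Or.inl ?_⟩
        rw [mul_smul, h]
        have : d'' = (q • d').swap := by rw [h', Prod.swap_swap]
        rw [this]; rfl

variable (P V) in
/-- types of edges -/
abbrev Ty : Type v := Quotient (prel (P := P) (V := V))

/-- type of an edge -/
def ty (a b : V) : Ty P V := Quotient.mk prel (a, b)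

/-- the representative of a type -/
noncomputable def rep (o : Ty P V) : V × V := o.out

theorem rep_spec (a b : V) : ∃ p : P, p • rep (ty (P := P) a b) = (a, b) ∨
    p • rep (ty (P := P) a b) = (b, a) :=
  Quotient.mk_out (s := prel (P := P)) (a, b)

theorem ty_swap (a b : V) : ty (P := P) b a = ty a b :=
  Quotient.sound ⟨1, Or.inr (one_smul _ _)⟩

theorem ty_smul (p : P) (a b : V) : ty (P := P) (p • a) (p • b) = ty a b :=
  Quotient.sound ⟨p⁻¹, Or.inl (by
    change (p⁻¹ • p • a, p⁻¹ • p • b) = (a, b)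
    rw [inv_smul_smul, inv_smul_smul])⟩

variable (P) in
/-- the edge is positively oriented -/
def pos (a b : V) : Prop := ∃ p : P, p • rep (ty (P := P) a b) = (a, b)

open Classical in
variable (P) in
/-- orientation -/
noncomputable def sg (a b : V) : ℤ := if pos P a b then 1 else -1

open Classical in
variable (P) in
/-- the element moving the representative to the edge -/
noncomputable def qq (a b : V) : P :=
  if h : pos P a b then h.choose else (rep_spec (P := P) a b).choose

theorem qq_pos {a b : V} (h : pos P a b) : qq P a b • rep (ty (P := P) a b) = (a, b) := by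
  rw [qq, dif_pos h]
  exact h.choose_spec

theorem qq_neg {a b : V} (h : ¬ pos P a b) : qq P a b • rep (ty (P := P) a b) = (b, a) := by
  rw [qq, dif_neg h]
  rcases (rep_spec (P := P) a b).choose_spec with h' | h'
  · exact absurd ⟨_, h'⟩ h
  · exact h'

theorem pos_smul (p : P) (a b : V) : pos P (p • a) (p • b) ↔ pos P a b := by
  rw [pos, pos, ty_smul]
  constructor
  · rintro ⟨q, hq⟩
    refine ⟨p⁻¹ * q, ?_⟩
    rw [mul_smul, hq]
    change (p⁻¹ • p • a, p⁻¹ • p • b) = (a, b)
    rw [inv_smul_smul, inv_smul_smul]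
  · rintro ⟨q, hq⟩
    refine ⟨p * q, ?_⟩
    rw [mul_smul, hq]
    rfl

variable {T : SimpleGraph V}

theorem pos_swap (hinv : ∀ (p : P) a b, T.Adj a b → ¬ (p • a = b ∧ p • b = a)) {a b : V}
    (hab : T.Adj a b) : pos P b a ↔ ¬ pos P a b := by
  rw [pos, ty_swap]
  constructor
  · rintro ⟨q, hq⟩ ⟨q', hq'⟩
    apply hinv (q' * q⁻¹) b a hab.symm
    have h1 : q⁻¹ • (b, a) = rep (ty (P := P) a b) := by rw [← hq, inv_smul_smul]
    have h2 : (q' * q⁻¹) • (b, a) = (a, b) := by rw [mul_smul, h1, hq']
    exact ⟨congrArg Prod.fst h2, congrArg Prod.snd h2⟩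
  · intro h
    exact ⟨_, qq_neg h⟩

theorem sg_swap (hinv : ∀ (p : P) a b, T.Adj a b → ¬ (p • a = b ∧ p • b = a)) {a b : V}
    (hab : T.Adj a b) : sg P b a = -sg P a b := by
  rw [sg, sg]
  by_cases h : pos P a b
  · rw [if_pos h, if_neg (fun h' => (pos_swap hinv hab).1 h' h)]
  · rw [if_neg h, if_pos ((pos_swap hinv hab).2 h), neg_neg]

theorem sg_smul (p : P) (a b : V) : sg P (p • a) (p • b) = sg P a b := by
  rw [sg, sg]
  by_cases h : pos P a b
  · rw [if_pos h, if_pos ((pos_smul p a b).2 h)]
  · rw [if_neg h, if_neg (fun h' => h ((pos_smul p a b).1 h'))]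

theorem sg_ne (a b : V) : sg P a b ≠ 0 := by
  rw [sg]
  split_ifs <;> decide

/-- the label of an edge -/
noncomputable def lab {A : Type w} [Group A] (D : P →* A) (F : Ty P V → A) (a b : V) : A :=
  D (qq P a b) * (F (ty a b)) ^ (sg P a b) * (D (qq P a b))⁻¹

theorem lab_aux {A : Type w} [Group A] (D : P →* A) (F : Ty P V → A) (o : Ty P V)
    (hF : ∀ p : P, p • rep o = rep o → F o * D p = D p * F o) (n : ℤ) (q q' : P)
    (h : q • rep o = q' • rep o) : D q * (F o) ^ n * (D q)⁻¹ = D q' * (F o) ^ n * (D q')⁻¹ := by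
  have h1 : (q'⁻¹ * q) • rep o = rep o := by rw [mul_smul, h, inv_smul_smul]
  have h2 : Commute (F o) (D (q'⁻¹ * q)) := hF _ h1
  have h3 := (h2.zpow_left n).eq
  rw [map_mul, map_inv] at h3
  have h4 : D q * (F o) ^ n = D q' * (F o) ^ n * (D q')⁻¹ * D q := by
    calc D q * (F o) ^ n = D q' * ((D q')⁻¹ * D q * (F o) ^ n) := by group
      _ = D q' * ((F o) ^ n * ((D q')⁻¹ * D q)) := by rw [h3]
      _ = _ := by group
  rw [h4, mul_inv_cancel_right]

theorem lab_smul {A : Type w} [Group A] (D : P →* A) (F : Ty P V → A) {a b : V}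
    (hF : ∀ p : P, p • rep (ty (P := P) a b) = rep (ty (P := P) a b) →
      F (ty a b) * D p = D p * F (ty a b)) (p : P) :
    lab D F (p • a) (p • b) = D p * lab D F a b * (D p)⁻¹ := by
  have h : qq P (p • a) (p • b) • rep (ty (P := P) a b) =
      (p * qq P a b) • rep (ty (P := P) a b) := by
    by_cases hp : pos P a b
    · have h1 := qq_pos ((pos_smul p a b).2 hp)
      rw [ty_smul] at h1
      rw [h1, mul_smul, qq_pos hp]
      rfl
    · have h1 := qq_neg (fun h' => hp ((pos_smul p a b).1 h'))
      rw [ty_smul] at h1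
      rw [h1, mul_smul, qq_neg hp]
      rfl
  rw [lab, lab, ty_smul, sg_smul, lab_aux D F _ hF _ _ _ h, map_mul]
  group

theorem lab_swap {A : Type w} [Group A] (D : P →* A) (F : Ty P V → A)
    (hinv : ∀ (p : P) a b, T.Adj a b → ¬ (p • a = b ∧ p • b = a)) {a b : V} (hab : T.Adj a b)
    (hF : ∀ p : P, p • rep (ty (P := P) a b) = rep (ty (P := P) a b) →
      F (ty a b) * D p = D p * F (ty a b)) :
    lab D F b a = (lab D F a b)⁻¹ := by
  have h : qq P b a • rep (ty (P := P) a b) = qq P a b • rep (ty (P := P) a b) := by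
    by_cases hp : pos P a b
    · have h1 := qq_neg (fun h' => (pos_swap hinv hab).1 h' hp)
      rw [ty_swap] at h1
      rw [h1, qq_pos hp]
    · have h1 := qq_pos ((pos_swap hinv hab).2 hp)
      rw [ty_swap] at h1
      rw [h1, qq_neg hp]
  rw [lab, lab, ty_swap, sg_swap hinv hab, lab_aux D F _ hF _ _ _ h, zpow_neg]
  group

end choice

end Pool.Agent.N44.HL
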