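import Pool.Agent.N44.HL.E

/-!
# Groups acting on trees: the theorem
-/

set_option autoImplicit false

namespace Pool.Agent.N44.HL

open Filter Topology Pool.Agent.H21R2

universe u v w x

section words

variable {P : Type u} [Group P] {V : Type v} [MulAction P V] {T : SimpleGraph V}

/-- letters of the word of a walk -/
noncomputable def wl : (a : V) → {b z : V} → T.Walk b z → List (P × (Ty P V × ℝ))
  | _, _, _, .nil => []
  | a, b, _, .cons (v := c) _ w =>
      ((qq P a b)⁻¹ * qq P b c, (ty b c, (sg P b c : ℝ))) :: wl b w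

variable (P) in
/-- last element -/
noncomputable def wq : (a : V) → {b z : V} → T.Walk b z → P
  | a, b, _, .nil => qq P a b
  | _, b, _, .cons _ w => wq b w

variable (P) in
/-- types of the edges -/
def wt : (a : V) → {b z : V} → T.Walk b z → List (Ty P V)
  | a, b, _, .nil => [ty a b]
  | a, b, _, .cons _ w => ty a b :: wt b w

theorem rotU_zpow (τ : ℕ → Ty P V) (R : ℕ) (o : Ty P V) (s : ℝ) (a b : V) :
    (rotU τ R o s) ^ (sg P a b) = rotU τ R o (s * (sg P a b : ℝ)) := by
  rw [sg]
  split_ifs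
  · simp
  · simp [rotU_neg]

theorem wprod_words {Λ : Type x} [Group Λ] (S : Sys Λ) (τ : ℕ → Ty P V) (R : ℕ)
    (γ : Ix R → P →* Λ) (s : ℝ) (a : V) {b z : V} (w : T.Walk b z) :
    lab (fD S γ) (fun o => fT S (rotU τ R o s)) a b *
        wprod (lab (fD S γ) (fun o => fT S (rotU τ R o s))) w =
      fD S γ (qq P a b) * Zq S γ (fun t => rotU τ R t.1 (s * t.2)) (ty a b, (sg P a b : ℝ))
        (wl a w) * (fD S γ (wq P a w))⁻¹ := by
  induction w generalizing a with
  | nil => rw [wprod, mul_one, lab, wl, wq, Zq, ← map_zpow, rotU_zpow]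
  | cons h w ih =>
    rw [wprod, ih, lab, wl, wq, Zq, ← map_zpow, rotU_zpow, map_mul, map_inv]
    simp only [mul_assoc]

theorem tree_OK {K' : Ty P V → Type u} [∀ o, Group (K' o)] (α β : ∀ o, P →* K' o)
    (hsep : ∀ a b c : V, T.Adj a b → T.Adj b c → a ≠ c → ty (P := P) a b = ty b c →
      α (ty b c) ((qq P a b)⁻¹ * qq P b c) ≠ β (ty b c) ((qq P a b)⁻¹ * qq P b c))
    (τ : ℕ → Ty P V) {a b z : V} (h : T.Adj a b) (w : T.Walk b z)
    (hw : (SimpleGraph.Walk.cons h w).IsPath) (j : ℕ)
    (hτ : ∀ i o, (wt P a w)[i]? = some o → τ (j + i) = o) :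
    OK τ (fun j => α (τ j)) (fun j => β (τ j)) j (ty a b, (sg P a b : ℝ)) (wl a w) := by
  induction w generalizing a j with
  | nil =>
    exact ⟨(hτ 0 _ (by simp [wt])).symm, Int.cast_ne_zero.2 (sg_ne (P := P) _ _)⟩
  | @cons b c z h' w ih =>
    rw [SimpleGraph.Walk.cons_isPath_iff] at hw
    have h0 : τ j = ty a b := hτ 0 _ (by simp [wt])
    have h1 : τ (j + 1) = ty b c := by
      apply hτ 1
      rw [wt]
      cases w <;> simp [wt]
    refine ⟨h0.symm, Int.cast_ne_zero.2 (sg_ne (P := P) _ _), fun hpl => ?_, ih h' hw.1 (j + 1) ?_⟩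
    · have hac : a ≠ c := by
        intro hac
        apply hw.2
        rw [SimpleGraph.Walk.support_cons, hac]
        exact List.mem_cons_of_mem _ w.start_mem_support
      have hty : ty (P := P) a b = ty b c := by
        have := hpl.2
        rw [Nat.add_sub_cancel, h0, h1] at this
        exact this
      have := hsep a b c h h' hac hty
      rw [← h1] at this
      exact this
    · intro i o hi
      rw [add_assoc, add_comm 1 i]
      apply hτ
      rw [wt, List.getElem?_cons_succ]
      exact hi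

end words

section main

variable {P : Type u} [Group P] {V : Type v} [MulAction P V] {T : SimpleGraph V}

theorem exists_height (hT : T.IsTree) (hact : ∀ (p : P) a b, T.Adj a b → T.Adj (p • a) (p • b))
    (hinv : ∀ (p : P) a b, T.Adj a b → ¬ (p • a = b ∧ p • b = a)) (o : Ty P V)
    (ho : T.Adj (rep o).1 (rep o).2) :
    ∃ χ : P →* ULift.{u} (Multiplicative ℤ), (∀ p : P, p • (rep o).1 = (rep o).1 → χ p = 1) ∧
      ∀ p : P, p • (rep o).1 = (rep o).2 → χ p ≠ 1 := by
  classical
  let f : V → V → ULift.{u} (Multiplicative ℤ) := fun a b =>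
    if ty (P := P) a b = o then ⟨Multiplicative.ofAdd (sg P a b)⟩ else 1
  have hf : ∀ a b, T.Adj a b → f b a = (f a b)⁻¹ := by
    intro a b hab
    simp only [f, ty_swap]
    split_ifs
    · rw [sg_swap hinv hab]
      rfl
    · rw [inv_one]
  obtain ⟨χ, hχ⟩ := tree_hom f hT hact hf (1 : P →* ULift.{u} (Multiplicative ℤ))
    (by
      intro p a b _
      simp only [f, ty_smul, sg_smul, MonoidHom.one_apply, inv_one, mul_one, one_mul]) (rep o).1
  refine ⟨χ, fun p hp => ?_, fun p hp => ?_⟩
  · have := hχ p ((SimpleGraph.Walk.nil : T.Walk (rep o).1 (rep o).1).copy rfl hp.symm)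
    rw [this]
    have e : wprod f ((SimpleGraph.Walk.nil : T.Walk (rep o).1 (rep o).1).copy rfl hp.symm) = 1 := by
      have : ∀ (z : V) (hz : (rep o).1 = z),
          wprod f ((SimpleGraph.Walk.nil : T.Walk (rep o).1 (rep o).1).copy rfl hz) = 1 := by
        intro z hz
        subst hz
        rfl
      exact this _ _
    rw [e, MonoidHom.one_apply, mul_one]
  · have := hχ p ((SimpleGraph.Walk.cons ho .nil).copy rfl hp.symm)
    rw [this]
    have e : wprod f ((SimpleGraph.Walk.cons ho .nil).copy rfl hp.symm) =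
        f (rep o).1 (rep o).2 := by
      have : ∀ (z : V) (hz : (rep o).2 = z),
          wprod f ((SimpleGraph.Walk.cons ho .nil).copy rfl hz) = f (rep o).1 (rep o).2 := by
        intro z hz
        subst hz
        rw [SimpleGraph.Walk.copy_rfl_rfl, wprod, wprod, mul_one]
      exact this _ _
    rw [e, MonoidHom.one_apply, mul_one]
    have hty : ty (P := P) (rep o).1 (rep o).2 = o := Quotient.out_eq o
    simp only [f, hty, if_true]
    intro h
    have h2 := congrArg (fun w => Multiplicative.toAdd w.down) h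
    exact sg_ne (P := P) (rep o).1 (rep o).2 h2

theorem exists_data (hT : T.IsTree) (hact : ∀ (p : P) a b, T.Adj a b → T.Adj (p • a) (p • b))
    (hinv : ∀ (p : P) a b, T.Adj a b → ¬ (p • a = b ∧ p • b = a))
    (hcl : ∀ a b, T.Adj a b → ∃ (K : Type u) (_ : Group K) (α β : P →* K), IsHyperlinear K ∧
      (∀ p : P, p • a = a → (α p = β p ↔ p • b = b)) ∧
      (∀ p : P, p • b = b → (α p = β p ↔ p • a = a))) (o : Ty P V) :
    ∃ (K : Type u) (_ : Group K) (α β : P →* K), IsHyperlinear K ∧
      (∀ p : P, p • rep o = rep o → α p = β p) ∧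
      (T.Adj (rep o).1 (rep o).2 →
        (∀ p : P, p • (rep o).1 = (rep o).1 → α p = β p → p • (rep o).2 = (rep o).2) ∧
        (∀ p : P, p • (rep o).2 = (rep o).2 → α p = β p → p • (rep o).1 = (rep o).1) ∧
        (∀ p : P, p • (rep o).1 = (rep o).2 → α p ≠ β p) ∧
        (∀ p : P, p • (rep o).2 = (rep o).1 → α p ≠ β p)) := by
  by_cases ho : T.Adj (rep o).1 (rep o).2
  · obtain ⟨K, _, α, β, hK, h1, h2⟩ := hcl _ _ ho
    obtain ⟨χ, c1, c2⟩ := exists_height hT hact hinv o ho
    refine ⟨K × ULift.{u} (Multiplicative ℤ), inferInstance, α.prod 1, β.prod χ,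
      hyperlinear_prod hK hyperlinear_int, ?_, fun _ => ⟨?_, ?_, ?_, ?_⟩⟩
    · intro p hp
      have e1 := congrArg Prod.fst hp
      have e2 := congrArg Prod.snd hp
      exact Prod.ext ((h1 p e1).2 e2) (c1 p e1).symm
    · intro p hp he
      exact (h1 p hp).1 (congrArg Prod.fst he)
    · intro p hp he
      exact (h2 p hp).1 (congrArg Prod.fst he)
    · intro p hp he
      exact c2 p hp (congrArg Prod.snd he).symm
    · intro p hp he
      have h3 : χ p = 1 := (congrArg Prod.snd he).symm
      refine c2 p⁻¹ (by rw [← hp, inv_smul_smul]) ?_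
      rw [map_inv, h3, inv_one]
  · exact ⟨ULift.{u} (Multiplicative ℤ), inferInstance, 1, 1, hyperlinear_int, fun _ _ => rfl,
      fun h => absurd h ho⟩

theorem rep_adj (hact : ∀ (p : P) a b, T.Adj a b → T.Adj (p • a) (p • b)) {a b : V}
    (hab : T.Adj a b) : T.Adj (rep (ty (P := P) a b)).1 (rep (ty (P := P) a b)).2 := by
  obtain ⟨p, hp | hp⟩ := rep_spec (P := P) a b
  · have h1 : rep (ty (P := P) a b) = p⁻¹ • (a, b) := by rw [← hp, inv_smul_smul]
    rw [h1]
    exact hact _ _ _ hab
  · have h1 : rep (ty (P := P) a b) = p⁻¹ • (b, a) := by rw [← hp, inv_smul_smul]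
    rw [h1]
    exact hact _ _ _ hab.symm

/-- **Groups acting on trees.** -/
theorem hyperlinear_tree (hT : T.IsTree)
    (hact : ∀ (p : P) a b, T.Adj a b → T.Adj (p • a) (p • b))
    (hinv : ∀ (p : P) a b, T.Adj a b → ¬ (p • a = b ∧ p • b = a))
    (hcl : ∀ a b, T.Adj a b → ∃ (K : Type u) (_ : Group K) (α β : P →* K), IsHyperlinear K ∧
      (∀ p : P, p • a = a → (α p = β p ↔ p • b = b)) ∧
      (∀ p : P, p • b = b → (α p = β p ↔ p • a = a)))
    (hker : ∀ p : P, p ≠ 1 → (∀ v : V, p • v = v) → ∃ (K : Type u) (_ : Group K),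
      IsHyperlinear K ∧ ∃ f : P →* K, f p ≠ 1) : IsHyperlinear P := by
  classical
  apply hyperlinear_of_sep
  intro p hp
  by_cases hpv : ∀ v : V, p • v = v
  · obtain ⟨K, _, hK, f, hf⟩ := hker p hp hpv
    exact (sep_of_hyperlinear hK (f p) hf).comap f
  push Not at hpv
  obtain ⟨v0, hv0⟩ := hpv
  choose K' gK α β hK d1 d2 using exists_data hT hact hinv hcl
  obtain ⟨w0, hw0, -⟩ := hT.existsUnique_path v0 (p • v0)
  obtain ⟨z, hz⟩ : ∃ z, z = p • v0 := ⟨_, rfl⟩
  obtain ⟨w1, hw1⟩ : ∃ w1 : T.Walk v0 z, w1.IsPath := by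
    rw [hz]
    exact ⟨w0, hw0⟩
  cases w1 with
  | nil => exact absurd hz.symm hv0
  | @cons _ b _ h w =>
    obtain ⟨τ, hτ⟩ : ∃ τ : ℕ → Ty P V, τ = fun j => ((wt P v0 w)[j]?).getD (ty v0 v0) := ⟨_, rfl⟩
    have hsep : ∀ a b c : V, T.Adj a b → T.Adj b c → a ≠ c → ty (P := P) a b = ty b c →
        α (ty b c) ((qq P a b)⁻¹ * qq P b c) ≠ β (ty b c) ((qq P a b)⁻¹ * qq P b c) := by
      intro a b c hab hbc hac hty
      obtain ⟨e1, e2, e3, e4⟩ := d2 _ (rep_adj (P := P) hact hbc)
      set r := rep (ty (P := P) b c) with hr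
      by_cases hp1 : pos P a b
      · have q1 := qq_pos hp1
        rw [hty, ← hr] at q1
        have q1f : qq P a b • r.1 = a := congrArg Prod.fst q1
        have q1s : qq P a b • r.2 = b := congrArg Prod.snd q1
        by_cases hp2 : pos P b c
        · have q2 := qq_pos hp2
          rw [← hr] at q2
          have q2f : qq P b c • r.1 = b := congrArg Prod.fst q2
          have q2s : qq P b c • r.2 = c := congrArg Prod.snd q2
          apply e3
          rw [mul_smul, q2f, inv_smul_eq_iff, q1s]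
        · have q2 := qq_neg hp2
          rw [← hr] at q2
          have q2f : qq P b c • r.1 = c := congrArg Prod.fst q2
          have q2s : qq P b c • r.2 = b := congrArg Prod.snd q2
          intro he
          have := e2 _ (by rw [mul_smul, q2s, inv_smul_eq_iff, q1s]) he
          rw [mul_smul, q2f, inv_smul_eq_iff, q1f] at this
          exact hac this.symm
      · have q1 := qq_neg hp1
        rw [hty, ← hr] at q1
        have q1f : qq P a b • r.1 = b := congrArg Prod.fst q1
        have q1s : qq P a b • r.2 = a := congrArg Prod.snd q1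
        by_cases hp2 : pos P b c
        · have q2 := qq_pos hp2
          rw [← hr] at q2
          have q2f : qq P b c • r.1 = b := congrArg Prod.fst q2
          have q2s : qq P b c • r.2 = c := congrArg Prod.snd q2
          intro he
          have := e1 _ (by rw [mul_smul, q2f, inv_smul_eq_iff, q1f]) he
          rw [mul_smul, q2s, inv_smul_eq_iff, q1s] at this
          exact hac this.symm
        · have q2 := qq_neg hp2
          rw [← hr] at q2
          have q2f : qq P b c • r.1 = c := congrArg Prod.fst q2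
          have q2s : qq P b c • r.2 = b := congrArg Prod.snd q2
          apply e4
          rw [mul_smul, q2s, inv_smul_eq_iff, q1f]
    have hOK := tree_OK α β hsep τ h w hw1 0 (by
      intro i o hi
      rw [zero_add, hτ]
      simp only [hi, Option.getD_some])
    obtain ⟨R, hR⟩ : ∃ R, R = (wl (P := P) v0 w).length + 1 := ⟨_, rfl⟩
    refine sep_of_words τ R (K := fun j => K' (τ j)) (fun j => hK (τ j)) (fun j => α (τ j))
      (fun j => β (τ j)) (ty v0 b, (sg P v0 b : ℝ)) (wl v0 w) hR hOK p (qq P v0 b)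
      ((wq P v0 w)⁻¹ * p) ?_
    intro S s
    obtain ⟨γ, hγ⟩ : ∃ γ, γ = tw R (fun j => α (τ j)) (fun j => β (τ j)) := ⟨_, rfl⟩
    rw [← hγ]
    have hcomm : ∀ (o : Ty P V) (p : P), p • rep o = rep o →
        fT S (rotU τ R o s) * fD S γ p = fD S γ p * fT S (rotU τ R o s) := by
      intro o p hp
      apply fT_comm
      intro k l hkl
      rcases rot_act τ R o s k l hkl with rfl | ⟨h1, h2⟩
      · rfl
      · have h3 : ∀ j : ℕ, pl τ j → τ j = o → α (τ j) p = β (τ j) p := by
          intro j _ hj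
          exact d1 (τ j) p (by rw [hj]; exact hp)
        rw [hγ, tw_act τ R _ _ o k h1 p h3, tw_act τ R _ _ o l h2 p h3]
    obtain ⟨ψ, hψ⟩ := tree_hom (lab (fD S γ) (fun o => fT S (rotU τ R o s))) hT hact
      (fun a b hab => lab_swap (fD S γ) _ hinv hab (hcomm _)) (fD S γ)
      (fun p a b _ => lab_smul (fD S γ) _ (hcomm _) p) v0
    refine ⟨ψ, ?_⟩
    subst hz
    rw [hψ p (.cons h w), wprod, wprod_words, map_mul, map_inv]
    simp only [mul_assoc]

end main

end Pool.Agent.N44.HL
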