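import Pool.Agent.N44.HL.D2
import Pool.Agent.N44.HL.Defs

/-!
# Closed subgroups
-/

set_option autoImplicit false

namespace Pool.Agent.N44.HL

open Filter Topology Pool.Agent.H21R2 Monoid

universe u v w x

/-! ### local embeddings and reduced products -/

theorem hyperlinear_of_local {P : Type u} [Group P]
    (H : ∀ A : Finset P, 1 ∈ A → ∀ g ∈ A, g ≠ 1 → ∃ (K : Type v) (_ : Group K),
      IsHyperlinear K ∧ ∃ f : P → K, f 1 = 1 ∧
        (∀ a ∈ A, ∀ b ∈ A, f (a * b) = f a * f b) ∧ f g ≠ 1) :
    IsHyperlinear P := by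
  classical
  apply hyperlinear_of_criterion
  intro A h1 g hgA hg ε hε
  obtain ⟨K, _, hK, f, f1, fm, fg⟩ := H A h1 g hgA hg
  obtain ⟨n, φ, T, hT, p1, p2, p3, p4⟩ := criterion_of_hyperlinear hK (A.image f)
    (Finset.mem_image.2 ⟨1, h1, f1⟩) (f g) (Finset.mem_image_of_mem f hgA) fg ε hε
  refine ⟨n, fun p => φ (f p), T, hT, ?_, p2, ?_, ?_⟩
  · simp only
    rw [f1, p1]
  · intro a ha
    exact p3 (f a) (Finset.mem_image_of_mem f ha)
  · intro a ha b hb hab
    have := p4 (f a) (Finset.mem_image_of_mem f ha) (f b) (Finset.mem_image_of_mem f hb)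
      (by rw [← fm a ha b hb]; exact Finset.mem_image_of_mem f hab)
    simp only
    rw [fm a ha b hb]
    exact this

section reduced

variable {ι : Type u} (F : Filter ι) (K : ι → Type u) [∀ i, Group (K i)]

/-- the kernel of the reduced product -/
def redN : Subgroup (∀ i, K i) where
  carrier := {x | ∀ᶠ i in F, x i = 1}
  one_mem' := Eventually.of_forall fun _ => rfl
  mul_mem' := by
    intro x y hx hy
    filter_upwards [hx, hy] with i h1 h2
    rw [Pi.mul_apply, h1, h2, mul_one]
  inv_mem' := by
    intro x hx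
    filter_upwards [hx] with i h1
    rw [Pi.inv_apply, h1, inv_one]

instance : (redN F K).Normal := by
  constructor
  intro x hx y
  filter_upwards [hx] with i h1
  rw [Pi.mul_apply, Pi.mul_apply, h1, mul_one, Pi.inv_apply, mul_inv_cancel]

theorem red_eq (x y : ∀ i, K i) :
    (x : (∀ i, K i) ⧸ redN F K) = y ↔ ∀ᶠ i in F, x i = y i := by
  rw [QuotientGroup.eq]
  change (∀ᶠ i in F, (x⁻¹ * y) i = 1) ↔ _
  apply eventually_congr
  filter_upwards with i
  rw [Pi.mul_apply, Pi.inv_apply, inv_mul_eq_one]

theorem hyperlinear_reduced (hK : ∀ i, IsHyperlinear (K i)) :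
    IsHyperlinear ((∀ i, K i) ⧸ redN F K) := by
  classical
  apply hyperlinear_of_local.{u, u}
  intro A h1 g hgA hg
  let σ : (∀ i, K i) ⧸ redN F K → ∀ i, K i := fun q => if q = 1 then 1 else q.out
  have hσ1 : σ 1 = 1 := if_pos rfl
  have hσ : ∀ q, (σ q : (∀ i, K i) ⧸ redN F K) = q := by
    intro q
    by_cases hq : q = 1
    · subst hq
      rw [hσ1]; rfl
    · change ((if q = 1 then 1 else q.out : ∀ i, K i) : (∀ i, K i) ⧸ redN F K) = q
      rw [if_neg hq]
      exact QuotientGroup.out_eq' q
  have hm : ∀ a b, ∀ᶠ i in F, σ (a * b) i = σ a i * σ b i := by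
    intro a b
    have : (σ (a * b) : (∀ i, K i) ⧸ redN F K) = ((σ a * σ b : ∀ i, K i) : _) := by
      rw [hσ, QuotientGroup.mk_mul, hσ, hσ]
    exact (red_eq F K _ _).1 this
  have hev : ∀ᶠ i in F, ∀ a ∈ A, ∀ b ∈ A, σ (a * b) i = σ a i * σ b i := by
    rw [Filter.eventually_all_finset]
    intro a _
    rw [Filter.eventually_all_finset]
    intro b _
    exact hm a b
  have hfr : ∃ᶠ i in F, σ g i ≠ 1 := by
    intro h
    apply hg
    rw [← hσ g, ← QuotientGroup.mk_one, red_eq]
    filter_upwards [h] with i hi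
    simpa using hi
  obtain ⟨i, hi1, hi2⟩ := (hfr.and_eventually hev).exists
  exact ⟨K i, inferInstance, hK i, fun q => σ q i, by simp only; rw [hσ1]; rfl, hi2, hi1⟩

end reduced

/-! ### properties of closed subgroups -/

theorem IsClosedSubgroup.filter {G : Type u} [Group G] {ι : Type u} (F : Filter ι)
    (H : ι → Subgroup G) (hH : ∀ i, IsClosedSubgroup (H i)) (L : Subgroup G)
    (hL : ∀ g, g ∈ L ↔ ∀ᶠ i in F, g ∈ H i) : IsClosedSubgroup L := by
  choose K gK a b hK hab using hH
  refine ⟨(∀ i, K i) ⧸ redN F K, inferInstance, (QuotientGroup.mk' _).comp (MonoidHom.pi a),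
    (QuotientGroup.mk' _).comp (MonoidHom.pi b), hyperlinear_reduced F K hK, fun g => ?_⟩
  rw [hL]
  refine (red_eq F K _ _).trans ?_
  apply eventually_congr
  filter_upwards with i
  exact hab i g

theorem IsClosedSubgroup.iInf {G : Type u} [Group G] {ι : Type u}
    (H : ι → Subgroup G) (hH : ∀ i, IsClosedSubgroup (H i)) : IsClosedSubgroup (⨅ i, H i) := by
  apply IsClosedSubgroup.filter ⊤ H hH
  intro g
  rw [Subgroup.mem_iInf, eventually_top]

theorem IsClosedSubgroup.comap {G G' : Type u} [Group G] [Group G'] (f : G' →* G)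
    {H : Subgroup G} (hH : IsClosedSubgroup H) : IsClosedSubgroup (H.comap f) := by
  obtain ⟨K, _, a, b, hK, hab⟩ := hH
  exact ⟨K, inferInstance, a.comp f, b.comp f, hK, fun g => hab (f g)⟩

theorem IsClosedSubgroup.centralizer {G : Type u} [Group G] (hG : IsHyperlinear G) (S : Set G) :
    IsClosedSubgroup (Subgroup.centralizer S) := by
  refine ⟨S → G, inferInstance, MonoidHom.pi fun _ => MonoidHom.id G,
    MonoidHom.pi fun s => (MulAut.conj (s : G)).toMonoidHom, hyperlinear_pi fun _ => hG,
    fun g => ?_⟩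
  rw [Subgroup.mem_centralizer_iff, funext_iff]
  constructor
  · intro h s hs
    have := h ⟨s, hs⟩
    simp only [MonoidHom.pi_apply, MonoidHom.id_apply, MulEquiv.coe_toMonoidHom,
      MulAut.conj_apply] at this
    rw [eq_mul_inv_iff_mul_eq] at this
    exact this.symm
  · intro h s
    simp only [MonoidHom.pi_apply, MonoidHom.id_apply, MulEquiv.coe_toMonoidHom,
      MulAut.conj_apply]
    rw [eq_mul_inv_iff_mul_eq]
    exact (h s s.2).symm

theorem IsClosedSubgroup.fixed {G : Type u} [Group G] (hG : IsHyperlinear G) (f : G →* G)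
    (H : Subgroup G) (hH : ∀ g, g ∈ H ↔ f g = g) : IsClosedSubgroup H :=
  ⟨G, inferInstance, f, MonoidHom.id G, hG, fun g => (hH g).symm⟩

theorem IsClosedSubgroup.ker {G K : Type u} [Group G] [Group K] (hK : IsHyperlinear K)
    (f : G →* K) : IsClosedSubgroup f.ker :=
  ⟨K, inferInstance, f, 1, hK, fun g => (MonoidHom.mem_ker (f := f)).symm⟩

/-! ### amalgams mapping to a hyperlinear group -/

/-- an amalgam with a homomorphism to a hyperlinear group which is injective on the base and
pulls back a closed subgroup to the base -/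
theorem hyperlinear_pushout_of_closed {ι : Type v} {G : ι → Type u} {C : Type w}
    [∀ i, Group (G i)] [Group C] {φ : ∀ i, C →* G i} {Γ : Type (max u v w)} [Group Γ]
    (hΓ : IsHyperlinear Γ) (f : PushoutI φ →* Γ) (H : Subgroup Γ) (hH : IsClosedSubgroup H)
    (hinj : Function.Injective fun c => f (PushoutI.base φ c))
    (hbase : ∀ c, f (PushoutI.base φ c) ∈ H)
    (hf : ∀ i (g : G i), f (PushoutI.of i g) ∈ H → g ∈ (φ i).range) :
    IsHyperlinear (PushoutI φ) := by
  obtain ⟨K, _, a, b, hK, hab⟩ := hH
  refine hyperlinear_pushout (hyperlinear_prod hΓ hK) (f.prod (a.comp f)) (f.prod (b.comp f))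
    ?_ ?_ ?_
  · intro c
    exact Prod.ext rfl ((hab _).2 (hbase c))
  · intro c d h
    exact hinj (congrArg Prod.fst h)
  · intro i g h
    exact hf i g ((hab _).1 (congrArg Prod.snd h))

/-! ### the double, the HNN extension, the free extension -/

section tfae

variable {G : Type u} [Group G] (H : Subgroup G)

/-- the two inclusions of `G` in the double -/
def inD (i : Fin 2) : G →* Double H := PushoutI.of (φ := fun _ : Fin 2 => H.subtype) i

theorem closed_of_double (h : IsHyperlinear (Double H)) :
    IsHyperlinear G ∧ IsClosedSubgroup H := by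
  have hφ : ∀ i : Fin 2, Function.Injective ((fun _ : Fin 2 => H.subtype) i) :=
    fun _ => H.subtype_injective
  refine ⟨hyperlinear_of_injective h (inD H 0) (PushoutI.of_injective hφ 0), Double H,
    inferInstance, inD H 0, inD H 1, h, fun g => ⟨fun hg => ?_, fun hg => ?_⟩⟩
  · have h1 : inD H 0 g ∈ (PushoutI.base (fun _ : Fin 2 => H.subtype)).range := by
      rw [← PushoutI.inf_of_range_eq_base_range hφ (i := 0) (j := 1) (by decide)]
      exact ⟨⟨g, rfl⟩, ⟨g, hg.symm⟩⟩
    obtain ⟨c, hc⟩ := h1
    rw [← PushoutI.of_apply_eq_base (fun _ : Fin 2 => H.subtype) 0] at hc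
    rw [← PushoutI.of_injective hφ 0 hc]
    exact c.2
  · have h1 := PushoutI.of_apply_eq_base (fun _ : Fin 2 => H.subtype) 0 ⟨g, hg⟩
    have h2 := PushoutI.of_apply_eq_base (fun _ : Fin 2 => H.subtype) 1 ⟨g, hg⟩
    exact h1.trans h2.symm

theorem double_of_closed (hG : IsHyperlinear G) (h : IsClosedSubgroup H) :
    IsHyperlinear (Double H) := by
  let f : Double H →* G := PushoutI.lift (fun _ => MonoidHom.id G) H.subtype (fun _ => rfl)
  have f0 : ∀ (i : Fin 2) (g : G), f (PushoutI.of i g) = g := fun i g =>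
    PushoutI.lift_of (φ := fun _ : Fin 2 => H.subtype) (fun _ => MonoidHom.id G) H.subtype
      (fun _ => rfl) (i := i) g
  have f1 : ∀ g, f (PushoutI.base _ g) = g := fun g => PushoutI.lift_base _ _ _ g
  refine hyperlinear_pushout_of_closed hG f H h ?_ ?_ ?_
  · intro c d hcd
    simp only [f1] at hcd
    exact Subtype.ext hcd
  · intro c
    rw [f1]
    exact c.2
  · intro i g hg
    rw [f0] at hg
    exact ⟨⟨g, hg⟩, rfl⟩

theorem hnn_of_closed (hG : IsHyperlinear G) (h : IsClosedSubgroup H) :
    IsHyperlinear (CentralHNN H) := by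
  obtain ⟨K, _, a, b, hK, hab⟩ := h
  let f : CentralHNN H →* G := HNNExtension.lift (MonoidHom.id G) 1 (fun a => by simp)
  have f0 : ∀ g, f (HNNExtension.of g) = g := fun g => HNNExtension.lift_of _ _ _ g
  have f1 : f HNNExtension.t = 1 := HNNExtension.lift_t _ _ _
  refine hyperlinear_hnn (hyperlinear_prod hG hK) (f.prod (a.comp f)) (f.prod (b.comp f)) ?_ ?_ ?_
  · intro g
    rw [← hab]
    simp only [MonoidHom.prod_apply, MonoidHom.comp_apply, f0, Prod.mk.injEq, true_and]
  · intro g hg
    rw [← hab]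
    have := congrArg Prod.snd hg
    simpa [f0, f1] using this
  · intro g _ hg
    have := congrArg Prod.fst hg
    simpa [f0] using this

theorem centralizer_of_hnn (h : IsHyperlinear (CentralHNN H)) :
    ∃ (Γ : Type u) (_ : Group Γ) (f : G →* Γ) (S : Set Γ), IsHyperlinear Γ ∧
      Function.Injective f ∧ ∀ g, g ∈ H ↔ ∀ s ∈ S, s * f g = f g * s := by
  refine ⟨CentralHNN H, inferInstance, HNNExtension.of, {HNNExtension.t}, h,
    HNNExtension.of_injective _, fun g => ⟨fun hg s hs => ?_, fun hg => ?_⟩⟩
  · rw [Set.mem_singleton_iff] at hs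
    subst hs
    exact HNNExtension.t_mul_of (φ := MulEquiv.refl H) ⟨g, hg⟩
  · by_contra hgH
    have hg1 : (HNNExtension.t : CentralHNN H) * HNNExtension.of g =
        HNNExtension.of g * HNNExtension.t := hg _ rfl
    let w : HNNExtension.NormalWord.ReducedWord G H H :=
      ⟨1, [(1, g), (-1, 1)], by
        simp only [List.isChain_cons_cons, List.isChain_singleton, and_true]
        intro h
        exact absurd h hgH⟩
    have := HNNExtension.ReducedWord.toList_eq_nil_of_mem_of_range (φ := MulEquiv.refl H) w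
      ⟨g, by
        simp only [HNNExtension.NormalWord.ReducedWord.prod, w, List.map_cons, List.map_nil,
          List.prod_cons, List.prod_nil, Units.val_one, zpow_one, Units.val_neg, zpow_neg,
          Int.reduceNeg, map_one, one_mul, mul_one]
        rw [hg1, mul_inv_cancel_right]⟩
    simp [w] at this

theorem closed_of_centralizer (h : ∃ (Γ : Type u) (_ : Group Γ) (f : G →* Γ) (S : Set Γ),
    IsHyperlinear Γ ∧ Function.Injective f ∧ ∀ g, g ∈ H ↔ ∀ s ∈ S, s * f g = f g * s) :
    IsHyperlinear G ∧ IsClosedSubgroup H := by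
  obtain ⟨Γ, _, f, S, hΓ, hf, hS⟩ := h
  refine ⟨hyperlinear_of_injective hΓ f hf, ?_⟩
  have h1 := (IsClosedSubgroup.centralizer hΓ S).comap f
  have h2 : (Subgroup.centralizer S).comap f = H := by
    ext g
    rw [Subgroup.mem_comap, Subgroup.mem_centralizer_iff, hS]
  rwa [h2] at h1

theorem ext_of_closed (hG : IsHyperlinear G) (h : IsClosedSubgroup H) (L : Type u) [Group L]
    (hL : IsHyperlinear L) : IsHyperlinear (FreeExt H L) := by
  obtain ⟨K, _, a, b, hK, hab⟩ := h
  let fG : ∀ i, extFam H L i →* G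
    | true => MonoidHom.id G
    | false => H.subtype.comp (MonoidHom.fst H L)
  let fL : ∀ i, extFam H L i →* L
    | true => 1
    | false => MonoidHom.snd H L
  let f : FreeExt H L →* G := PushoutI.lift fG H.subtype (by
    rintro (_ | _) <;> rfl)
  let l : FreeExt H L →* L := PushoutI.lift fL 1 (by
    rintro (_ | _)
    · ext x; rfl
    · ext x; rfl)
  have f0 : ∀ i g, f (PushoutI.of i g) = fG i g := fun i g => PushoutI.lift_of _ _ _ g
  have f1 : ∀ g, f (PushoutI.base _ g) = g := fun g => PushoutI.lift_base _ _ _ g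
  have l0 : ∀ i g, l (PushoutI.of i g) = fL i g := fun i g => PushoutI.lift_of _ _ _ g
  have l1 : ∀ g, l (PushoutI.base _ g) = 1 := fun g => PushoutI.lift_base _ _ _ g
  refine hyperlinear_pushout (K := G × (K × L)) (hyperlinear_prod hG (hyperlinear_prod hK hL))
    (f.prod ((a.comp f).prod 1)) (f.prod ((b.comp f).prod l)) ?_ ?_ ?_
  · intro c
    refine Prod.ext rfl (Prod.ext ?_ (l1 c).symm)
    simp only [MonoidHom.prod_apply, MonoidHom.comp_apply, f1]
    exact (hab c).2 c.2
  · intro c d hcd
    have := congrArg Prod.fst hcd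
    simp only [MonoidHom.prod_apply, f1] at this
    exact Subtype.ext this
  · intro i g hg
    have h2 := congrArg (fun z => z.2.1) hg
    have h3 := congrArg (fun z => z.2.2) hg
    simp only [MonoidHom.prod_apply, MonoidHom.comp_apply, f0, l0] at h2 h3
    cases i with
    | true => exact ⟨⟨g, (hab g).1 h2⟩, rfl⟩
    | false => exact ⟨g.1, Prod.ext rfl h3⟩

/-- the inclusion of `G` in the free extension -/
def inG (L : Type u) [Group L] : G →* FreeExt H L :=
  PushoutI.of (G := extFam H L) (φ := extMap H L) true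

/-- the inclusion of `H × L` in the free extension -/
def inHL (L : Type u) [Group L] : H × L →* FreeExt H L :=
  PushoutI.of (G := extFam H L) (φ := extMap H L) false

theorem centralizer_of_ext
    (h : ∀ (L : Type u) [Group L], IsHyperlinear L → IsHyperlinear (FreeExt H L)) :
    ∃ (Γ : Type u) (_ : Group Γ) (f : G →* Γ) (S : Set Γ), IsHyperlinear Γ ∧
      Function.Injective f ∧ ∀ g, g ∈ H ↔ ∀ s ∈ S, s * f g = f g * s := by
  let L : Type u := ULift.{u} (Multiplicative ℤ)
  have hφ : ∀ i, Function.Injective (extMap H L i) := by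
    rintro (_ | _)
    · intro x y hxy
      exact congrArg Prod.fst hxy
    · exact H.subtype_injective
  let z : H × L := (1, ⟨Multiplicative.ofAdd 1⟩)
  have hz : z ∉ (extMap H L false).range := by
    rintro ⟨y, hy⟩
    have := congrArg Prod.snd hy
    have h2 := congrArg (fun w => Multiplicative.toAdd w.down) this
    exact absurd h2 (by
      change ¬ ((0 : ℤ) = 1)
      decide)
  have hg' : ∀ g : G, g ∉ H → g ∉ (extMap H L true).range := by
    rintro g hg ⟨y, hy⟩
    exact hg (hy ▸ y.2)
  refine ⟨FreeExt H L, inferInstance, inG H L, {inHL H L z}, h L hyperlinear_int,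
    PushoutI.of_injective hφ true, fun g => ⟨fun hg s' hs => ?_, fun hg => ?_⟩⟩
  · rw [Set.mem_singleton_iff] at hs
    subst hs
    have h1 : inG H L g = PushoutI.base (extMap H L) ⟨g, hg⟩ :=
      PushoutI.of_apply_eq_base (extMap H L) true ⟨g, hg⟩
    have h2 : inG H L g = inHL H L (⟨g, hg⟩, 1) := by
      rw [h1]
      exact (PushoutI.of_apply_eq_base (extMap H L) false ⟨g, hg⟩).symm
    rw [h2, ← map_mul, ← map_mul]
    congr 1
    exact Prod.ext (by simp [z]) (by simp [z])
  · by_contra hgH
    have hg1 : inHL H L z * inG H L g = inG H L g * inHL H L z := hg _ rfl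
    have hgr := hg' g hgH
    have hgr' := hg' g⁻¹ (fun h => hgH (by simpa using H.inv_mem h))
    have hz' : z⁻¹ ∉ (extMap H L false).range := fun h => hz
      ((inv_mem_iff (S := Subgroup (extFam H L false)) (x := z)).1 h)
    let w : CoprodI.Word (extFam H L) := ⟨[⟨true, g⟩, ⟨false, z⟩, ⟨true, g⁻¹⟩, ⟨false, z⁻¹⟩], by
      intro l hl
      simp only [List.mem_cons, List.not_mem_nil, or_false] at hl
      rcases hl with rfl | rfl | rfl | rfl
      · intro h1
        apply hgr
        change g = 1 at h1
        rw [h1]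
        exact one_mem _
      · intro h1
        apply hz
        change z = 1 at h1
        rw [h1]
        exact one_mem _
      · intro h1
        apply hgr'
        change g⁻¹ = 1 at h1
        rw [h1]
        exact one_mem _
      · intro h1
        apply hz'
        change z⁻¹ = 1 at h1
        rw [h1]
        exact one_mem _, by
      simp⟩
    have hw : PushoutI.Reduced (extMap H L) w := by
      intro l hl
      simp only [w, List.mem_cons, List.not_mem_nil, or_false] at hl
      rcases hl with rfl | rfl | rfl | rfl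
      · exact hgr
      · exact hz
      · exact hgr'
      · exact hz'
    have h3 := hw.eq_empty_of_mem_range hφ ⟨1, by
      rw [map_one, CoprodI.Word.prod]
      simp only [w, List.map_cons, List.map_nil, List.prod_cons, List.prod_nil, map_mul,
        PushoutI.ofCoprodI_of, map_one, mul_one]
      change 1 = inG H L g * (inHL H L z * (inG H L g⁻¹ * inHL H L z⁻¹))
      rw [map_inv, map_inv, ← mul_assoc, ← hg1]
      group⟩
    have h4 := congrArg CoprodI.Word.toList h3
    simp [w, CoprodI.Word.empty] at h4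

/-- **Closed subgroups.** -/
theorem closed_tfae : List.TFAE [
    IsHyperlinear (Double H),
    IsHyperlinear (CentralHNN H),
    IsHyperlinear G ∧ IsClosedSubgroup H,
    ∃ (Γ : Type u) (_ : Group Γ) (f : G →* Γ) (S : Set Γ), IsHyperlinear Γ ∧
      Function.Injective f ∧ ∀ g, g ∈ H ↔ ∀ s ∈ S, s * f g = f g * s,
    ∀ (L : Type u) [Group L], IsHyperlinear L → IsHyperlinear (FreeExt H L)] := by
  tfae_have 1 → 3 := closed_of_double H
  tfae_have 3 → 1 := fun h => double_of_closed H h.1 h.2
  tfae_have 3 → 2 := fun h => hnn_of_closed H h.1 h.2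
  tfae_have 2 → 4 := centralizer_of_hnn H
  tfae_have 4 → 3 := closed_of_centralizer H
  tfae_have 3 → 5 := fun h L _ hL => ext_of_closed H h.1 h.2 L hL
  tfae_have 5 → 4 := centralizer_of_ext H
  tfae_finish

end tfae

end Pool.Agent.N44.HL
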