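import Pool.Agent.N44.HL.F
import Pool.Agent.N44.HL.E2

/-!
# The theorems in terms of closed subgroups
-/

set_option autoImplicit false

namespace Pool.Agent.N44.HL

open Filter Topology Pool.Agent.H21R2 Monoid

universe u v w x

/-- The element `g` of `G` is *detected* if some homomorphism from `G` to a hyperlinear group does
not kill it. -/
def Detected {G : Type u} [Group G] (g : G) : Prop :=
  ∃ (K : Type u) (_ : Group K), IsHyperlinear K ∧ ∃ f : G →* K, f g ≠ 1

theorem hyperlinear_pi' {ι : Type v} {K : ι → Type u} [∀ i, Group (K i)]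
    (hK : ∀ i, IsHyperlinear (K i)) : IsHyperlinear (∀ i, K i) := by
  apply hyperlinear_of_local.{max u v, u}
  intro A _ g _ hg
  obtain ⟨i, hi⟩ := Function.ne_iff.1 hg
  exact ⟨K i, inferInstance, hK i, fun x => x i, rfl, fun _ _ _ _ => rfl, hi⟩

theorem hyperlinear_congr {G : Type u} {K : Type v} [Group G] [Group K] (hK : IsHyperlinear K)
    (f : G →* K) (hf : Function.Injective f) : IsHyperlinear G := by
  apply hyperlinear_of_local.{u, v}
  intro A _ g _ hg
  exact ⟨K, inferInstance, hK, f, map_one f, fun _ _ _ _ => map_mul f _ _,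
    fun h => hg (hf (by rw [h, map_one]))⟩

/-! ### trees -/

theorem hyperlinear_tree' {P : Type u} [Group P] {V : Type v} [MulAction P V]
    {T : SimpleGraph V} (hT : T.IsTree)
    (hact : ∀ (p : P) a b, T.Adj a b → T.Adj (p • a) (p • b))
    (hinv : ∀ (p : P) a b, T.Adj a b → ¬ (p • a = b ∧ p • b = a))
    (hcl : ∀ a b, T.Adj a b → ∃ L : Subgroup P, IsClosedSubgroup L ∧
      (∀ p : P, p • a = a → (p ∈ L ↔ p • b = b)) ∧ (∀ p : P, p • b = b → (p ∈ L ↔ p • a = a)))
    (hker : ∀ p : P, p ≠ 1 → (∀ v : V, p • v = v) → Detected p) : IsHyperlinear P := by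
  refine hyperlinear_tree hT hact hinv (fun a b hab => ?_) hker
  obtain ⟨L, ⟨K, _, α, β, hK, h⟩, h1, h2⟩ := hcl a b hab
  exact ⟨K, inferInstance, α, β, hK, fun p hp => (h p).trans (h1 p hp),
    fun p hp => (h p).trans (h2 p hp)⟩

/-! ### amalgams -/

theorem hyperlinear_pushout' {ι : Type v} {G : ι → Type u} {C : Type u} [∀ i, Group (G i)]
    [Group C] {φ : ∀ i, C →* G i} (L : Subgroup (PushoutI φ)) (hL : IsClosedSubgroup L)
    (hφ : ∀ i (g : G i), PushoutI.of i g ∈ L ↔ g ∈ (φ i).range)
    (hbase : ∀ c, PushoutI.base φ c ∈ L)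
    (hdet : ∀ c : C, c ≠ 1 → Detected (PushoutI.base φ c)) : IsHyperlinear (PushoutI φ) := by
  obtain ⟨K, _, a, b, hK, hab⟩ := hL
  choose Kc gK hKc f hf using fun c : {c : C // c ≠ 1} => hdet c.1 c.2
  refine hyperlinear_pushout (hyperlinear_prod hK (hyperlinear_pi' hKc))
    (a.prod (MonoidHom.pi f)) (b.prod (MonoidHom.pi f)) ?_ ?_ ?_
  · intro c
    exact Prod.ext ((hab _).2 (hbase c)) rfl
  · intro c d h
    by_contra hcd
    have h1 : c * d⁻¹ ≠ 1 := fun h => hcd (mul_inv_eq_one.1 h)
    apply hf ⟨c * d⁻¹, h1⟩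
    have h2 := congrFun (congrArg Prod.snd h) ⟨c * d⁻¹, h1⟩
    change f ⟨c * d⁻¹, h1⟩ (PushoutI.base φ c) = f ⟨c * d⁻¹, h1⟩ (PushoutI.base φ d) at h2
    rw [map_mul, map_mul, h2, map_inv, map_inv, mul_inv_cancel]
  · intro i g h
    exact (hφ i g).1 ((hab _).1 (congrArg Prod.fst h))

/-! ### HNN extensions -/

theorem hyperlinear_hnn' {G : Type u} [Group G] {A B : Subgroup G} {φ : A ≃* B}
    (L : Subgroup (HNNExtension G A B φ)) (hL : IsClosedSubgroup L)
    (hB : ∀ g : G, HNNExtension.of g ∈ L ↔ g ∈ B)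
    (hA : ∀ g : G, HNNExtension.t * HNNExtension.of g * HNNExtension.t⁻¹ ∈ L → g ∈ A)
    (hdet : ∀ g ∈ B, g ≠ 1 → Detected (HNNExtension.of g : HNNExtension G A B φ)) :
    IsHyperlinear (HNNExtension G A B φ) := by
  obtain ⟨K, _, a, b, hK, hab⟩ := hL
  choose Kc gK hKc f hf using fun c : {g : G // g ∈ B ∧ g ≠ 1} => hdet c.1 c.2.1 c.2.2
  refine hyperlinear_hnn (hyperlinear_prod hK (hyperlinear_pi' hKc))
    (a.prod (MonoidHom.pi f)) (b.prod (MonoidHom.pi f)) ?_ ?_ ?_
  · intro g
    rw [← hB, ← hab]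
    simp only [MonoidHom.prod_apply, Prod.mk.injEq, and_true]
  · intro g h
    exact hA g ((hab _).1 (congrArg Prod.fst h))
  · intro g hg h
    by_contra hne
    apply hf ⟨g, hg, hne⟩
    exact congrFun (congrArg Prod.snd h) ⟨g, hg, hne⟩

/-! ### finite groups, finite index -/

section perm

open Matrix

variable {n : ℕ}

/-- permutation matrices -/
def pm : Equiv.Perm (Fin n) →* unitaryGroup (Fin n) ℂ where
  toFun σ := ⟨Matrix.of fun i j => if i = σ j then 1 else 0, by
    rw [mem_unitaryGroup_iff']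
    ext i k
    rw [mul_apply]
    simp only [star_apply, of_apply, one_apply]
    rw [Finset.sum_eq_single (σ i)]
    · simp only [if_true, star_one, one_mul]
      by_cases h : i = k
      · simp [h]
      · rw [if_neg h, if_neg (fun h' => h (σ.injective h'))]
    · intro j _ hj
      rw [if_neg hj, star_zero, zero_mul]
    · simp⟩
  map_one' := by
    apply Subtype.ext
    ext i j
    change (if i = j then (1 : ℂ) else 0) = (1 : Matrix (Fin n) (Fin n) ℂ) i j
    rw [one_apply]
  map_mul' σ τ := by
    apply Subtype.ext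
    ext i k
    change _ = ((Matrix.of fun i j => if i = σ j then (1 : ℂ) else 0) *
      (Matrix.of fun i j => if i = τ j then (1 : ℂ) else 0)) i k
    rw [mul_apply]
    simp only [of_apply]
    rw [Finset.sum_eq_single (τ k)]
    · rw [if_pos rfl, mul_one]
      rfl
    · intro j _ hj
      rw [if_neg hj, mul_zero]
    · simp

theorem pm_injective : Function.Injective (pm (n := n)) := by
  intro σ τ h
  ext j
  have h1 := congrArg (fun A : unitaryGroup (Fin n) ℂ => A.1 (τ j) j) h
  simp only [pm, MonoidHom.coe_mk, OneHom.coe_mk, of_apply, if_true] at h1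
  by_contra hne
  rw [if_neg (fun h => hne (by rw [h]))] at h1
  exact zero_ne_one h1

end perm

theorem hyperlinear_perm (X : Type u) [Finite X] : IsHyperlinear (Equiv.Perm X) := by
  classical
  obtain ⟨n, ⟨e⟩⟩ := Finite.exists_equiv_fin X
  have h1 : IsHyperlinear (Equiv.Perm (Fin n)) := by
    apply hyperlinear_of_sep
    intro g hg
    exact sep_of_rep pm g fun h => hg (pm_injective (by rw [h, map_one]))
  exact hyperlinear_congr h1 e.permCongrHom.toMonoidHom e.permCongrHom.injective

theorem IsClosedSubgroup.stabilizer {G : Type u} [Group G] {X : Type u} [Finite X]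
    [MulAction G X] (x0 : X) : IsClosedSubgroup (MulAction.stabilizer G x0) := by
  classical
  let a : G →* Equiv.Perm (X × Bool) :=
    { toFun := fun g => (MulAction.toPerm g).prodCongr (Equiv.refl Bool)
      map_one' := by ext ⟨x, b⟩ <;> simp
      map_mul' := by
        intro g h
        ext ⟨x, b⟩ <;> simp [mul_smul] }
  let s : Equiv.Perm (X × Bool) := Equiv.swap (x0, false) (x0, true)
  have ha : ∀ g x b, a g (x, b) = (g • x, b) := fun _ _ _ => rfl
  refine ⟨Equiv.Perm (X × Bool), inferInstance, a, (MulAut.conj s).toMonoidHom.comp a,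
    hyperlinear_perm _, fun g => ?_⟩
  rw [MulAction.mem_stabilizer_iff]
  simp only [MonoidHom.comp_apply, MulEquiv.coe_toMonoidHom, MulAut.conj_apply]
  rw [eq_mul_inv_iff_mul_eq]
  constructor
  · intro h
    have h1 := congrArg (fun z : Equiv.Perm (X × Bool) => z (x0, false)) h
    simp only [Equiv.Perm.coe_mul, Function.comp_apply, s, Equiv.swap_apply_left, ha] at h1
    by_contra hne
    rw [Equiv.swap_apply_of_ne_of_ne (by simp [hne]) (by simp [hne])] at h1
    simp at h1
  · intro h
    ext ⟨x, b⟩ : 1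
    simp only [Equiv.Perm.coe_mul, Function.comp_apply, s, ha]
    by_cases hx : x = x0
    · subst hx
      cases b
      · rw [Equiv.swap_apply_left]
        change (g • x, true) = Equiv.swap (x, false) (x, true) (g • x, false)
        rw [h, Equiv.swap_apply_left]
      · rw [Equiv.swap_apply_right]
        change (g • x, false) = Equiv.swap (x, false) (x, true) (g • x, true)
        rw [h, Equiv.swap_apply_right]
    · have h2 : g • x ≠ x0 := fun h' => hx (by
        have : g • x = g • x0 := by rw [h', h]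
        exact smul_left_cancel g this)
      rw [Equiv.swap_apply_of_ne_of_ne (by simp [hx]) (by simp [hx])]
      change (g • x, b) = Equiv.swap (x0, false) (x0, true) (g • x, b)
      rw [Equiv.swap_apply_of_ne_of_ne (by simp [h2]) (by simp [h2])]

theorem IsClosedSubgroup.finiteIndex {G : Type u} [Group G] (H : Subgroup G) [H.FiniteIndex] :
    IsClosedSubgroup H := by
  have h := IsClosedSubgroup.stabilizer (G := G) (X := G ⧸ H) ((1 : G) : G ⧸ H)
  have h2 : MulAction.stabilizer G ((1 : G) : G ⧸ H) = H := MulAction.stabilizer_quotient H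
  rwa [h2] at h

/-! ### retracts -/

theorem hyperlinear_retract {ι : Type v} [Nonempty ι] {G : ι → Type u} {C : Type u}
    [∀ i, Group (G i)] [Group C] (φ : ∀ i, C →* G i) (r : ∀ i, G i →* C)
    (hr : ∀ i c, r i (φ i c) = c) (hG : ∀ i, IsHyperlinear (G i)) :
    IsHyperlinear (PushoutI φ) := by
  classical
  let ρ : PushoutI φ →* C := PushoutI.lift r (MonoidHom.id C) (fun i => by
    ext c
    exact hr i c)
  have ρ0 : ∀ i (g : G i), ρ (PushoutI.of i g) = r i g := fun i g => PushoutI.lift_of _ _ _ g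
  have ρ1 : ∀ c, ρ (PushoutI.base φ c) = c := fun c => PushoutI.lift_base _ _ _ c
  let e : ∀ i j, G i →* G j := fun i j =>
    if h : i = j then h ▸ MonoidHom.id (G i) else (φ j).comp (r i)
  have e0 : ∀ i (g : G i), e i i g = g := by
    intro i g
    simp only [e, dif_pos]
    rfl
  have e1 : ∀ i j c, e i j (φ i c) = φ j c := by
    intro i j c
    by_cases h : i = j
    · subst h
      exact e0 _ _
    · simp only [e, dif_neg h, MonoidHom.comp_apply, hr]
  let η : ∀ j, PushoutI φ →* G j := fun j => PushoutI.lift (fun i => e i j) (φ j) (fun i => by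
    ext c
    exact e1 i j c)
  have η0 : ∀ i (g : G i), η i (PushoutI.of i g) = g := by
    intro i g
    refine (PushoutI.lift_of _ _ _ g).trans (e0 i g)
  have η1 : ∀ j c, η j (PushoutI.base φ c) = φ j c := fun j c => PushoutI.lift_base _ _ _ c
  refine hyperlinear_pushout (K := ∀ j, G j) (hyperlinear_pi' hG) (MonoidHom.pi η)
    (MonoidHom.pi fun j => (φ j).comp ρ) ?_ ?_ ?_
  · intro c
    funext j
    simp only [MonoidHom.pi_apply, MonoidHom.comp_apply, η1, ρ1]
  · intro c d h
    obtain ⟨j⟩ := ‹Nonempty ι›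
    have h1 := congrFun h j
    simp only [MonoidHom.pi_apply, η1] at h1
    rw [← hr j c, h1, hr]
  · intro i g h
    have h1 := congrFun h i
    simp only [MonoidHom.pi_apply, MonoidHom.comp_apply, η0, ρ0] at h1
    exact ⟨r i g, h1.symm⟩

/-- the diagonal subgroup -/
def diag (K : Type u) [Group K] : Subgroup (K × K) := (MonoidHom.fst K K).eqLocus (MonoidHom.snd K K)

theorem closed_diag {K : Type u} [Group K] (hK : IsHyperlinear K) : IsClosedSubgroup (diag K) :=
  ⟨K, inferInstance, MonoidHom.fst K K, MonoidHom.snd K K, hK, fun _ => Iff.rfl⟩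

end Pool.Agent.N44.HL
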