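import Pool.Agent.N44.HL.G

/-!
# The Bass-Serre tree of a central HNN extension
-/

set_option autoImplicit false

namespace Pool.Agent.N44.HL

open HNNExtension

universe u

section bs

variable {G : Type u} [Group G] (H : Subgroup G)

/-- the vertex group -/
abbrev VG : Subgroup (CentralHNN H) := (of : G →* CentralHNN H).range

/-- vertices of the Bass-Serre tree -/
abbrev BV : Type u := CentralHNN H ⧸ VG H

/-- the class of an element -/
def vx (p : CentralHNN H) : BV H := (p : CentralHNN H ⧸ VG H)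

theorem vx_eq {p q : CentralHNN H} : vx H p = vx H q ↔ ∃ g : G, q = p * of g := by
  rw [vx, vx, QuotientGroup.eq]
  constructor
  · rintro ⟨g, hg⟩
    exact ⟨g, by rw [hg, mul_inv_cancel_left]⟩
  · rintro ⟨g, rfl⟩
    exact ⟨g, by rw [inv_mul_cancel_left]⟩

theorem vx_mul_of (p : CentralHNN H) (g : G) : vx H (p * of g) = vx H p :=
  ((vx_eq H).2 ⟨g, rfl⟩).symm

theorem smul_vx (p q : CentralHNN H) : p • vx H q = vx H (p * q) := rfl

/-- exponent of the stable letter -/
def ex : CentralHNN H →* Multiplicative ℤ :=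
  HNNExtension.lift 1 (Multiplicative.ofAdd 1) (fun a => by simp)

theorem ex_t : ex H t = Multiplicative.ofAdd 1 := lift_t _ _ _

theorem ex_of (g : G) : ex H (of g) = 1 := lift_of _ _ _ g

theorem ex_vx {p q : CentralHNN H} (h : vx H p = vx H q) : ex H p = ex H q := by
  obtain ⟨g, rfl⟩ := (vx_eq H).1 h
  rw [map_mul, ex_of, mul_one]

/-- the Bass-Serre tree -/
def BT : SimpleGraph (BV H) where
  Adj x y := ∃ p : CentralHNN H, (x = vx H p ∧ y = vx H (p * t)) ∨ (y = vx H p ∧ x = vx H (p * t))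
  symm := ⟨by
    rintro x y ⟨p, h | h⟩
    · exact ⟨p, Or.inr h⟩
    · exact ⟨p, Or.inl h⟩⟩
  loopless := ⟨by
    rintro x ⟨p, h | h⟩
    all_goals
      have h1 := ex_vx H (h.1.symm.trans h.2)
      rw [map_mul, ex_t] at h1
      have h2 := congrArg Multiplicative.toAdd h1
      simp at h2⟩

variable {H} in
theorem t_comm (h : G) (hh : h ∈ H) (u : ℤˣ) :
    (t : CentralHNN H) ^ (u : ℤ) * of h = of h * t ^ (u : ℤ) := by
  have h1 : Commute (t : CentralHNN H) (of h) := t_mul_of (φ := MulEquiv.refl H) ⟨h, hh⟩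
  exact (h1.zpow_left (u : ℤ)).eq

theorem adj_step {x y : BV H} (hxy : (BT H).Adj x y) {p : CentralHNN H} (hp : vx H p = x) :
    ∃ (g : G) (u : ℤˣ), y = vx H (p * of g * t ^ (u : ℤ)) := by
  obtain ⟨q, ⟨h1, h2⟩ | ⟨h1, h2⟩⟩ := hxy
  · obtain ⟨g, hg⟩ := (vx_eq H).1 (hp.trans h1)
    exact ⟨g, 1, by rw [h2, hg]; simp⟩
  · obtain ⟨g, hg⟩ := (vx_eq H).1 (hp.trans h2)
    refine ⟨g, -1, ?_⟩
    rw [h1, ← hg]
    simp

/-- non-backtracking walks, with previous vertex `a` -/
def NB {V : Type u} {T : SimpleGraph V} (a : V) : {b z : V} → T.Walk b z → Prop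
  | _, _, .nil => True
  | b, _, .cons (v := c) _ w => a ≠ c ∧ NB b w

theorem nb_of_path {V : Type u} {T : SimpleGraph V} {a b z : V} (h : T.Adj a b)
    (w : T.Walk b z) (hw : (SimpleGraph.Walk.cons h w).IsPath) : NB a w := by
  induction w generalizing a with
  | nil => trivial
  | @cons b c z h' w ih =>
    rw [SimpleGraph.Walk.cons_isPath_iff] at hw
    refine ⟨fun hac => hw.2 ?_, ih h' hw.1⟩
    rw [SimpleGraph.Walk.support_cons, hac]
    exact List.mem_cons_of_mem _ w.start_mem_support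

theorem red_walk {b z : BV H} (w : (BT H).Walk b z) (a : BV H) (p : CentralHNN H) (g : G)
    (u : ℤˣ) (ha : vx H p = a) (hb : b = vx H (p * of g * t ^ (u : ℤ))) (hw : NB a w) :
    ∃ (g' : G) (L : List (ℤˣ × G)),
      ((u, g') :: L).IsChain (fun a b => a.2 ∈ toSubgroup H H a.1 → a.1 = b.1) ∧
      z = vx H (p * of g * ((t ^ (u : ℤ) * of g') *
        (L.map fun x => t ^ (x.1 : ℤ) * of x.2).prod)) := by
  induction w generalizing a p g u with
  | nil =>
    refine ⟨1, [], by simp, ?_⟩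
    rw [hb, List.map_nil, List.prod_nil, mul_one, map_one, mul_one]
  | @cons b c z h w ih =>
    obtain ⟨g1, u1, hc⟩ := adj_step H h hb.symm
    obtain ⟨g', L, hL, hz⟩ := ih b (p * of g * t ^ (u : ℤ)) g1 u1 hb.symm hc hw.2
    refine ⟨g1, (u1, g') :: L, ?_, ?_⟩
    · rw [List.isChain_cons_cons]
      refine ⟨fun hg1 => ?_, hL⟩
      simp only at hg1 ⊢
      by_contra hne
      have hg1H : g1 ∈ H := by
        rcases Int.units_eq_one_or u with rfl | rfl
        · exact hg1
        · exact hg1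
      have hu : u1 = -u := by
        rcases Int.units_eq_one_or u with rfl | rfl <;>
          rcases Int.units_eq_one_or u1 with rfl | rfl <;> simp_all
      apply hw.1
      rw [hc, ← ha, hu, mul_assoc (p * of g), t_comm g1 hg1H, Units.val_neg, mul_assoc, mul_assoc,
        mul_assoc, ← zpow_add, add_neg_cancel, zpow_zero, mul_one, ← map_mul, vx_mul_of]
    · rw [hz, List.map_cons, List.prod_cons]
      simp only [mul_assoc]

theorem not_closed {a b : BV H} (h : (BT H).Adj a b) (w : (BT H).Walk b a) (hw : NB a w) :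
    False := by
  obtain ⟨p, hp⟩ : ∃ p, vx H p = a := ⟨a.out, QuotientGroup.out_eq' a⟩
  obtain ⟨g, u, hb⟩ := adj_step H h hp
  obtain ⟨g', L, hL, hz⟩ := red_walk H w a p g u hp hb hw
  obtain ⟨k, hk⟩ := (vx_eq H).1 (hp.trans hz)
  rw [mul_assoc] at hk
  have hk' := mul_left_cancel hk
  have := ReducedWord.toList_eq_nil_of_mem_of_range (φ := MulEquiv.refl H)
    (⟨g, (u, g') :: L, hL⟩ : NormalWord.ReducedWord G H H) ⟨k, by
      rw [NormalWord.ReducedWord.prod, List.map_cons, List.prod_cons]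
      exact hk'.symm⟩
  simp at this

theorem BT_act (q : CentralHNN H) (x y : BV H) (h : (BT H).Adj x y) :
    (BT H).Adj (q • x) (q • y) := by
  obtain ⟨p, ⟨rfl, rfl⟩ | ⟨rfl, rfl⟩⟩ := h
  · exact ⟨q * p, Or.inl ⟨rfl, by rw [smul_vx, mul_assoc]⟩⟩
  · exact ⟨q * p, Or.inr ⟨rfl, by rw [smul_vx, mul_assoc]⟩⟩

/-- the action as graph homomorphisms -/
def actHom (q : CentralHNN H) : BT H →g BT H := ⟨fun x => q • x, fun h => BT_act H q _ _ h⟩

theorem BT_conn : (BT H).Connected := by
  have key : ∀ p : CentralHNN H, (BT H).Reachable (vx H 1) (vx H p) := by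
    intro p
    induction p using HNNExtension.induction_on with
    | of g =>
      have : vx H (of g) = vx H 1 := by
        rw [← one_mul (of g)]
        exact vx_mul_of H 1 g
      rw [this]
    | t => exact SimpleGraph.Adj.reachable ⟨1, Or.inl ⟨rfl, by rw [one_mul]⟩⟩
    | mul p q hp hq =>
      have h1 := hq.map (actHom H p)
      refine hp.trans ?_
      have e1 : actHom H p (vx H 1) = vx H p := by
        change vx H (p * 1) = vx H p
        rw [mul_one]
      rw [e1] at h1
      exact h1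
    | inv p hp =>
      have h1 := hp.map (actHom H p⁻¹)
      have e1 : actHom H p⁻¹ (vx H 1) = vx H p⁻¹ := by
        change vx H (p⁻¹ * 1) = vx H p⁻¹
        rw [mul_one]
      have e2 : actHom H p⁻¹ (vx H p) = vx H 1 := by
        change vx H (p⁻¹ * p) = vx H 1
        rw [inv_mul_cancel]
      rw [e1, e2] at h1
      exact h1.symm
  haveI : Nonempty (BV H) := ⟨vx H 1⟩
  refine SimpleGraph.Connected.mk fun x y => ?_
  obtain ⟨p, rfl⟩ : ∃ p, vx H p = x := ⟨x.out, QuotientGroup.out_eq' x⟩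
  obtain ⟨q, rfl⟩ : ∃ q, vx H q = y := ⟨y.out, QuotientGroup.out_eq' y⟩
  exact (key p).symm.trans (key q)

theorem BT_tree : (BT H).IsTree := by
  rw [SimpleGraph.isTree_iff]
  refine ⟨BT_conn H, fun v c hc => ?_⟩
  cases c with
  | nil => exact hc.ne_nil rfl
  | @cons _ b _ h w =>
    rw [SimpleGraph.Walk.cons_isCycle_iff] at hc
    apply not_closed H h w
    cases w with
    | nil => trivial
    | @cons _ c _ h' w' =>
      refine ⟨fun hvc => hc.2 ?_, nb_of_path h' w' hc.1⟩
      have e : s(v, b) = s(b, c) := by rw [hvc, Sym2.eq_swap]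
      rw [SimpleGraph.Walk.edges_cons, e]
      exact List.mem_cons_self

/-- the retraction to `G` -/
def rG : CentralHNN H →* G := HNNExtension.lift (MonoidHom.id G) 1 (fun a => by simp)

theorem rG_of (g : G) : rG H (of g) = g := lift_of _ _ _ g

theorem rG_t : rG H t = 1 := lift_t _ _ _

theorem BT_inv (q : CentralHNN H) (x y : BV H) (h : (BT H).Adj x y) :
    ¬ (q • x = y ∧ q • y = x) := by
  rintro ⟨h1, h2⟩
  have key : ∀ p, x = vx H p → y = vx H (p * t) → q • x = y → q • y = x → False := by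
    intro p hx hy h1 h2
    rw [hx, hy, smul_vx] at h1
    rw [hx, hy, smul_vx] at h2
    have e1 := ex_vx H h1
    have e2 := ex_vx H h2
    rw [map_mul, map_mul, ex_t] at e1
    rw [map_mul, map_mul, ex_t] at e2
    have f1 := congrArg Multiplicative.toAdd e1
    have f2 := congrArg Multiplicative.toAdd e2
    simp only [toAdd_mul, toAdd_ofAdd] at f1 f2
    omega
  obtain ⟨p, ⟨h3, h4⟩ | ⟨h3, h4⟩⟩ := h
  · exact key p h3 h4 h1 h2
  · have key' : ∀ p, y = vx H p → x = vx H (p * t) → False := by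
      intro p hy hx
      rw [hx, hy, smul_vx] at h1
      rw [hx, hy, smul_vx] at h2
      have e1 := ex_vx H h1
      have e2 := ex_vx H h2
      rw [map_mul, map_mul, ex_t] at e1
      rw [map_mul, map_mul, ex_t] at e2
      have f1 := congrArg Multiplicative.toAdd e1
      have f2 := congrArg Multiplicative.toAdd e2
      simp only [toAdd_mul, toAdd_ofAdd] at f1 f2
      omega
    exact key' p h3 h4

/-- conjugates of elements of `G` by the stable letter -/
theorem t_conj_mem (u : ℤˣ) (g : G)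
    (h : ∃ k : G, (t : CentralHNN H) ^ (u : ℤ) * of g * t ^ (-(u : ℤ)) = of k) : g ∈ H := by
  by_contra hg
  obtain ⟨k, hk⟩ := h
  have := ReducedWord.toList_eq_nil_of_mem_of_range (φ := MulEquiv.refl H)
    (⟨1, [(u, g), (-u, 1)], by
      simp only [List.isChain_cons_cons, List.isChain_singleton, and_true]
      intro h
      exfalso
      apply hg
      rcases Int.units_eq_one_or u with rfl | rfl
      · exact h
      · exact h⟩ : NormalWord.ReducedWord G H H) ⟨k, by
      refine hk.symm.trans ?_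
      rw [NormalWord.ReducedWord.prod]
      simp [mul_assoc]⟩
  simp at this

theorem BT_stab {a b : BV H} (h : (BT H).Adj a b) : ∃ g : G, ∀ p : CentralHNN H,
    (p • a = a → (p • b = b ↔ g⁻¹ * rG H p * g ∈ H)) ∧
    (p • b = b → (p • a = a ↔ g⁻¹ * rG H p * g ∈ H)) := by
  obtain ⟨q, hq⟩ : ∃ q, vx H q = a := ⟨a.out, QuotientGroup.out_eq' a⟩
  obtain ⟨g0, u, hb⟩ := adj_step H h hq
  -- replace `q` by `q * of g0`
  obtain ⟨r, hr⟩ : ∃ r, r = q * of g0 := ⟨_, rfl⟩
  have ha : a = vx H r := by rw [← hq, hr, vx_mul_of]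
  rw [← hr] at hb
  subst ha hb
  refine ⟨rG H r, fun p => ⟨fun hp => ?_, fun hp => ?_⟩⟩
  · rw [smul_vx, eq_comm, vx_eq] at hp
    obtain ⟨k, hk⟩ := hp
    have hp' : p = r * of k * r⁻¹ := by rw [eq_mul_inv_iff_mul_eq, hk]
    have e1 : (rG H r)⁻¹ * rG H p * rG H r = k := by
      rw [hp', map_mul, map_mul, map_inv, rG_of]
      group
    rw [e1, smul_vx, eq_comm, vx_eq]
    constructor
    · rintro ⟨l, hl⟩
      have h2 : (t : CentralHNN H) ^ (-(u : ℤ)) * of k * t ^ (u : ℤ) = of l := by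
        have h3 : (of l : CentralHNN H) = (r * t ^ (u : ℤ))⁻¹ * (p * (r * t ^ (u : ℤ))) := by
          rw [hl]; group
        rw [h3, hp', zpow_neg]
        group
      apply t_conj_mem H (-u) k
      refine ⟨l, ?_⟩
      rw [Units.val_neg, neg_neg]
      exact h2
    · intro hkH
      refine ⟨k, ?_⟩
      rw [hp', mul_assoc, mul_assoc, mul_assoc, inv_mul_cancel_left]
      congr 1
      exact (t_comm k hkH u).symm
  · rw [smul_vx, eq_comm, vx_eq] at hp
    obtain ⟨k, hk⟩ := hp
    have hp' : p = r * t ^ (u : ℤ) * of k * (r * t ^ (u : ℤ))⁻¹ := by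
      rw [eq_mul_inv_iff_mul_eq, hk]
    have e1 : (rG H r)⁻¹ * rG H p * rG H r = k := by
      rw [hp', map_mul, map_mul, map_inv, map_mul, rG_of, map_zpow, rG_t]
      group
    rw [e1, smul_vx, eq_comm, vx_eq]
    constructor
    · rintro ⟨l, hl⟩
      have h2 : (t : CentralHNN H) ^ (u : ℤ) * of k * t ^ (-(u : ℤ)) = of l := by
        have h3 : (of l : CentralHNN H) = r⁻¹ * (p * r) := by
          rw [hl]; group
        rw [h3, hp', zpow_neg]
        group
      exact t_conj_mem H u k ⟨l, h2⟩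
    · intro hkH
      refine ⟨k, ?_⟩
      have h3 : (t : CentralHNN H) ^ (u : ℤ) * of k * (t ^ (u : ℤ))⁻¹ = of k := by
        rw [t_comm k hkH u, mul_inv_cancel_right]
      rw [hp', mul_inv_rev]
      calc r * t ^ (u : ℤ) * of k * ((t ^ (u : ℤ))⁻¹ * r⁻¹) * r
          = r * (t ^ (u : ℤ) * of k * (t ^ (u : ℤ))⁻¹) := by group
        _ = r * of k := by rw [h3]

theorem rG_inj (p : CentralHNN H) (a : BV H) (hp : p • a = a) (h1 : rG H p = 1) : p = 1 := by
  obtain ⟨r, hr⟩ : ∃ q, vx H q = a := ⟨a.out, QuotientGroup.out_eq' a⟩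
  subst hr
  rw [smul_vx, eq_comm, vx_eq] at hp
  obtain ⟨k, hk⟩ := hp
  have hp' : p = r * of k * r⁻¹ := by rw [eq_mul_inv_iff_mul_eq, hk]
  have e1 : (rG H r)⁻¹ * rG H p * rG H r = k := by
    rw [hp', map_mul, map_mul, map_inv, rG_of]
    group
  rw [h1] at e1
  have hk1 : k = 1 := by rw [← e1]; group
  rw [hp', hk1, map_one]
  group

end bs

theorem IsClosedSubgroup.coset {G : Type u} [Group G] {H : Subgroup G}
    (h : IsClosedSubgroup H) (s : G ⧸ H) : IsClosedSubgroup (MulAction.stabilizer G s) := by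
  obtain ⟨g, rfl⟩ : ∃ g : G, (g : G ⧸ H) = s := ⟨s.out, QuotientGroup.out_eq' s⟩
  have h1 := h.comap (MulAut.conj g⁻¹).toMonoidHom
  have h2 : H.comap (MulAut.conj g⁻¹).toMonoidHom = MulAction.stabilizer G (g : G ⧸ H) := by
    ext x
    rw [Subgroup.mem_comap, MulAction.mem_stabilizer_iff, eq_comm]
    change _ ↔ (g : G ⧸ H) = ((x * g : G) : G ⧸ H)
    rw [QuotientGroup.eq]
    simp [mul_assoc]
  rwa [h2] at h1

open Pool.Agent.H21R2 in
theorem tree_of_closed {G : Type u} [Group G] (H : Subgroup G) (hG : IsHyperlinear G)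
    (h : IsClosedSubgroup H) : TreeProperty H := by
  intro P _ V _ T f hT hact hinv hinj hcl
  refine hyperlinear_tree' hT hact hinv (fun a b hab => ?_) ?_
  · obtain ⟨S, hS⟩ := hcl a b hab
    have h1 : IsClosedSubgroup (⨅ s : S, MulAction.stabilizer G (s : G ⧸ H)) :=
      IsClosedSubgroup.iInf _ fun s => h.coset _
    have h2 : ∀ p : P, p ∈ (⨅ s : S, MulAction.stabilizer G (s : G ⧸ H)).comap f ↔
        ∀ s ∈ S, f p • s = s := by
      intro p
      rw [Subgroup.mem_comap, Subgroup.mem_iInf]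
      constructor
      · intro h s hs
        exact h ⟨s, hs⟩
      · intro h s
        exact h s s.2
    refine ⟨_, h1.comap f, fun p hp => ?_, fun p hp => ?_⟩
    · rw [h2, ((hS p).1 hp)]
    · rw [h2, ((hS p).2 hp)]
  · intro p hp hpv
    obtain ⟨v⟩ := hT.connected.nonempty
    exact ⟨G, inferInstance, hG, f, fun h => hp (hinj p v (hpv v) h)⟩

open Pool.Agent.H21R2 in
theorem hnn_of_tree {G : Type u} [Group G] (H : Subgroup G) (h : TreeProperty H) :
    IsHyperlinear (CentralHNN H) := by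
  refine h (CentralHNN H) (BV H) (BT H) (rG H) (BT_tree H) (BT_act H) (BT_inv H)
    (fun p a hp h1 => rG_inj H p a hp h1) (fun a b hab => ?_)
  obtain ⟨g, hg⟩ := BT_stab H hab
  refine ⟨{(g : G ⧸ H)}, fun p => ?_⟩
  have e : (∀ s ∈ ({(g : G ⧸ H)} : Set (G ⧸ H)), rG H p • s = s) ↔ g⁻¹ * rG H p * g ∈ H := by
    simp only [Set.mem_singleton_iff, forall_eq]
    rw [eq_comm]
    change (g : G ⧸ H) = ((rG H p * g : G) : G ⧸ H) ↔ _
    rw [QuotientGroup.eq, mul_assoc]
  rw [e]
  exact hg p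

open Pool.Agent.H21R2 in
/-- **Closed subgroups**, with trees. -/
theorem closed_tfae6 {G : Type u} [Group G] (H : Subgroup G) : List.TFAE [
    IsHyperlinear G ∧ IsClosedSubgroup H,
    ∃ (Γ : Type u) (_ : Group Γ) (f : G →* Γ) (S : Set Γ), IsHyperlinear Γ ∧
      Function.Injective f ∧ ∀ g, g ∈ H ↔ ∀ s ∈ S, s * f g = f g * s,
    IsHyperlinear (Double H),
    IsHyperlinear (CentralHNN H),
    ∀ (L : Type u) [Group L], IsHyperlinear L → IsHyperlinear (FreeExt H L),
    TreeProperty H] := by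
  tfae_have 3 → 1 := closed_of_double H
  tfae_have 1 → 3 := fun h => double_of_closed H h.1 h.2
  tfae_have 1 → 4 := fun h => hnn_of_closed H h.1 h.2
  tfae_have 4 → 2 := centralizer_of_hnn H
  tfae_have 2 → 1 := closed_of_centralizer H
  tfae_have 1 → 5 := fun h L _ hL => ext_of_closed H h.1 h.2 L hL
  tfae_have 5 → 2 := centralizer_of_ext H
  tfae_have 1 → 6 := fun h => tree_of_closed H h.1 h.2
  tfae_have 6 → 4 := hnn_of_tree H
  tfae_finish

end Pool.Agent.N44.HL
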